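import Mathlib

/-! Completely multiplicative sign functions. -/

set_option autoImplicit false

namespace Pool.Agent.H266Z.Leh

open Finset

/-- completely multiplicative, values `±1` on positive integers, `0` at `0` -/
structure CM (f : ℕ → ℤ) : Prop where
  zero : f 0 = 0
  mul : ∀ m n, f (m * n) = f m * f n
  sgn : ∀ n, n ≠ 0 → f n = 1 ∨ f n = -1

theorem CM.sq {f : ℕ → ℤ} (h : CM f) {n : ℕ} (hn : n ≠ 0) : f n * f n = 1 := by
  rcases h.sgn n hn with h1 | h1 <;> simp [h1]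

theorem CM.one {f : ℕ → ℤ} (h : CM f) : f 1 = 1 := by
  have h1 := h.mul 1 1
  have h2 := h.sq one_ne_zero
  rw [mul_one] at h1
  rw [h1, h2]

theorem CM.pow {f : ℕ → ℤ} (h : CM f) (n k : ℕ) : f (n ^ k) = f n ^ k := by
  induction k with
  | zero => simp [h.one]
  | succ k ih => rw [pow_succ, h.mul, ih, pow_succ]

theorem CM.abs_le {f : ℕ → ℤ} (h : CM f) (n : ℕ) : |f n| ≤ 1 := by
  by_cases hn : n = 0
  · simp [hn, h.zero]
  · rcases h.sgn n hn with h1 | h1 <;> simp [h1]

theorem CM.mul' {f g : ℕ → ℤ} (hf : CM f) (hg : CM g) : CM (fun n => f n * g n) where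
  zero := by simp [hf.zero]
  mul m n := by rw [hf.mul, hg.mul]; ring
  sgn n hn := by rcases hf.sgn n hn with h1 | h1 <;> rcases hg.sgn n hn with h2 | h2 <;>
    simp [h1, h2]

/-- the completely multiplicative function with given values at the primes -/
def cm (t : ℕ → ℤ) (n : ℕ) : ℤ := if n = 0 then 0 else (n.primeFactorsList.map t).prod

theorem cm_prime (t : ℕ → ℤ) {p : ℕ} (hp : p.Prime) : cm t p = t p := by
  simp [cm, hp.ne_zero, Nat.primeFactorsList_prime hp]

theorem cm_CM {t : ℕ → ℤ} (ht : ∀ p, p.Prime → t p = 1 ∨ t p = -1) : CM (cm t) where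
  zero := by simp [cm]
  mul m n := by
    by_cases hm : m = 0
    · simp [cm, hm]
    by_cases hn : n = 0
    · simp [cm, hn]
    simp only [cm, hm, hn, mul_eq_zero, or_self, if_false]
    rw [((Nat.perm_primeFactorsList_mul hm hn).map t).prod_eq, List.map_append, List.prod_append]
  sgn n hn := by
    simp only [cm, hn, if_false]
    have : ∀ l : List ℕ, (∀ p ∈ l, p.Prime) → (l.map t).prod = 1 ∨ (l.map t).prod = -1 := by
      intro l
      induction l with
      | nil => simp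
      | cons a l ih =>
        intro h
        rw [List.map_cons, List.prod_cons]
        rcases ht a (h a (by simp)) with h1 | h1 <;>
          rcases ih (fun p hp => h p (by simp [hp])) with h2 | h2 <;> simp [h1, h2]
    exact this _ fun p hp => Nat.prime_of_mem_primeFactorsList hp

/-- induction principle: two multiplicative expressions agreeing at the primes dividing `n` -/
theorem mul_ext {f g : ℕ → ℤ} (Q : ℕ → Prop) (hQ : ∀ p n, p.Prime → n ≠ 0 → Q (p * n) → Q n)
    (h1 : f 1 = g 1) (hstep : ∀ p n, p.Prime → n ≠ 0 → Q (p * n) → f n = g n →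
      f (p * n) = g (p * n)) : ∀ n, n ≠ 0 → Q n → f n = g n := by
  intro n
  induction n using induction_on_primes with
  | zero => intro h; exact absurd rfl h
  | one => intro _ _; exact h1
  | prime_mul p n hp ih =>
    intro hn hq
    have hn0 : n ≠ 0 := fun h => hn (by simp [h])
    exact hstep p n hp hn0 hq (ih hn0 (hQ p n hp hn0 hq))

theorem CM.ext {f g : ℕ → ℤ} (hf : CM f) (hg : CM g) {n : ℕ} (hn : n ≠ 0)
    (h : ∀ p, p.Prime → p ∣ n → f p = g p) : f n = g n := by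
  refine mul_ext (fun n => ∀ p, p.Prime → p ∣ n → f p = g p) ?_ (by rw [hf.one, hg.one]) ?_ n hn h
  · intro p n _ _ h l hl hd
    exact h l hl (hd.mul_left p)
  · intro p n hp _ h ih
    rw [hf.mul, hg.mul, ih, h p hp (dvd_mul_right p n)]

/-- trivial on the class `1` modulo `Q` -/
def Triv (f : ℕ → ℤ) (Q : ℕ) : Prop := ∀ w, w ≠ 0 → w ≡ 1 [MOD Q] → f w = 1

theorem CM.congr {f : ℕ → ℤ} (hf : CM f) {Q : ℕ} (hQ : 0 < Q) (ht : Triv f Q) {m n : ℕ}
    (hm : m ≠ 0) (hn : n ≠ 0) (hc : Nat.Coprime n Q) (h : m ≡ n [MOD Q]) : f m = f n := by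
  have hφ : 0 < Nat.totient Q := Nat.totient_pos.2 hQ
  have h1 : n * n ^ (Nat.totient Q - 1) ≡ 1 [MOD Q] := by
    rw [← pow_succ', Nat.sub_add_cancel hφ]
    exact Nat.ModEq.pow_totient hc
  have h2 : m * n ^ (Nat.totient Q - 1) ≡ 1 [MOD Q] := (h.mul_right _).trans h1
  have hk : n ^ (Nat.totient Q - 1) ≠ 0 := pow_ne_zero _ hn
  have h3 := ht _ (mul_ne_zero hn hk) h1
  have h4 := ht _ (mul_ne_zero hm hk) h2
  rw [hf.mul] at h3 h4
  have h5 := hf.sq hk
  calc f m = f m * (f (n ^ (Nat.totient Q - 1)) * f (n ^ (Nat.totient Q - 1))) := by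
        rw [h5, mul_one]
    _ = f n * (f (n ^ (Nat.totient Q - 1)) * f (n ^ (Nat.totient Q - 1))) := by
        rw [← mul_assoc, ← mul_assoc, h3, h4]
    _ = f n := by rw [h5, mul_one]

/-- the three values are `1` on a whole residue class -/
def Cls (f : ℕ → ℤ) (a b Q : ℕ) : Prop :=
  ∃ r0 : ℕ, ∀ r : ℕ, r ≠ 0 → r ≡ r0 [MOD Q] → f r = 1 ∧ f (r + a) = 1 ∧ f (r + b) = 1

/-- the exceptional pairs -/
def Exc (a b : ℕ) : Prop :=
  ({a % 3, b % 3} : Finset ℕ) = {1, 2} ∨
  ({a % 5, b % 5} : Finset ℕ) ∈ ({{1, 3}, {2, 3}, {2, 4}} : Finset (Finset ℕ)) ∨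
  ({a % 7, b % 7} : Finset ℕ) ∈ ({{1, 5}, {2, 3}, {4, 6}} : Finset (Finset ℕ))

end Pool.Agent.H266Z.Leh
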