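import Pool.Agent.H266Z.Leh.Mean
import Pool.Agent.H266Z.Leh.Basic
import Pool.Agent.H905Z.Model
import Pool.Agent.H905Z.Scales

/-! Entropy decrement for two-point logarithmic correlations. -/

set_option autoImplicit false

namespace Pool.Agent.H266Z.Leh

open Finset Filter Topology Pool.Agent.H905Z.Ent Pool.Agent.H905Z.Model Pool.Agent.H905Z.Scales

/-- sign of a Boolean -/
def sgb (b : Bool) : ℝ := if b then 1 else -1

theorem abs_sgb (b : Bool) : |sgb b| = 1 := by cases b <;> simp [sgb]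

/-- the cyclic sum -/
noncomputable def Zc (x : ℕ → Bool) (h p X : ℕ) : ℝ :=
  ∑ k ∈ range X, ((p : ℝ) * (if p ∣ k then 1 else 0) - 1) * (sgb (x k) * sgb (x ((k + p * h) % X)))

theorem ent_one (X : ℕ) [NeZero X] (x : ℕ → Bool) (M : ℕ) (Pr : Finset ℕ) (P h : ℕ)
    (hM : M * ∏ p ∈ Pr, p ∣ X) (hpr : ∀ p ∈ Pr, p.Prime)
    (hcop : ∀ p ∈ Pr, Nat.Coprime M p) (hsz : ∀ p ∈ Pr, p ≤ P ∧ P < 2 * p) (hP : 0 < P)
    (s : ℝ) (hs : |s| ≤ 1) (lam : ℝ) (h0 : 0 ≤ lam) (h1 : 4 * lam ≤ 1) :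
    lam * (s * ∑ p ∈ Pr, Zc x h p X) ≤
    (CH (blk (Equiv.addRight (1 : ZMod X)) (fun m => x m.val) ((h + 1) * P))
        (fun m => m.val % M) -
      CH (blk (Equiv.addRight (1 : ZMod X)) (fun m => x m.val) ((h + 1) * P))
        (fun m => m.val % (M * ∏ p ∈ Pr, p))) + X * (Pr.card * (4 * lam) ^ 2) := by
  have hP' : (0 : ℝ) < P := by exact_mod_cast hP
  let ext : (Fin ((h + 1) * P) → Bool) → ℕ → Bool := fun w n =>
    if h : n < (h + 1) * P then w ⟨n, h⟩ else true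
  let f : ℕ → ℕ → ℕ × (Fin ((h + 1) * P) → Bool) → ℝ := fun p j w =>
    s * (sgb (ext w.2 j) * sgb (ext w.2 (j + p * h)))
  have hf : ∀ p j w, |f p j w| ≤ 1 := by
    intro p j w
    simp only [f, abs_mul, abs_sgb, mul_one]
    exact hs
  have key := entropy_step X (fun m => x m.val) M Pr P ((h + 1) * P) hM hpr hcop hsz hP f hf
    lam h0 h1
  refine le_trans (le_of_eq ?_) key
  congr 1
  let G : ℕ → ZMod X → ℝ := fun p m => s * (((p : ℝ) * (if p ∣ m.val then 1 else 0) - 1) *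
    (sgb (x m.val) * sgb (x (m + (p * h : ℕ)).val)))
  have e1 : ∀ (m : ZMod X), ∀ p ∈ Pr, ∀ j ∈ range P,
      ((p : ℝ) * (if p ∣ m.val + j then 1 else 0) - 1) *
        f p j (m.val % M, blk (Equiv.addRight (1 : ZMod X)) (fun m => x m.val) ((h + 1) * P) m) =
      G p (m + j) := by
    intro m p hp j hj
    have hpX : p ∣ X := ((dvd_prod_of_mem _ hp).trans (dvd_mul_left _ _)).trans hM
    have a1 : p ∣ m.val + j ↔ p ∣ (m + j).val := by
      rw [Nat.dvd_iff_mod_eq_zero, Nat.dvd_iff_mod_eq_zero, val_add_modEq X p hpX m j]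
    have hj' := mem_range.1 hj
    have c1 : j + p * h < (h + 1) * P := by
      have := Nat.mul_le_mul_right h (hsz p hp).1
      nlinarith
    have c2 : j < (h + 1) * P := by omega
    simp only [f, G, a1, ext, dif_pos c1, dif_pos c2, blk, pow_shift]
    push_cast
    rw [add_assoc]
    ring
  rw [sum_congr rfl fun m _ => sum_congr rfl fun p hp => by
    rw [sum_congr rfl fun j hj => e1 m p hp j hj], sum_comm, mul_sum]
  refine sum_congr rfl fun p _ => ?_
  rw [← mul_sum, sum_comm]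
  have a2 : ∀ j ∈ range P, ∑ m : ZMod X, G p (m + j) = ∑ m : ZMod X, G p m := fun j _ =>
    Equiv.sum_comp (Equiv.addRight (j : ZMod X)) (G p)
  rw [sum_congr rfl a2, sum_const, card_range, nsmul_eq_mul, ← mul_assoc, one_div_mul_cancel hP'.ne',
    one_mul, Zc, mul_sum, ← sum_val X]
  refine sum_congr rfl fun m _ => ?_
  have : (m + (p * h : ℕ)).val = (m.val + p * h) % X := by
    conv_lhs => rw [← ZMod.natCast_zmod_val m, ← Nat.cast_add, ZMod.val_natCast]
  simp only [G, this]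

/-- product of the primes up to `2^n` -/
def QQ (n : ℕ) : ℕ := ∏ i ∈ range n, ∏ p ∈ prs i, p

theorem mem_prs {i p : ℕ} (hp : p ∈ prs i) : p.Prime ∧ 2 ^ i < p ∧ p ≤ 2 ^ (i + 1) := by
  obtain ⟨h1, h2⟩ := mem_filter.1 hp
  exact ⟨h2, mem_Ioc.1 h1⟩

theorem QQ_pos (n : ℕ) : 0 < QQ n := prod_pos fun _ _ => prod_pos fun _ hp => (mem_prs hp).1.pos

theorem dvd_QQ {i I p : ℕ} (hi : i < I) (hp : p ∈ prs i) : p ∣ QQ I :=
  (dvd_prod_of_mem (fun p => p) hp).trans
    (dvd_prod_of_mem (fun i => ∏ p ∈ prs i, p) (mem_range.2 hi))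

theorem ent_all (X I : ℕ) (hX : 0 < X) (hI : QQ I ∣ X) (x : ℕ → Bool) (h : ℕ)
    (s : ℝ) (hs : |s| ≤ 1) (lam : ℝ) (h0 : 0 ≤ lam) (h1 : 4 * lam ≤ 1) :
    lam * (s * ∑ i ∈ range I, 1 / 2 ^ i * ∑ p ∈ prs i, Zc x h p X / X) ≤
      2 * (h + 1) + 16 * lam ^ 2 * ∑ i ∈ range I, ((prs i).card : ℝ) / 2 ^ i := by
  haveI : NeZero X := ⟨hX.ne'⟩
  have hX' : (0 : ℝ) < X := by exact_mod_cast hX
  have hQd : ∀ i n, i ≤ n → QQ i ∣ QQ n := fun i n h =>
    prod_dvd_prod_of_subset _ _ _ (range_mono h)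
  have hQs : ∀ i, QQ (i + 1) = QQ i * ∏ p ∈ prs i, p := fun i => prod_range_succ _ _
  let M : ℕ → ℕ := fun i => QQ (min i I)
  have hMX : ∀ i, M i ∣ X := fun i => (hQd _ _ (min_le_right _ _)).trans hI
  have hMs : ∀ i, i < I → M (i + 1) = M i * ∏ p ∈ prs i, p := by
    intro i hi
    simp only [M]
    rw [min_eq_left hi, min_eq_left hi.le, hQs]
  have hcM : ∀ i, i < I → ∀ p ∈ prs i, Nat.Coprime (M i) p := by
    intro i hi p hp
    simp only [M]
    rw [min_eq_left hi.le]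
    refine Nat.Coprime.prod_left fun i' hi' => Nat.Coprime.prod_left fun p' hp' => ?_
    refine (Nat.coprime_primes (mem_prs hp').1 (mem_prs hp).1).2 ?_
    have a1 := (mem_prs hp').2.2
    have a2 := (mem_prs hp).2.1
    have a3 : 2 ^ (i' + 1) ≤ 2 ^ i := Nat.pow_le_pow_right (by norm_num) (mem_range.1 hi')
    omega
  have hsz : ∀ i, ∀ p ∈ prs i, p ≤ 2 ^ (i + 1) ∧ 2 ^ (i + 1) < 2 * p := by
    intro i p hp
    have := (mem_prs hp).2
    rw [pow_succ] at this ⊢
    omega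
  let D : ℕ → ℝ := fun i =>
    CH (blk (Equiv.addRight (1 : ZMod X)) (fun m => x m.val) ((h + 1) * 2 ^ (i + 1)))
        (fun m => m.val % M i) -
      CH (blk (Equiv.addRight (1 : ZMod X)) (fun m => x m.val) ((h + 1) * 2 ^ (i + 1)))
        (fun m => m.val % M (i + 1))
  have hdec : ∑ i ∈ range I, D i / (2 * (h + 1) * 2 ^ i) ≤ X * Real.log (Fintype.card Bool) := by
    have := decrement (Equiv.addRight (1 : ZMod X)) (fun m => x m.val) (fun i m => m.val % M i)
      (fun i m m' => cov X (M i) (hMX i) m m') (2 * (h + 1)) (by positivity) I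
    rw [ZMod.card] at this
    refine le_trans (le_of_eq (sum_congr rfl fun i _ => ?_)) this
    have e : 2 * (h + 1) * 2 ^ i = (h + 1) * 2 ^ (i + 1) := by ring
    simp only [D]
    rw [e]
    push_cast
    rfl
  have hone : ∀ i ∈ range I, lam * (s * (1 / 2 ^ i * ∑ p ∈ prs i, Zc x h p X / X)) ≤
      2 * (h + 1) / X * (D i / (2 * (h + 1) * 2 ^ i)) +
        16 * lam ^ 2 * (((prs i).card : ℝ) / 2 ^ i) := by
    intro i hi
    have hi' := mem_range.1 hi
    have := ent_one X x (M i) (prs i) (2 ^ (i + 1)) h (by rw [← hMs i hi']; exact hMX _)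
      (fun p hp => (mem_prs hp).1) (hcM i hi') (hsz i) (by positivity) s hs lam h0 h1
    rw [← hMs i hi'] at this
    change _ ≤ D i + _ at this
    rw [← sum_div]
    calc _ = 1 / (2 ^ i * X) * (lam * (s * ∑ p ∈ prs i, Zc x h p X)) := by field_simp
      _ ≤ 1 / (2 ^ i * X) * (D i + X * ((prs i).card * (4 * lam) ^ 2)) := by gcongr
      _ = _ := by field_simp; ring
  rw [mul_sum, mul_sum]
  refine (sum_le_sum hone).trans ?_
  rw [sum_add_distrib, ← mul_sum, ← mul_sum]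
  have h2 : Real.log (Fintype.card Bool) ≤ 1 := by
    have := Real.log_two_lt_d9
    simp only [Fintype.card_bool, Nat.cast_ofNat]
    linarith
  have h3 : 2 * ((h : ℝ) + 1) / X * ∑ i ∈ range I, D i / (2 * (h + 1) * 2 ^ i) ≤
      2 * (h + 1) / X * (X * 1) := by
    gcongr
    exact hdec.trans (by gcongr)
  have h4 : 2 * ((h : ℝ) + 1) / X * (X * 1) = 2 * (h + 1) := by field_simp
  linarith

/-- two-point product -/
def pr2 (f : ℕ → ℤ) (d n : ℕ) : ℝ := (f n : ℝ) * f (n + d)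

theorem CM.abs_le' {f : ℕ → ℤ} (hf : CM f) (n : ℕ) : |(f n : ℝ)| ≤ 1 := by
  exact_mod_cast hf.abs_le n

theorem abs_pr2 {f : ℕ → ℤ} (hf : CM f) (d n : ℕ) : |pr2 f d n| ≤ 1 := by
  rw [pr2, abs_mul]
  exact mul_le_one₀ (hf.abs_le' _) (abs_nonneg _) (hf.abs_le' _)

theorem Zc_approx {f : ℕ → ℤ} (hf : CM f) (h : ℕ) {p K : ℕ} (hp : 0 < p) (hK : 0 < K) :
    |Zc (fun n => decide (f n = 1)) h p (p * K) / (p * K : ℕ) -
      (Ces (pr2 f h) K - Ces (pr2 f (p * h)) (p * K))| ≤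
      (p + 1) * (2 * (p * h + 1)) / (p * K : ℕ) := by
  have hp' : (0 : ℝ) < p := by exact_mod_cast hp
  have hK' : (0 : ℝ) < K := by exact_mod_cast hK
  have hsg : ∀ n, n ≠ 0 → sgb (decide (f n = 1)) = f n := by
    intro n hn
    rcases hf.sgn n hn with h | h <;> simp [h, sgb]
  have e1 : ∑ k ∈ range (p * K), (if p ∣ k then 1 else 0) * pr2 f (p * h) k =
      ∑ j ∈ range K, pr2 f h j := by
    simp only [ite_mul, one_mul, zero_mul]
    rw [← sum_filter]
    symm
    refine sum_bij (fun j _ => p * j) ?_ ?_ ?_ ?_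
    · intro j hj
      exact mem_filter.2 ⟨mem_range.2 (Nat.mul_lt_mul_of_pos_left (mem_range.1 hj) hp),
        dvd_mul_right _ _⟩
    · intro j _ j' _ h
      exact Nat.eq_of_mul_eq_mul_left hp h
    · intro k hk
      obtain ⟨h1, j, rfl⟩ := mem_filter.1 hk
      exact ⟨j, mem_range.2 (Nat.lt_of_mul_lt_mul_left (mem_range.1 h1)), rfl⟩
    · intro j _
      have : (f p : ℝ) * f p = 1 := by exact_mod_cast hf.sq hp.ne'
      simp only [pr2, ← mul_add, hf.mul]
      push_cast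
      linear_combination (-(f j : ℝ) * f (j + h)) * this
  have e2 : Ces (pr2 f h) K - Ces (pr2 f (p * h)) (p * K) =
      (∑ k ∈ range (p * K), ((p : ℝ) * (if p ∣ k then 1 else 0) - 1) * pr2 f (p * h) k) /
        (p * K : ℕ) := by
    simp only [sub_mul, sum_sub_distrib, one_mul, mul_assoc, ← mul_sum, e1, Ces]
    push_cast
    field_simp
  rw [e2, ← sub_div, abs_div, Nat.abs_cast, Zc, ← sum_sub_distrib]
  refine div_le_div_of_nonneg_right ((abs_sum_le_sum_abs _ _).trans ?_) (by positivity)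
  have e3 : ∀ k ∈ range (p * K), |((p : ℝ) * (if p ∣ k then 1 else 0) - 1) *
      (sgb (decide (f k = 1)) * sgb (decide (f ((k + p * h) % (p * K)) = 1))) -
      ((p : ℝ) * (if p ∣ k then 1 else 0) - 1) * pr2 f (p * h) k| ≤
      (p + 1) * (2 * if k = 0 ∨ p * K ≤ k + p * h then 1 else 0) := by
    intro k _
    rw [← mul_sub, abs_mul]
    refine mul_le_mul ?_ ?_ (abs_nonneg _) (by positivity)
    · split_ifs
      · rw [abs_le]; constructor <;> linarith
      · simp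
    · split_ifs with hc
      · refine (abs_sub _ _).trans ?_
        rw [abs_mul, abs_sgb, abs_sgb]
        linarith [abs_pr2 hf (p * h) k]
      · push Not at hc
        rw [Nat.mod_eq_of_lt hc.2, hsg _ hc.1, hsg _ (by omega), pr2]
        simp
  refine (sum_le_sum e3).trans ?_
  rw [← mul_sum, ← mul_sum, sum_boole]
  gcongr
  have : ((range (p * K)).filter (fun k => k = 0 ∨ p * K ≤ k + p * h)).card ≤ p * h + 1 := by
    refine (card_le_card (t := insert 0 (Ico (p * K - p * h) (p * K))) fun k hk => ?_).trans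
      ((card_insert_le _ _).trans ?_)
    · obtain ⟨d1, d2⟩ := mem_filter.1 hk
      rw [mem_range] at d1
      rw [mem_insert, mem_Ico]
      omega
    · rw [Nat.card_Ico]; omega
  exact_mod_cast this

theorem ent_mean {M : (ℕ → ℝ) →ₗ[ℝ] ℝ} (hM : IsM M) {f : ℕ → ℤ} (hf : CM f) (h I : ℕ)
    (s : ℝ) (hs : |s| ≤ 1) (lam : ℝ) (h0 : 0 < lam) (h1 : 4 * lam ≤ 1) :
    lam * (s * ∑ i ∈ range I, 1 / 2 ^ i * ∑ p ∈ prs i, (M (pr2 f h) - M (pr2 f (p * h)))) ≤
      2 * (h + 1) + 16 * lam ^ 2 * ∑ i ∈ range I, ((prs i).card : ℝ) / 2 ^ i := by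
  set x : ℕ → Bool := fun n => decide (f n = 1) with hx
  have bZ : ∀ p, Bd (fun t => Zc x h p (QQ I * t) / (QQ I * t : ℕ)) := fun p => by
    refine ⟨p + 1, fun t => ?_⟩
    dsimp only
    rw [abs_div, Nat.abs_cast]
    refine div_le_of_le_mul₀ (by positivity) (by positivity) ((abs_sum_le_sum_abs _ _).trans ?_)
    refine (sum_le_card_nsmul _ _ ((p : ℝ) + 1) fun k _ => ?_).trans
      (by rw [card_range, nsmul_eq_mul, mul_comm])
    rw [abs_mul, abs_mul, abs_sgb, abs_sgb, mul_one, mul_one]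
    have : (0 : ℝ) ≤ p := by positivity
    split_ifs
    · rw [abs_le]; constructor <;> linarith
    · simp
  have e : ∀ i ∈ range I, ∀ p ∈ prs i, M (pr2 f h) - M (pr2 f (p * h)) =
      M (fun t => Zc x h p (QQ I * t) / (QQ I * t : ℕ)) := by
    intro i hi p hp
    obtain ⟨d, hd⟩ := dvd_QQ (mem_range.1 hi) hp
    have hp0 := (mem_prs hp).1.pos
    have hd0 : 0 < d := Nat.pos_of_mul_pos_left (hd ▸ QQ_pos I)
    have b1 : ∀ k, Bd (pr2 f k) := fun k => ⟨1, abs_pr2 hf k⟩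
    rw [← hM.ces (b1 h) hd0, ← hM.ces (b1 (p * h)) (QQ_pos I), ← IsM.sub]
    symm
    refine hM.congr_lim (bZ p) (((b1 h).ces.comp _).sub ((b1 _).ces.comp _)) ?_
    refine squeeze_zero_norm' ?_
      (tendsto_const_div_atTop_nhds_zero_nat ((p + 1) * (2 * (p * h + 1)) : ℝ))
    filter_upwards [eventually_gt_atTop 0] with t ht
    have := Zc_approx hf h hp0 (Nat.mul_pos hd0 ht)
    rw [← mul_assoc p d t, ← hd] at this
    refine this.trans (div_le_div_of_nonneg_left (by positivity) (by exact_mod_cast ht) ?_)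
    exact_mod_cast Nat.le_mul_of_pos_left t (QQ_pos I)
  rw [sum_congr rfl fun i hi => by rw [sum_congr rfl (e i hi)]]
  simp only [← IsM.sum, ← IsM.mul]
  refine hM.le_ev ((Bd.const _).mul ((Bd.const _).mul (Bd.sum _ fun i _ =>
    (Bd.const _).mul (Bd.sum _ fun p _ => bZ p)))) ?_
  filter_upwards [eventually_gt_atTop 0] with t ht
  exact ent_all _ I (Nat.mul_pos (QQ_pos I) ht) (dvd_mul_right _ _) x h s hs lam h0.le h1

end Pool.Agent.H266Z.Leh
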