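import Pool.Agent.H266Z.Leh.Mean
import Pool.Agent.H970R2.X.Rap
import Pool.Agent.H970R2.X.Apl

/-! A mean-square argument: a nonzero approximately multiplicative orbit forces the signs to
pretend to be a real character. -/

set_option autoImplicit false

namespace Pool.Agent.H266Z.Leh

open Finset Filter Topology Pool.Agent.H376R2.MR Pool.Agent.H970R2.X

/-- families of bounded Lipschitz functions -/
structure BL (ι : Type) where
  f : ι → ℝ → ℝ
  bl : ∃ B L : ℝ, (∀ i u, |f i u| ≤ B) ∧ ∀ i u v, |f i u - f i v| ≤ L * |u - v|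

namespace BL

variable {ι : Type}

def sh (t : ℝ) (α : BL ι) : BL ι where
  f := fun i u => α.f i (u - t)
  bl := by
    obtain ⟨B, L, h1, h2⟩ := α.bl
    exact ⟨B, L, fun i u => h1 _ _, fun i u v => by simpa using h2 i (u - t) (v - t)⟩

def pm (σ : ι → ι) (α : BL ι) : BL ι where
  f := fun i u => α.f (σ i) u
  bl := by
    obtain ⟨B, L, h1, h2⟩ := α.bl
    exact ⟨B, L, fun i u => h1 _ _, fun i u v => h2 _ _ _⟩

def sm (c : ℝ) (α : BL ι) : BL ι where
  f := fun i u => c * α.f i u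
  bl := by
    obtain ⟨B, L, h1, h2⟩ := α.bl
    refine ⟨|c| * B, |c| * L, fun i u => ?_, fun i u v => ?_⟩
    · rw [abs_mul]; exact mul_le_mul_of_nonneg_left (h1 _ _) (abs_nonneg _)
    · rw [← mul_sub, abs_mul, mul_assoc]
      exact mul_le_mul_of_nonneg_left (h2 _ _ _) (abs_nonneg _)

theorem bd (α : BL ι) (i : ι) : Bd (fun n : ℕ => α.f i (Real.log n)) := by
  obtain ⟨B, L, h1, -⟩ := α.bl
  exact ⟨B, fun n => h1 _ _⟩

variable [Fintype ι] {M : (ℕ → ℝ) →ₗ[ℝ] ℝ}

/-- inner product -/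
noncomputable def IP (M : (ℕ → ℝ) →ₗ[ℝ] ℝ) (α β : BL ι) : ℝ :=
  M (fun n => ∑ i, α.f i (Real.log n) * β.f i (Real.log n))

/-- squared distance -/
noncomputable def D (M : (ℕ → ℝ) →ₗ[ℝ] ℝ) (α β : BL ι) : ℝ :=
  M (fun n => ∑ i, (α.f i (Real.log n) - β.f i (Real.log n)) ^ 2)

theorem bdD (α β : BL ι) : Bd (fun n : ℕ => ∑ i, (α.f i (Real.log n) - β.f i (Real.log n)) ^ 2) :=
  Bd.sum _ fun i _ => ((α.bd i).sub (β.bd i)).sq

theorem bdIP (α β : BL ι) : Bd (fun n : ℕ => ∑ i, α.f i (Real.log n) * β.f i (Real.log n)) :=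
  Bd.sum _ fun i _ => (α.bd i).mul (β.bd i)

theorem D_eq (α β : BL ι) : D M α β = IP M α α + IP M β β - 2 * IP M α β := by
  unfold D IP
  rw [← IsM.add, ← IsM.mul, ← IsM.sub]
  congr 1
  ext n
  rw [mul_sum, ← sum_add_distrib, ← sum_sub_distrib]
  exact sum_congr rfl fun i _ => by ring

theorem D_nonneg (h : IsM M) (α β : BL ι) : 0 ≤ D M α β :=
  h.pos _ (bdD α β) fun _ => sum_nonneg fun _ _ => sq_nonneg _

theorem D_comm (α β : BL ι) : D M α β = D M β α := by
  unfold D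
  congr 1
  ext n
  exact sum_congr rfl fun i _ => by ring

theorem D_tri (h : IsM M) (α β γ : BL ι) : D M α γ ≤ 2 * D M α β + 2 * D M β γ := by
  unfold D
  rw [← IsM.mul, ← IsM.mul, ← IsM.add]
  refine h.mono (bdD α γ) (((Bd.const 2).mul (bdD α β)).add ((Bd.const 2).mul (bdD β γ)))
    fun n => ?_
  rw [mul_sum, mul_sum, ← sum_add_distrib]
  refine sum_le_sum fun i _ => ?_
  nlinarith [sq_nonneg (α.f i (Real.log n) - 2 * β.f i (Real.log n) + γ.f i (Real.log n))]

theorem IP_sh (h : IsM M) (α β : BL ι) {d : ℕ} (hd : 0 < d) :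
    IP M (α.sh (Real.log d)) (β.sh (Real.log d)) = IP M α β := by
  unfold IP
  rw [IsM.sum, IsM.sum]
  refine sum_congr rfl fun i _ => ?_
  obtain ⟨B, L, h1, h2⟩ := α.bl
  obtain ⟨B', L', h1', h2'⟩ := β.bl
  have hB : 0 ≤ B := (abs_nonneg _).trans (h1 i 0)
  have hB' : 0 ≤ B' := (abs_nonneg _).trans (h1' i 0)
  refine h.dil (φ := fun u => α.f i u * β.f i u) (B := B * B') (L := B * L' + B' * L)
    (fun u => ?_) (fun u v => ?_) hd
  · rw [abs_mul]; exact mul_le_mul (h1 _ _) (h1' _ _) (abs_nonneg _) hB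
  · have e : α.f i u * β.f i u - α.f i v * β.f i v =
        α.f i u * (β.f i u - β.f i v) + β.f i v * (α.f i u - α.f i v) := by ring
    rw [e]
    refine (abs_add_le _ _).trans ?_
    rw [abs_mul, abs_mul, add_mul, mul_assoc, mul_assoc]
    exact add_le_add (mul_le_mul (h1 _ _) (h2' _ _ _) (abs_nonneg _) hB)
      (mul_le_mul (h1' _ _) (h2 _ _ _) (abs_nonneg _) hB')

theorem D_sh (h : IsM M) (α β : BL ι) {d : ℕ} (hd : 0 < d) :
    D M (α.sh (Real.log d)) (β.sh (Real.log d)) = D M α β := by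
  rw [D_eq, D_eq, IP_sh h _ _ hd, IP_sh h _ _ hd, IP_sh h _ _ hd]

theorem IP_pm (α β : BL ι) {σ : ι → ι} (hσ : Function.Bijective σ) :
    IP M (α.pm σ) (β.pm σ) = IP M α β := by
  unfold IP
  congr 1
  ext n
  exact hσ.sum_comp (fun i => α.f i (Real.log n) * β.f i (Real.log n))

theorem D_pm (α β : BL ι) {σ : ι → ι} (hσ : Function.Bijective σ) :
    D M (α.pm σ) (β.pm σ) = D M α β := by
  rw [D_eq, D_eq, IP_pm _ _ hσ, IP_pm _ _ hσ, IP_pm _ _ hσ]

theorem IP_sm (α β : BL ι) (c d : ℝ) : IP M (α.sm c) (β.sm d) = c * d * IP M α β := by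
  unfold IP
  rw [← IsM.mul]
  congr 1
  ext n
  rw [mul_sum]
  exact sum_congr rfl fun i _ => by simp only [sm]; ring

omit [Fintype ι] in
theorem sm_one (α : BL ι) : α.sm 1 = α := by
  cases α; simp [sm]

theorem IP_sm' (α β : BL ι) (d : ℝ) : IP M α (β.sm d) = d * IP M α β := by
  have := IP_sm (M := M) α β 1 d
  rwa [sm_one, one_mul] at this

theorem D_sm (α β : BL ι) {c : ℝ} (hc : c * c = 1) : D M (α.sm c) (β.sm c) = D M α β := by
  rw [D_eq, D_eq, IP_sm, IP_sm, IP_sm, hc]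
  ring

theorem IP_lip (h : IsM M) (α : BL ι) : ∃ L : ℝ, 0 < L ∧ ∀ s t,
    |IP M α (α.sh s) - IP M α (α.sh t)| ≤ L * |s - t| := by
  obtain ⟨B, L, h1, h2⟩ := α.bl
  refine ⟨Fintype.card ι * (|B| * |L|) + 1, by positivity, fun s t => ?_⟩
  unfold IP
  rw [← IsM.sub]
  refine h.abs_le_ev ((bdIP _ _).sub (bdIP _ _)) (Eventually.of_forall fun n => ?_)
  rw [← sum_sub_distrib]
  refine (abs_sum_le_sum_abs _ _).trans ?_
  have : ∀ i ∈ (univ : Finset ι), |α.f i (Real.log n) * (α.sh s).f i (Real.log n) -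
      α.f i (Real.log n) * (α.sh t).f i (Real.log n)| ≤ |B| * |L| * |s - t| := by
    intro i _
    rw [← mul_sub, abs_mul, mul_assoc]
    refine mul_le_mul ((h1 _ _).trans (le_abs_self _)) ?_ (abs_nonneg _) (abs_nonneg _)
    refine (h2 _ _ _).trans ?_
    rw [show Real.log n - s - (Real.log n - t) = -(s - t) by ring, abs_neg]
    exact mul_le_mul_of_nonneg_right (le_abs_self _) (abs_nonneg _)
  refine (sum_le_sum this).trans ?_
  rw [sum_const, card_univ, nsmul_eq_mul]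
  nlinarith [abs_nonneg (s - t)]

end BL

open BL

/-- `f` pretends to be a real character -/
def Pret (f : ℕ → ℤ) : Prop :=
  ∃ (q : ℕ) (ψ : ℕ → ℤ), 0 < q ∧ (∀ n, ψ n = 1 ∨ ψ n = -1) ∧
    (∀ m n, Nat.Coprime m q → Nat.Coprime n q → ψ (m * n) = ψ m * ψ n) ∧
    (∀ n, n ≡ 1 [MOD q] → ψ n = 1) ∧
    Summable (fun p : ℕ => if p.Prime ∧ f p ≠ ψ p then 1 / (p : ℝ) else 0)

theorem summable_of_bd (P : ℕ → Prop) [DecidablePred P] (C : ℝ)
    (h : ∀ S : Finset ℕ, (∀ p ∈ S, P p) → ∑ p ∈ S, 1 / (p : ℝ) ≤ C) :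
    Summable (fun p : ℕ => if P p then 1 / (p : ℝ) else 0) := by
  refine summable_of_sum_le (c := C) (fun p => ?_) fun u => ?_
  · dsimp only
    split_ifs <;> positivity
  · rw [← sum_filter]
    exact h _ fun p hp => (mem_filter.1 hp).2

theorem not_summable_class {q r : ℕ} (hq : 0 < q) (hr : Nat.Coprime r q) :
    ¬ Summable (fun p : ℕ => if p.Prime ∧ p ≡ r [MOD q] then 1 / (p : ℝ) else 0) := by
  intro hs
  obtain ⟨x₀, hx⟩ := apl q hq
  set x := max x₀ 3 with hxd
  have hx3 : (3 : ℝ) ≤ x := le_max_right _ _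
  have hl : 0 < Real.log x := Real.log_pos (by linarith)
  have hφ : (0 : ℝ) < 1 / (4 * (Nat.totient q : ℝ)) := by
    have : (0 : ℝ) < Nat.totient q := by exact_mod_cast Nat.totient_pos.2 hq
    positivity
  have ht : Tendsto (fun y : ℝ => 1 / (4 * (Nat.totient q : ℝ)) *
      Real.log (Real.log y / Real.log x) - 1) atTop atTop :=
    tendsto_atTop_add_const_right _ (-1)
      ((Real.tendsto_log_atTop.comp (Real.tendsto_log_atTop.atTop_div_const hl)).const_mul_atTop hφ)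
  obtain ⟨y, hy1, hy2⟩ := ((ht.eventually_gt_atTop
    (∑' p : ℕ, if p.Prime ∧ p ≡ r [MOD q] then 1 / (p : ℝ) else 0)).and
    (eventually_ge_atTop x)).exists
  have h1 := hx r x y hr (le_max_left _ _) hy2
  have h2 := hs.sum_le_tsum ((Icc 1 ⌊y⌋₊).filter
    (fun p : ℕ => p.Prime ∧ x < (p : ℝ) ∧ p % q = r % q)) (fun p _ => by
      split_ifs <;> positivity)
  have h3 : ∑ p ∈ (Icc 1 ⌊y⌋₊).filter (fun p : ℕ => p.Prime ∧ x < (p : ℝ) ∧ p % q = r % q),
      (if p.Prime ∧ p ≡ r [MOD q] then 1 / (p : ℝ) else 0) =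
      ∑ p ∈ (Icc 1 ⌊y⌋₊).filter (fun p : ℕ => p.Prime ∧ x < (p : ℝ) ∧ p % q = r % q),
      1 / (p : ℝ) := sum_congr rfl fun p hp => by
    have := (mem_filter.1 hp).2
    exact if_pos ⟨this.1, this.2.2⟩
  linarith

section

variable {ι : Type} [Fintype ι] {M : (ℕ → ℝ) →ₗ[ℝ] ℝ}

/-- the Turan-Kubilius relation -/
def TKr (q : ℕ) (f : ℕ → ℤ) (σ : ℕ → ι → ι) (T : BL ι) : Prop :=
  ∃ C : ℝ, ∀ (r : ℕ) (S : Finset ℕ), Nat.Coprime r q → (∀ p ∈ S, p.Prime ∧ p ≡ r [MOD q]) →
    1 ≤ ∑ p ∈ S, 1 / (p : ℝ) → ∀ᶠ n : ℕ in atTop, ∀ i,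
      |(∑ p ∈ S, 1 / (p : ℝ)) * T.f (σ r i) (Real.log n) -
        ∑ p ∈ S, (f p : ℝ) / p * T.f i (Real.log n - Real.log p)| ≤
        C * Real.sqrt (∑ p ∈ S, 1 / (p : ℝ))

theorem bad_summable (h : IsM M) {q : ℕ} {f : ℕ → ℤ} {σ : ℕ → ι → ι} {T : BL ι}
    (hf : ∀ p, p.Prime → f p = 1 ∨ f p = -1) (hT : TKr q f σ T) {r : ℕ} (hr : Nat.Coprime r q)
    (hσ : Function.Bijective (σ r)) {δ : ℝ} (hδ : 0 < δ) :
    (open scoped Classical in Summable (fun p : ℕ => if p.Prime ∧ p ≡ r [MOD q] ∧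
      δ ≤ D M (T.pm (σ r)) ((T.sh (Real.log p)).sm (f p)) then 1 / (p : ℝ) else 0)) := by
  classical
  obtain ⟨C, hC⟩ := hT
  obtain ⟨B, L, h1, -⟩ := T.bl
  set K := 2 * (Fintype.card ι * (B * C)) with hK
  refine summable_of_bd _ (max 1 ((K / δ) ^ 2)) fun S hS => ?_
  set W := ∑ p ∈ S, 1 / (p : ℝ) with hW
  by_cases hW1 : W ≤ 1
  · exact hW1.trans (le_max_left _ _)
  have hW1' : 1 ≤ W := (not_le.1 hW1).le
  refine le_trans ?_ (le_max_right _ _)
  have e1 : ∑ p ∈ S, 1 / (p : ℝ) * D M (T.pm (σ r)) ((T.sh (Real.log p)).sm (f p)) =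
      2 * M (fun n => ∑ i, T.f (σ r i) (Real.log n) * (W * T.f (σ r i) (Real.log n) -
        ∑ p ∈ S, (f p : ℝ) / p * T.f i (Real.log n - Real.log p))) := by
    have a1 : ∀ p ∈ S, 1 / (p : ℝ) * D M (T.pm (σ r)) ((T.sh (Real.log p)).sm (f p)) =
        2 * (1 / (p : ℝ) * IP M (T.pm (σ r)) (T.pm (σ r)) -
          (f p : ℝ) / p * IP M (T.pm (σ r)) (T.sh (Real.log p))) := by
      intro p hp
      have hp1 := (hS p hp).1
      have : (f p : ℝ) * f p = 1 := by rcases hf p hp1 with h | h <;> simp [h]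
      rw [D_eq, IP_sm, IP_sm', IP_sh h _ _ hp1.pos, IP_pm _ _ hσ, this]
      ring
    rw [sum_congr rfl a1, ← mul_sum, sum_sub_distrib, ← sum_mul, ← hW]
    congr 1
    unfold IP
    simp only [← IsM.mul, ← IsM.sum, ← IsM.sub]
    congr 1
    ext n
    simp only [pm, sh, mul_sub, sum_sub_distrib, mul_sum]
    rw [sum_comm]
    congr 1
    · exact sum_congr rfl fun i _ => by ring
    · exact sum_congr rfl fun i _ => sum_congr rfl fun p _ => by ring
  have e2 : M (fun n => ∑ i, T.f (σ r i) (Real.log n) * (W * T.f (σ r i) (Real.log n) -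
        ∑ p ∈ S, (f p : ℝ) / p * T.f i (Real.log n - Real.log p))) ≤
      Fintype.card ι * (B * (C * Real.sqrt W)) := by
    refine h.le_ev (Bd.sum _ fun i _ => (T.bd _).mul (((Bd.const W).mul (T.bd _)).sub
      (Bd.sum _ fun (p : ℕ) _ => (Bd.const _).mul ((T.sh (Real.log p)).bd i)))) ?_
    filter_upwards [hC r S hr (fun p hp => ⟨(hS p hp).1, (hS p hp).2.1⟩) hW1'] with n hn
    rw [← card_univ, ← nsmul_eq_mul, ← sum_const]
    refine sum_le_sum fun i _ => (le_abs_self _).trans ?_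
    rw [abs_mul]
    exact mul_le_mul (h1 _ _) (hn i) (abs_nonneg _) ((abs_nonneg _).trans (h1 i 0))
  have e3 : δ * W ≤ ∑ p ∈ S, 1 / (p : ℝ) * D M (T.pm (σ r)) ((T.sh (Real.log p)).sm (f p)) := by
    rw [hW, mul_sum]
    refine sum_le_sum fun p hp => ?_
    rw [mul_comm]
    exact mul_le_mul_of_nonneg_left (hS p hp).2.2 (by positivity)
  have hs : 0 < Real.sqrt W := Real.sqrt_pos.2 (by linarith)
  have hss : Real.sqrt W * Real.sqrt W = W := Real.mul_self_sqrt (by linarith)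
  have e4 : δ * Real.sqrt W * Real.sqrt W ≤ K * Real.sqrt W := by
    rw [mul_assoc, hss, hK]; linarith
  have e5 : Real.sqrt W ≤ K / δ := by
    rw [le_div_iff₀ hδ, mul_comm]
    exact le_of_mul_le_mul_right e4 hs
  calc W = Real.sqrt W ^ 2 := by rw [pow_two, hss]
    _ ≤ _ := by gcongr

omit [Fintype ι] in
theorem sh_sh (T : BL ι) (s t : ℝ) : (T.sh s).sh t = T.sh (t + s) := by
  cases T
  simp only [sh, sub_sub]

theorem dil_inv (h : IsM M) {q : ℕ} (hq : 0 < q) {f : ℕ → ℤ} {σ : ℕ → ι → ι} {T : BL ι}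
    (hf : ∀ p, p.Prime → f p = 1 ∨ f p = -1) (hT : TKr q f σ T) (hσ : σ 1 = id)
    (hN : 0 < IP M T T) {d : ℕ} (hd : 2 ≤ d) : D M T (T.sh (Real.log d)) = 0 := by
  classical
  by_contra hne
  have hγ : 0 < D M T (T.sh (Real.log d)) := lt_of_le_of_ne (D_nonneg h _ _) (Ne.symm hne)
  set N := IP M T T with hNd
  set γ := D M T (T.sh (Real.log d)) with hγd
  set κ := min N (γ / 8) with hκd
  have hκ : 0 < κ := lt_min hN (by linarith)
  have hκN : κ ≤ N := min_le_left _ _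
  have hκγ : κ ≤ γ / 8 := min_le_right _ _
  obtain ⟨L, hL, hΦ⟩ := IP_lip h T
  set Φ : ℝ → ℝ := fun t => IP M T (T.sh t) with hΦd
  have hΦc : Continuous Φ := by
    refine (LipschitzWith.of_dist_le' (K := L) fun s t => ?_).continuous
    rw [Real.dist_eq, Real.dist_eq]; exact hΦ s t
  have hd' : (2 : ℝ) ≤ d := by exact_mod_cast hd
  have hld : 1 / 2 < Real.log d := by
    have := Real.log_two_gt_d9
    have := Real.log_le_log (by norm_num) hd'
    linarith
  have hDs : ∀ (n : ℕ) (s : ℝ), 0 < n → s * s = 1 →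
      D M T ((T.sh (Real.log n)).sm s) = 2 * N - 2 * (s * Φ (Real.log n)) := by
    intro n s hn hs
    rw [D_eq, IP_sm, IP_sm', IP_sh h _ _ hn, hs]
    ring
  have step1 : ∀ n : ℕ, 0 < n → ∃ t, Real.log n ≤ t ∧ t ≤ Real.log n + Real.log d ∧
      |Φ t| ≤ N - κ := by
    intro n hn
    by_contra hcon
    push Not at hcon
    have hn' : (0 : ℝ) < n := by exact_mod_cast hn
    have hle : Real.log n ≤ Real.log n + Real.log d := by linarith
    have e : Real.log (n * d : ℕ) = Real.log n + Real.log d := by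
      push_cast; exact Real.log_mul hn'.ne' (by linarith)
    have a1 := hcon _ le_rfl hle
    have a2 := hcon _ hle le_rfl
    have hz : ∀ t ∈ Set.Icc (Real.log n) (Real.log n + Real.log d), Φ t ≠ 0 := by
      intro t ht h0
      have := hcon t ht.1 ht.2
      rw [h0, abs_zero] at this
      linarith
    have : ∃ s : ℝ, s * s = 1 ∧ N - κ < s * Φ (Real.log n) ∧
        N - κ < s * Φ (Real.log n + Real.log d) := by
      rcases lt_abs.1 a1 with b1 | b1 <;> rcases lt_abs.1 a2 with b2 | b2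
      · exact ⟨1, by norm_num, by linarith, by linarith⟩
      · obtain ⟨t, ht, h0⟩ := intermediate_value_Icc' hle hΦc.continuousOn
          (show (0 : ℝ) ∈ Set.Icc _ _ from ⟨by linarith, by linarith⟩)
        exact absurd h0 (hz t ht)
      · obtain ⟨t, ht, h0⟩ := intermediate_value_Icc hle hΦc.continuousOn
          (show (0 : ℝ) ∈ Set.Icc _ _ from ⟨by linarith, by linarith⟩)
        exact absurd h0 (hz t ht)
      · exact ⟨-1, by norm_num, by linarith, by linarith⟩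
    obtain ⟨s, hs, b1, b2⟩ := this
    have c1 := hDs n s hn hs
    have c2 := hDs (n * d) s (Nat.mul_pos hn (by omega)) hs
    rw [e] at c2
    have c3 := D_tri h ((T.sh (Real.log n)).sm s) T ((T.sh (Real.log n + Real.log d)).sm s)
    rw [D_sm _ _ hs, ← sh_sh T (Real.log d) (Real.log n), D_sh h _ _ hn, sh_sh,
      D_comm _ T, c1, c2] at c3
    linarith
  obtain ⟨c, hc, hR⟩ := rich_ap q hq
  obtain ⟨H, hH⟩ := exists_nat_ge (max 3 (6 * L / κ))
  have hH2 : (3 : ℝ) ≤ H := (le_max_left _ _).trans hH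
  have hHL : 6 * L / κ ≤ H := (le_max_right _ _).trans hH
  have hH0 : (0 : ℝ) < H := by linarith
  have hH1 : 1 ≤ H := by exact_mod_cast (show (1 : ℝ) ≤ H by linarith)
  obtain ⟨v₀, hv₀⟩ := hR.2 H hH1
  have hsum := bad_summable h hf hT (r := 1) (Nat.coprime_one_left q)
    (by rw [hσ]; exact Function.bijective_id) hκ
  set b : ℕ → ℝ := fun p : ℕ => if p.Prime ∧ p ≡ 1 [MOD q] ∧
      κ ≤ D M (T.pm (σ 1)) ((T.sh (Real.log p)).sm (f p)) then 1 / (p : ℝ) else 0 with hb
  have hb0 : ∀ p, 0 ≤ b p := fun p => by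
    simp only [hb]
    split_ifs <;> positivity
  have hmono : ∀ j, d ^ (3 * j) ≤ d ^ (3 * (j + 1)) := fun j =>
    Nat.pow_le_pow_right (by omega) (by omega)
  have hsa : Summable (fun j => ∑ p ∈ Ico (d ^ (3 * j)) (d ^ (3 * (j + 1))), b p) := by
    refine summable_of_sum_range_le (c := ∑' p, b p) (fun j => sum_nonneg fun p _ => hb0 p)
      fun J => ?_
    have : ∑ j ∈ range J, ∑ p ∈ Ico (d ^ (3 * j)) (d ^ (3 * (j + 1))), b p =
        ∑ p ∈ Ico 1 (d ^ (3 * J)), b p := by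
      induction J with
      | zero => simp
      | succ J ih =>
        rw [sum_range_succ, ih, sum_Ico_consecutive _ (Nat.one_le_pow _ _ (by omega)) (hmono J)]
    rw [this]
    exact hsum.sum_le_tsum _ fun p _ => hb0 p
  have hlow : ∀ j : ℕ, v₀ ≤ j → c / (4 * H * Real.log d) * (1 / ((j : ℝ) + 1)) ≤
      ∑ p ∈ Ico (d ^ (3 * j)) (d ^ (3 * (j + 1))), b p := by
    intro j hj
    obtain ⟨t, t1, t2, t3⟩ := step1 (d ^ (3 * j)) (by positivity)
    rw [Nat.cast_pow, Real.log_pow] at t1 t2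
    push_cast at t1 t2
    have hj0 : (0 : ℝ) ≤ j := by positivity
    have ht0 : 0 ≤ t := le_trans (by positivity) t1
    set v := ⌈t * H⌉₊ + 1 with hv
    have v1 : t * H + 1 ≤ v := by
      rw [hv]; push_cast; linarith [Nat.le_ceil (t * H)]
    have v2 : (v : ℝ) ≤ t * H + 2 := by
      rw [hv]; push_cast; linarith [Nat.ceil_lt_add_one (show 0 ≤ t * H by positivity)]
    have hjt : (j : ℝ) ≤ t := by nlinarith
    have v3 : v₀ ≤ v := by
      have : (j : ℝ) ≤ v := by nlinarith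
      exact hj.trans (by exact_mod_cast this)
    have v4 : (v : ℝ) ≤ 4 * H * Real.log d * (j + 1) := by
      have : t * H ≤ (3 * j * Real.log d + Real.log d) * H := by gcongr
      have : (0 : ℝ) ≤ j * Real.log d * H := by positivity
      nlinarith
    have v0 : (0 : ℝ) < v := by nlinarith
    refine le_trans ?_ ((hv₀ v v3).trans ?_)
    · rw [div_mul_div_comm, mul_one]
      exact div_le_div_of_nonneg_left hc.le v0 v4
    · unfold mmp
      have hmem : ∀ p ∈ cellP (P1 q) H v, p.Prime ∧ p ≡ 1 [MOD q] ∧ t ≤ Real.log p ∧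
          Real.log p ≤ t + 3 / H := by
        intro p hp
        unfold cellP cell at hp
        simp only [mem_filter] at hp
        obtain ⟨⟨-, p1, p2, p3⟩, p4⟩ := hp
        refine ⟨p1, p4, le_trans ?_ p2, p3.le.trans ?_⟩
        · rw [le_div_iff₀ hH0]; linarith
        · rw [div_le_iff₀ hH0, add_mul, div_mul_cancel₀ _ hH0.ne']; linarith
      have hsub : cellP (P1 q) H v ⊆ Ico (d ^ (3 * j)) (d ^ (3 * (j + 1))) := by
        intro p hp
        obtain ⟨p1, -, p2, p3⟩ := hmem p hp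
        have hp0 : (0 : ℝ) < p := by exact_mod_cast p1.pos
        rw [mem_Ico]
        constructor
        · have : ((d ^ (3 * j) : ℕ) : ℝ) ≤ p := by
            rw [← Real.log_le_log_iff (by positivity) hp0, Nat.cast_pow, Real.log_pow]
            push_cast; linarith
          exact_mod_cast this
        · have : (p : ℝ) < ((d ^ (3 * (j + 1)) : ℕ) : ℝ) := by
            rw [← Real.log_lt_log_iff hp0 (by positivity), Nat.cast_pow, Real.log_pow]
            have : 3 / (H : ℝ) ≤ 1 := by rw [div_le_one hH0]; exact hH2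
            push_cast; linarith
          exact_mod_cast this
      refine le_trans (le_of_eq (sum_congr rfl fun p hp => ?_))
        (sum_le_sum_of_subset_of_nonneg hsub fun p _ _ => hb0 p)
      obtain ⟨p1, p4, p2, p3⟩ := hmem p hp
      simp only [hb]
      rw [if_pos]
      refine ⟨p1, p4, ?_⟩
      have hs : (f p : ℝ) * f p = 1 := by rcases hf p p1 with h | h <;> simp [h]
      have e0 : T.pm (σ 1) = T := by rw [hσ]; rfl
      rw [e0, hDs p _ p1.pos hs]
      have a1 : |Φ (Real.log p) - Φ t| ≤ L * |Real.log p - t| := hΦ _ _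
      rw [abs_of_nonneg (by linarith : 0 ≤ Real.log p - t)] at a1
      have a2 : L * (Real.log p - t) ≤ κ / 2 := by
        rw [div_le_iff₀ hκ] at hHL
        have b1 : L * (Real.log p - t) ≤ L * (3 / H) := by gcongr; linarith
        have b2 : L * (3 / H) ≤ κ / 2 := by
          rw [← mul_div_assoc, div_le_iff₀ hH0]; linarith
        linarith
      have a3 : (f p : ℝ) * Φ (Real.log p) ≤ |Φ (Real.log p)| := by
        rcases hf p p1 with h | h <;> simp [h, le_abs_self, neg_le_abs]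
      have a4 := abs_sub_abs_le_abs_sub (Φ (Real.log p)) (Φ t)
      linarith
  have hc' : 0 < c / (4 * H * Real.log d) := by positivity
  have hs2 : Summable (fun j : ℕ => c / (4 * H * Real.log d) * (1 / ((j : ℝ) + 1))) := by
    refine Summable.of_norm_bounded_eventually_nat hsa ?_
    filter_upwards [eventually_ge_atTop v₀] with j hj
    rw [Real.norm_eq_abs, abs_of_nonneg (by positivity)]
    exact hlow j hj
  rw [summable_mul_left_iff hc'.ne'] at hs2
  apply Real.not_summable_one_div_natCast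
  rw [← summable_nat_add_iff 1]
  simpa using hs2

theorem pret_of_pos (h : IsM M) {q : ℕ} (hq : 0 < q) {f : ℕ → ℤ} {σ : ℕ → ι → ι} {T : BL ι}
    (hf : ∀ p, p.Prime → f p = 1 ∨ f p = -1) (hT : TKr q f σ T) (hσ1 : σ 1 = id)
    (hσ2 : ∀ r s, σ (r * s) = σ r ∘ σ s) (hσ3 : ∀ r s, r ≡ s [MOD q] → σ r = σ s)
    (hσ4 : ∀ r, Nat.Coprime r q → Function.Bijective (σ r)) (hN : 0 < IP M T T) : Pret f := by
  classical
  have key : ∀ (r : ℕ) (ε : ℤ), Nat.Coprime r q → (ε = 1 ∨ ε = -1) →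
      ¬ Summable (fun p : ℕ => if p.Prime ∧ p ≡ r [MOD q] ∧ f p = ε then 1 / (p : ℝ) else 0) →
      D M (T.pm (σ r)) (T.sm ε) = 0 := by
    intro r ε hr hε hns
    have hs : (ε : ℝ) * ε = 1 := by rcases hε with h | h <;> simp [h]
    refine le_antisymm (le_of_forall_pos_le_add fun δ hδ => ?_) (D_nonneg h _ _)
    have h1 := bad_summable h hf hT hr (hσ4 r hr) (δ := δ / 2) (by linarith)
    by_contra hcon
    apply hns
    refine Summable.of_nonneg_of_le (fun p => by split_ifs <;> positivity) (fun p => ?_) h1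
    by_cases hp : p.Prime ∧ p ≡ r [MOD q] ∧ f p = ε
    · rw [if_pos hp, if_pos]
      refine ⟨hp.1, hp.2.1, ?_⟩
      have h2 := D_tri h (T.pm (σ r)) ((T.sh (Real.log p)).sm (f p)) (T.sm ε)
      rw [hp.2.2] at h2 ⊢
      rw [D_sm _ _ hs, D_comm _ T, dil_inv h hq hf hT hσ1 hN hp.1.two_le] at h2
      linarith
    · rw [if_neg hp]
      split_ifs <;> positivity
  have uniq : ∀ α : BL ι, D M α (T.sm 1) = 0 → D M α (T.sm (-1)) = 0 → False := by
    intro α h1 h2
    have h3 := D_tri h (T.sm 1) α (T.sm (-1))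
    rw [D_comm _ α, h1, h2, D_eq, IP_sm, IP_sm, IP_sm] at h3
    linarith
  let ψ : ℕ → ℤ := fun r => if D M (T.pm (σ r)) (T.sm 1) = 0 then 1 else -1
  have hψ : ∀ r, ψ r = 1 ∨ ψ r = -1 := fun r => by
    simp only [ψ]
    split_ifs <;> simp
  have hψu : ∀ (r : ℕ) (ε : ℤ), (ε = 1 ∨ ε = -1) → D M (T.pm (σ r)) (T.sm ε) = 0 → ψ r = ε := by
    intro r ε hε h0
    rcases hε with rfl | rfl
    · exact if_pos (by simpa using h0)
    · exact if_neg fun h1 => uniq _ h1 (by simpa using h0)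
  have hψD : ∀ r, Nat.Coprime r q → D M (T.pm (σ r)) (T.sm (ψ r)) = 0 := by
    intro r hr
    have : ∃ ε : ℤ, (ε = 1 ∨ ε = -1) ∧ ¬ Summable (fun p : ℕ =>
        if p.Prime ∧ p ≡ r [MOD q] ∧ f p = ε then 1 / (p : ℝ) else 0) := by
      by_contra hcon
      push Not at hcon
      apply not_summable_class hq hr
      refine Summable.of_nonneg_of_le (fun p => by split_ifs <;> positivity) (fun p => ?_)
        ((hcon 1 (Or.inl rfl)).add (hcon (-1) (Or.inr rfl)))
      by_cases hp : p.Prime ∧ p ≡ r [MOD q]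
      · rcases hf p hp.1 with h1 | h1 <;> simp [hp.1, hp.2, h1]
      · rw [if_neg hp]
        split_ifs <;> positivity
    obtain ⟨ε, hε, hns⟩ := this
    have h0 := key r ε hr hε hns
    rw [hψu r ε hε h0]
    exact h0
  refine ⟨q, ψ, hq, hψ, fun m n hm hn => ?_, fun n hn => ?_, ?_⟩
  · refine hψu _ _ (by rcases hψ m with h1 | h1 <;> rcases hψ n with h2 | h2 <;> simp [h1, h2]) ?_
    have hs : (ψ m : ℝ) * ψ m = 1 := by rcases hψ m with h | h <;> simp [h]
    have h1 := D_tri h ((T.pm (σ m)).pm (σ n)) ((T.sm (ψ m)).pm (σ n)) ((T.sm (ψ n)).sm (ψ m))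
    have e1 : (T.sm (ψ m)).pm (σ n) = (T.pm (σ n)).sm (ψ m) := rfl
    rw [D_pm _ _ (hσ4 n hn), hψD m hm, e1, D_sm _ _ hs, hψD n hn] at h1
    have e2 : T.pm (σ (m * n)) = (T.pm (σ m)).pm (σ n) := by rw [hσ2]; rfl
    have e3 : T.sm ((ψ m * ψ n : ℤ) : ℝ) = (T.sm (ψ n)).sm (ψ m) := by
      cases T
      simp only [sm, Int.cast_mul, mul_assoc]
    rw [e2, e3]
    exact le_antisymm (by linarith) (D_nonneg h _ _)
  · refine hψu _ _ (Or.inl rfl) ?_
    have e0 : T.pm (σ n) = T := by rw [hσ3 n 1 hn, hσ1]; rfl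
    rw [e0, Int.cast_one, sm_one, D_eq]
    ring
  · have h1 : ∀ r ∈ (range q).filter (fun r => Nat.Coprime r q), Summable (fun p : ℕ =>
        if p.Prime ∧ p ≡ r [MOD q] ∧ f p = -ψ r then 1 / (p : ℝ) else 0) := by
      intro r hr
      by_contra hns
      have hε : -ψ r = 1 ∨ -ψ r = -1 := by rcases hψ r with h1 | h1 <;> simp [h1]
      have := hψu r _ hε (key r _ (mem_filter.1 hr).2 hε hns)
      rcases hψ r with h1 | h1 <;> omega
    have h2 : Summable (fun p : ℕ => if p ≤ q then 1 / (p : ℝ) else 0) :=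
      summable_of_ne_finset_zero (s := range (q + 1)) fun p hp => by
        rw [mem_range] at hp
        exact if_neg (by omega)
    refine Summable.of_nonneg_of_le (fun p => by split_ifs <;> positivity) (fun p => ?_)
      (h2.add (summable_sum h1))
    have n1 : (0 : ℝ) ≤ if p ≤ q then 1 / (p : ℝ) else 0 := by split_ifs <;> positivity
    have n2 : ∀ r ∈ (range q).filter (fun r => Nat.Coprime r q), (0 : ℝ) ≤
        if p.Prime ∧ p ≡ r [MOD q] ∧ f p = -ψ r then 1 / (p : ℝ) else 0 := fun r _ => by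
      split_ifs <;> positivity
    have n3 := sum_nonneg n2
    by_cases hp : p.Prime ∧ f p ≠ ψ p
    · rw [if_pos hp]
      by_cases hpq : p ≤ q
      · rw [if_pos hpq]; linarith
      · have hc : Nat.Coprime p q := (Nat.Prime.coprime_iff_not_dvd hp.1).2 fun hd =>
          hpq (Nat.le_of_dvd hq hd)
        have hm : p % q ∈ (range q).filter (fun r => Nat.Coprime r q) :=
          mem_filter.2 ⟨mem_range.2 (Nat.mod_lt _ hq), by
            rw [Nat.Coprime, ← Nat.gcd_rec, Nat.gcd_comm]; exact hc⟩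
        have h3 := single_le_sum n2 hm
        have e : ψ (p % q) = ψ p := by simp only [ψ, hσ3 _ _ (Nat.mod_modEq p q)]
        rw [if_pos ⟨hp.1, (Nat.mod_modEq p q).symm, by
          rw [e]
          have := hp.2
          rcases hf p hp.1 with h1 | h1 <;> rcases hψ p with h2 | h2 <;> omega⟩] at h3
        linarith
    · rw [if_neg hp]
      linarith

end

end Pool.Agent.H266Z.Leh
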