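import Pool.Agent.H266Z.Leh.SmallK
import Pool.Agent.H266Z.MR.Tpart
import Pool.Agent.H266Z.MR.Upart
import Pool.Agent.H376R2.MR.Loc

/-! From Dirichlet polynomials to short averages. -/

set_option autoImplicit false

namespace Pool.Agent.H266Z.Leh

open Finset Filter Topology Pool.Agent.H376R2.MR Pool.Agent.H970R2.X Pool.Agent.H266Z.MR

theorem mem_FK {K : ℕ} {k : ℤ} : k ∈ FK K ↔ |(k : ℝ)| < K := by
  rw [FK, mem_Ioo, ← abs_lt]
  exact_mod_cast Iff.rfl

theorem mr_t (sg : ℕ → ℤ) (P : ℕ → Prop) (g : ℕ → ℤ) (c : ℝ) (hb : Bdd g) (hf : Tw sg P g g)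
    (hc : 0 < c) (hR : Rich P c) {η : ℝ} (hη : 0 < η) :
    ∃ (h : ℝ) (T₀ : ℕ), 1 ≤ h ∧ ∃ Y₀ : ℝ, ∀ Y : ℝ, Y₀ ≤ Y →
      ∑ k ∈ FK ⌊Y / h⌋₊, ‖GGg g Y k‖ ^ 2 ≤ η + ∑ k ∈ FK T₀, ‖GGg g Y k‖ ^ 2 := by
  have hη3 : 0 < η / 2 := by linarith
  obtain ⟨al, hal, T₀, Y1, hup⟩ := upart_s sg P g c hb hf hc hR hη3
  obtain ⟨h, hh, Y2, htp⟩ := tpart_s sg P g c hb hf hc hR hal hη3
  refine ⟨h, T₀, hh, max 1 (max Y1 Y2), fun Y hY => ?_⟩
  have hY0 : 1 ≤ Y := le_trans (le_max_left _ _) hY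
  have hY' : max Y1 Y2 ≤ Y := le_trans (le_max_right _ _) hY
  have hY1 : Y1 ≤ Y := le_trans (le_max_left _ _) hY'
  have hY2 : Y2 ≤ Y := le_trans (le_max_right _ _) hY'
  obtain ⟨U, hU1, hU2⟩ := htp Y hY2
  set F := FK ⌊Y / h⌋₊ with hF
  have h2 : ∑ k ∈ (F ∩ U).filter (fun k : ℤ => (T₀ : ℝ) ≤ |(k : ℝ)|), ‖GGg g Y k‖ ^ 2 ≤ η / 2 := by
    refine hup Y hY1 _ ?_ ?_
    · intro k hk
      rw [Finset.mem_filter, Finset.mem_inter] at hk
      refine ⟨hk.2, ?_⟩
      have h3 := (mem_FK.1 hk.1.1).le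
      have h4 : (⌊Y / h⌋₊ : ℝ) ≤ Y / h := Nat.floor_le (by positivity)
      have h5 : Y / h ≤ Y := div_le_self (by linarith) hh
      linarith
    · refine le_trans ?_ hU1
      have : ((F ∩ U).filter (fun k : ℤ => (T₀ : ℝ) ≤ |(k : ℝ)|)).card ≤ U.card :=
        Finset.card_le_card ((Finset.filter_subset _ _).trans Finset.inter_subset_right)
      exact_mod_cast this
  have h3 : ∑ k ∈ (F ∩ U).filter (fun k : ℤ => ¬ (T₀ : ℝ) ≤ |(k : ℝ)|), ‖GGg g Y k‖ ^ 2 ≤
      ∑ k ∈ FK T₀, ‖GGg g Y k‖ ^ 2 := by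
    refine Finset.sum_le_sum_of_subset_of_nonneg ?_ (fun _ _ _ => by positivity)
    intro k hk
    exact mem_FK.2 (lt_of_not_ge (mem_filter.1 hk).2)
  rw [← Finset.sum_inter_add_sum_sdiff F U, ← Finset.sum_filter_add_sum_filter_not (F ∩ U)
    (fun k : ℤ => (T₀ : ℝ) ≤ |(k : ℝ)|)]
  linarith

theorem En_nonneg (K : ℕ) (s : Finset ℕ) (a : ℕ → ℂ) : 0 ≤ En K s a := by
  refine sum_nonneg fun k hk => mul_nonneg ?_ (sq_nonneg _)
  have h := mem_FK.1 hk
  have hK : (0 : ℝ) < K := (abs_nonneg _).trans_lt h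
  rw [sub_nonneg, div_le_one hK]
  exact h.le

theorem En_le (K : ℕ) (s : Finset ℕ) (a : ℕ → ℂ) : En K s a ≤ ∑ k ∈ FK K, ‖DP s a k‖ ^ 2 := by
  refine sum_le_sum fun k _ => mul_le_of_le_one_left (sq_nonneg _) ?_
  have : (0 : ℝ) ≤ |(k : ℝ)| / K := by positivity
  linarith

theorem cnt_bounds {R N m n : ℕ} (hm : R ≤ m) (hmN : m ≤ N) (hn : R ≤ n) (hnN : n ≤ N) :
    let c : ℝ := ((range (N + 1)).filter
      (fun t => (t ≤ m ∧ m < t + R) ∧ (t ≤ n ∧ n < t + R))).card
    c ≤ R ∧ R - |(m : ℝ) - n| ≤ c := by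
  intro c
  have e : (range (N + 1)).filter (fun t => (t ≤ m ∧ m < t + R) ∧ (t ≤ n ∧ n < t + R)) =
      Ioc (max m n - R) (min m n) := by
    ext t
    simp only [mem_filter, mem_range, mem_Ioc]
    omega
  have e2 : c = ((min m n - (max m n - R) : ℕ) : ℝ) := by simp only [c, e, Nat.card_Ioc]
  rw [e2]
  constructor
  · exact_mod_cast (show min m n - (max m n - R) ≤ R by omega)
  · rcases le_total m n with h | h
    · have h1 : R + m ≤ min m n - (max m n - R) + n := by omega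
      have h2 : (R : ℝ) + m ≤ (min m n - (max m n - R) : ℕ) + n := by exact_mod_cast h1
      linarith [neg_abs_le ((m : ℝ) - n), le_abs_self ((n : ℝ) - m), abs_sub_comm (m : ℝ) n]
    · have h1 : R + n ≤ min m n - (max m n - R) + m := by omega
      have h2 : (R : ℝ) + n ≤ (min m n - (max m n - R) : ℕ) + m := by exact_mod_cast h1
      linarith [le_abs_self ((m : ℝ) - n)]

/-- the sum of the local energies is close to the total energy -/
theorem loc_upper {Y h : ℝ} (hh : 1 ≤ h) (hY : 2 * h ≤ Y) {R R' : ℕ} (hR : 1 ≤ R) (hR' : 1 ≤ R')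
    (hYR : 3 * (R : ℝ) ≤ Y) (x : ℕ → ℝ) (hx : ∀ n, |x n| ≤ 1) :
    (1 / R : ℝ) * ∑ t ∈ range (⌊Real.exp 1 * Y⌋₊ + 1),
      En ⌊Y / h⌋₊ ((WN Y).filter (fun m => t ≤ m ∧ m < t + R))
        (fun n => ((x n * bw Y n : ℝ) : ℂ)) ≤
    En ⌊Y / h⌋₊ (WN Y) (fun n => ((x n * bw Y n : ℝ) : ℂ)) +
      2 * h * Real.pi ^ 2 * Real.exp 1 ^ 5 * ((2 * R' + 1) / R + 2 / R') := by
  set N := ⌊Real.exp 1 * Y⌋₊ with hN
  set K := ⌊Y / h⌋₊
  have hY0 : 0 < Y := by linarith
  have hR0 : (0 : ℝ) < R := by exact_mod_cast hR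
  let c : ℕ → ℕ → ℝ := fun m n => ((range (N + 1)).filter
      (fun t => (t ≤ m ∧ m < t + R) ∧ (t ≤ n ∧ n < t + R))).card
  have e1 : ∑ t ∈ range (N + 1), En K ((WN Y).filter (fun m => t ≤ m ∧ m < t + R))
      (fun n => ((x n * bw Y n : ℝ) : ℂ)) = ∑ m ∈ WN Y, ∑ n ∈ WN Y,
      c m n * ((x m * bw Y m) * (x n * bw Y n) * Fj K (Real.log m - Real.log n)) := by
    simp only [loc_En_real, sum_filter]
    rw [sum_comm]
    refine sum_congr rfl fun m _ => ?_
    have : ∀ t ∈ range (N + 1), (if t ≤ m ∧ m < t + R then ∑ n ∈ WN Y, if t ≤ n ∧ n < t + R then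
        (x m * bw Y m) * (x n * bw Y n) * Fj K (Real.log m - Real.log n) else 0 else 0) =
        ∑ n ∈ WN Y, if (t ≤ m ∧ m < t + R) ∧ (t ≤ n ∧ n < t + R) then
        (x m * bw Y m) * (x n * bw Y n) * Fj K (Real.log m - Real.log n) else 0 := by
      intro t _
      by_cases h1 : t ≤ m ∧ m < t + R
      · simp only [h1, and_self, true_and, if_true]
      · simp only [h1, false_and, if_false, sum_const_zero]
    rw [sum_congr rfl this, sum_comm]
    refine sum_congr rfl fun n _ => ?_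
    rw [← sum_filter, sum_const, nsmul_eq_mul]
  rw [e1, loc_En_real, mul_sum, ← sub_le_iff_le_add', ← sum_sub_distrib]
  set C0 := 2 * h * Real.pi ^ 2 * Real.exp 1 ^ 4 / Y with hC0
  have hC00 : 0 ≤ C0 := by positivity
  have hsm : ∀ n, bw Y n ≠ 0 → R ≤ n := by
    intro n hn
    have h1 := (abs_lt.1 (loc_bw_ne hn)).1
    have hn0 : n ≠ 0 := fun h0 => hn (by simp [bw, h0])
    have hn' : (0 : ℝ) < n := by positivity
    have h2 : Real.log Y < Real.log (Real.exp 1 * n) := by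
      rw [Real.log_mul (by positivity) hn'.ne', Real.log_exp]; linarith
    rw [Real.log_lt_log_iff hY0 (by positivity)] at h2
    have h3 := Real.exp_one_lt_d9
    have : (R : ℝ) ≤ n := by nlinarith
    exact_mod_cast this
  have hrow : ∀ m ∈ WN Y, (1 / R : ℝ) * ∑ n ∈ WN Y,
      c m n * ((x m * bw Y m) * (x n * bw Y n) * Fj K (Real.log m - Real.log n)) -
      ∑ n ∈ WN Y, (x m * bw Y m) * (x n * bw Y n) * Fj K (Real.log m - Real.log n) ≤
      C0 * ((2 * R' + 1) / R + 2 / R') := by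
    intro m hm
    rw [mul_sum, ← sum_sub_distrib]
    have hterm : ∀ n ∈ WN Y, (1 / R : ℝ) *
        (c m n * ((x m * bw Y m) * (x n * bw Y n) * Fj K (Real.log m - Real.log n))) -
        (x m * bw Y m) * (x n * bw Y n) * Fj K (Real.log m - Real.log n) ≤
        C0 * ((if m + R' < n ∨ n + R' < m then (((m : ℝ) - n) ^ 2)⁻¹ else 0) +
          (if m + R' < n ∨ n + R' < m then 0 else 1 / (R : ℝ))) := by
      intro n hn
      have hpos : (0 : ℝ) ≤ C0 * ((if m + R' < n ∨ n + R' < m then (((m : ℝ) - n) ^ 2)⁻¹ else 0) +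
          (if m + R' < n ∨ n + R' < m then 0 else 1 / (R : ℝ))) := by
        split_ifs <;> positivity
      by_cases b1 : bw Y m = 0
      · simpa [b1] using hpos
      by_cases b2 : bw Y n = 0
      · simpa [b2] using hpos
      obtain ⟨c1, c2⟩ : c m n ≤ R ∧ R - |(m : ℝ) - n| ≤ c m n :=
        cnt_bounds (hsm m b1) (mem_Icc.1 hm).2 (hsm n b2) (mem_Icc.1 hn).2
      have c0 : 0 ≤ c m n := by positivity
      set Ω := bw Y m * bw Y n * Fj K (Real.log m - Real.log n) with hΩ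
      have hΩ0 : 0 ≤ Ω := mul_nonneg (mul_nonneg (loc_bw_nonneg _ _) (loc_bw_nonneg _ _))
        (Fj_nonneg _ _)
      have e : (1 / R : ℝ) *
          (c m n * ((x m * bw Y m) * (x n * bw Y n) * Fj K (Real.log m - Real.log n))) -
          (x m * bw Y m) * (x n * bw Y n) * Fj K (Real.log m - Real.log n) =
          (1 - c m n / R) * (-(x m * x n)) * Ω := by rw [hΩ]; ring
      have d0 : 0 ≤ 1 - c m n / R := by rw [sub_nonneg, div_le_one hR0]; exact c1
      have d1 : -(x m * x n) ≤ 1 := by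
        refine (neg_le_abs _).trans ?_
        rw [abs_mul]
        exact mul_le_one₀ (hx m) (abs_nonneg _) (hx n)
      have d2 : (1 - c m n / R) * (-(x m * x n)) * Ω ≤ (1 - c m n / R) * Ω := by
        rw [mul_assoc]
        exact mul_le_mul_of_nonneg_left (mul_le_of_le_one_left hΩ0 d1) d0
      rw [e]
      refine d2.trans ?_
      have d3 : 1 - c m n / R ≤ |(m : ℝ) - n| / R := by
        rw [le_div_iff₀ hR0, sub_mul, div_mul_cancel₀ _ hR0.ne']
        linarith
      by_cases hmn : m = n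
      · have : 1 - c m n / R = 0 := by
          refine le_antisymm (d3.trans ?_) d0
          simp [hmn]
        rw [this, zero_mul]
        exact hpos
      have hfar : Ω ≤ C0 * (((m : ℝ) - n) ^ 2)⁻¹ := loc_far hh hY hm hn hmn
      split_ifs with hc
      · rw [add_zero]
        have : 0 ≤ c m n / R := by positivity
        exact (mul_le_of_le_one_left hΩ0 (by linarith)).trans hfar
      · rw [zero_add]
        have h1 : (1 : ℝ) ≤ |(m : ℝ) - n| := by
          have : (1 : ℤ) ≤ |(m : ℤ) - n| := Int.one_le_abs (by omega)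
          exact_mod_cast this
        calc _ ≤ |(m : ℝ) - n| / R * (C0 * (((m : ℝ) - n) ^ 2)⁻¹) := by gcongr
          _ = C0 * (1 / R) * (1 / |(m : ℝ) - n|) := by
            rw [← sq_abs]
            field_simp
          _ ≤ C0 * (1 / R) * 1 := by
            gcongr
            rw [div_le_one (by linarith)]
            exact h1
          _ = _ := mul_one _
    refine (sum_le_sum hterm).trans ?_
    rw [← mul_sum, sum_add_distrib, add_comm]
    refine mul_le_mul_of_nonneg_left (add_le_add ?_ ?_) hC00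
    · have : ∀ n, (if m + R' < n ∨ n + R' < m then 0 else 1 / (R : ℝ)) =
          if ¬ (m + R' < n ∨ n + R' < m) then 1 / (R : ℝ) else 0 := fun n => by
        split_ifs <;> rfl
      simp only [this]
      rw [← sum_filter, sum_const, nsmul_eq_mul, mul_one_div]
      refine div_le_div_of_nonneg_right ?_ hR0.le
      have : ((WN Y).filter (fun n => ¬ (m + R' < n ∨ n + R' < m))).card ≤ 2 * R' + 1 := by
        refine (card_le_card (t := Icc (m - R') (m + R')) fun n hn => ?_).trans ?_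
        · have := (mem_filter.1 hn).2
          rw [mem_Icc]
          omega
        · rw [Nat.card_Icc]; omega
      exact_mod_cast this
    · rw [← sum_filter]
      exact loc_tail hR' _ m
  refine (sum_le_sum hrow).trans ?_
  rw [sum_const, nsmul_eq_mul, ← mul_assoc]
  refine mul_le_mul_of_nonneg_right ?_ (by positivity)
  have h1 : ((WN Y).card : ℝ) ≤ Real.exp 1 * Y := by
    rw [WN, Nat.card_Icc, Nat.add_sub_cancel]
    exact Nat.floor_le (by positivity)
  calc _ ≤ Real.exp 1 * Y * C0 := by gcongr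
    _ = _ := by rw [hC0]; field_simp

/-- the local energy controls the short average -/
theorem loc_lower' {Y R t K : ℕ} {δ : ℝ} (hδ : 0 < δ) (hR : 1 ≤ R) (hYR : 2 * (R : ℝ) ≤ δ * Y)
    (hK : 2 * (δ * Y / R) ≤ K) (ht : Y ≤ t) (ht2 : t ≤ 2 * Y) (x : ℕ → ℝ) (hx : ∀ n, |x n| ≤ 1) :
    Ces (fun j => x (t + j)) R ^ 2 ≤ 512 * δ ^ 2 +
      512 * Y / (δ * R) * En K (Ico t (t + R)) (fun n => ((x n * bw Y n : ℝ) : ℂ)) := by
  have hR0 : (0 : ℝ) < R := by exact_mod_cast hR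
  have hY0 : (0 : ℝ) < Y := by
    by_contra h
    have : δ * Y ≤ 0 := mul_nonpos_of_nonneg_of_nonpos hδ.le (not_lt.1 h)
    linarith
  have ht' : (Y : ℝ) ≤ t := by exact_mod_cast ht
  have ht2' : (t : ℝ) ≤ 2 * Y := by exact_mod_cast ht2
  have ht0 : (0 : ℝ) < t := by linarith
  set A := Ces (fun j => x (t + j)) R with hA
  set k0 := ⌊δ * Y / R⌋₊ with hk0
  have k1 : (k0 : ℝ) ≤ δ * Y / R := Nat.floor_le (by positivity)
  have k2 : 2 ≤ δ * Y / R := by rw [le_div_iff₀ hR0]; exact hYR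
  have k3 : δ * Y / R ≤ 2 * k0 - 1 := by
    have := Nat.lt_floor_add_one (δ * Y / R)
    rw [← hk0] at this
    have h2 : (2 : ℝ) ≤ k0 := by exact_mod_cast (Nat.le_floor (by exact_mod_cast k2) : 2 ≤ k0)
    linarith
  have hK0 : (0 : ℝ) < K := by linarith
  have hcard : ((FK k0).card : ℝ) = 2 * k0 - 1 := by
    have h2 : 1 ≤ k0 := by
      have : (1 : ℝ) ≤ k0 := by linarith
      exact_mod_cast this
    have : (FK k0).card + 1 = 2 * k0 := by rw [FK, Int.card_Ioo]; omega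
    have : ((FK k0).card : ℝ) + 1 = 2 * k0 := by exact_mod_cast this
    linarith
  set a : ℕ → ℂ := fun n => ((x n * bw Y n : ℝ) : ℂ) with ha
  have hbt : 1 / (8 * (Y : ℝ)) ≤ bw Y t := by
    unfold bw w
    have h1 : Real.log t - Real.log Y ≤ Real.log 2 := by
      rw [sub_le_iff_le_add, ← Real.log_mul (by norm_num) hY0.ne']
      exact Real.log_le_log ht0 ht2'
    have h2 : 0 ≤ Real.log t - Real.log Y := sub_nonneg.2 (Real.log_le_log hY0 ht')
    have h3 := Real.log_two_lt_d9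
    have h4 : 1 / 4 ≤ max 0 (1 - |Real.log t - Real.log Y|) := by
      rw [abs_of_nonneg h2]
      exact le_max_of_le_right (by linarith)
    rw [div_le_div_iff₀ (by positivity) ht0]
    nlinarith
  have hk : ∀ k ∈ FK k0, (R / (8 * Y)) ^ 2 * A ^ 2 ≤
      2 * ‖DP (Ico t (t + R)) a k‖ ^ 2 + 8 * (δ * R / Y) ^ 2 := by
    intro k hk
    have hk' : |(k : ℝ)| ≤ δ * Y / R := (mem_FK.1 hk).le.trans k1
    have e1 : DP (Ico t (t + R)) a k - ((bw Y t * (R * A) : ℝ) : ℂ) * ch k (Real.log t) =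
        ∑ j ∈ range R, (x (t + j) : ℂ) * ((bw Y (t + j) : ℂ) * ch k (Real.log (t + j : ℕ)) -
          (bw Y t : ℂ) * ch k (Real.log t)) := by
      have : (R : ℝ) * A = ∑ j ∈ range R, x (t + j) := by
        rw [hA, Ces]; field_simp
      rw [this, DP, sum_Ico_eq_sum_range, Nat.add_sub_cancel_left]
      simp only [ha]
      push_cast
      rw [mul_sum, sum_mul, ← sum_sub_distrib]
      exact sum_congr rfl fun j _ => by ring
    have e2 : ∀ j ∈ range R, ‖(x (t + j) : ℂ) *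
        ((bw Y (t + j) : ℂ) * ch k (Real.log (t + j : ℕ)) - (bw Y t : ℂ) * ch k (Real.log t))‖ ≤
        2 * (δ / Y) := by
      intro j hj
      have hj' : (j : ℝ) ≤ R := by exact_mod_cast (mem_range.1 hj).le
      have hj0 : (0 : ℝ) ≤ j := by positivity
      have l1 : |Real.log (t + j : ℕ) - Real.log t| ≤ R / Y := by
        rw [← Real.log_div (by push_cast; positivity) ht0.ne']
        have h1 : (1 : ℝ) ≤ (t + j : ℕ) / t := by
          rw [le_div_iff₀ ht0]; push_cast; linarith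
        rw [abs_of_nonneg (Real.log_nonneg h1)]
        refine (Real.log_le_sub_one_of_pos (by linarith)).trans ?_
        have : ((t + j : ℕ) : ℝ) / t - 1 = j / t := by push_cast; field_simp; ring
        rw [this]
        gcongr
      have l2 : |bw Y (t + j) - bw Y t| ≤ δ / Y := by
        unfold bw
        have h1 := tnt_w_lip (Real.log (t + j : ℕ) - Real.log Y) (Real.log t - Real.log Y)
        rw [sub_sub_sub_cancel_right] at h1
        have h2 := tnt_w_nonneg (Real.log t - Real.log Y)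
        have h3 := tnt_w_le (Real.log t - Real.log Y)
        set w1 := w (Real.log (t + j : ℕ) - Real.log Y)
        set w2 := w (Real.log t - Real.log Y)
        have e : w1 / (t + j : ℕ) - w2 / t = (w1 - w2) / (t + j) - w2 * (j / (t * (t + j))) := by
          push_cast; field_simp; ring
        rw [e]
        refine (abs_sub _ _).trans ?_
        rw [abs_div, abs_of_pos (by positivity : (0 : ℝ) < t + j),
          abs_of_nonneg (by positivity : 0 ≤ w2 * (j / (t * (t + j))))]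
        have m1 : |w1 - w2| / (t + j) ≤ R / Y / Y := by
          gcongr
          · exact h1.trans l1
          · linarith
        have m2 : w2 * (j / (t * (t + j))) ≤ 1 * (R / (Y * Y)) := by
          gcongr
          linarith
        have m3 : (R : ℝ) / Y / Y + 1 * (R / (Y * Y)) = 2 * R / Y / Y := by field_simp; ring
        have m4 : 2 * (R : ℝ) / Y / Y ≤ δ / Y := by
          gcongr
          rw [div_le_iff₀ hY0]
          exact hYR
        linarith
      have l3 : bw Y t ≤ 1 / Y := by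
        unfold bw
        gcongr
        exact tnt_w_le _
      have e : (bw Y (t + j) : ℂ) * ch k (Real.log (t + j : ℕ)) - (bw Y t : ℂ) * ch k (Real.log t) =
          ((bw Y (t + j) - bw Y t : ℝ) : ℂ) * ch k (Real.log (t + j : ℕ)) +
          (bw Y t : ℂ) * (ch k (Real.log (t + j : ℕ)) - ch k (Real.log t)) := by
        push_cast; ring
      rw [norm_mul, Complex.norm_real, Real.norm_eq_abs, e]
      refine (mul_le_of_le_one_left (norm_nonneg _) (hx _)).trans ((norm_add_le _ _).trans ?_)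
      rw [norm_mul, norm_mul, tnt_ch_norm, mul_one, Complex.norm_real, Complex.norm_real,
        Real.norm_eq_abs, Real.norm_eq_abs, abs_of_nonneg (loc_bw_nonneg _ _)]
      have l4 : bw Y t * ‖ch k (Real.log (t + j : ℕ)) - ch k (Real.log t)‖ ≤
          1 / Y * (δ * Y / R * (R / Y)) := by
        refine mul_le_mul l3 ((tnt_ch_lip _ _ _).trans ?_) (norm_nonneg _) (by positivity)
        gcongr
      have l5 : 1 / (Y : ℝ) * (δ * Y / R * (R / Y)) = δ / Y := by field_simp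
      linarith
    have e3 := (norm_sum_le _ _).trans (sum_le_sum e2)
    rw [← e1, sum_const, card_range, nsmul_eq_mul] at e3
    have e4 := norm_sub_norm_le (((bw Y t * (R * A) : ℝ) : ℂ) * ch k (Real.log t))
      (DP (Ico t (t + R)) a k)
    rw [norm_sub_rev, norm_mul, tnt_ch_norm, mul_one, Complex.norm_real, Real.norm_eq_abs,
      abs_mul, abs_mul, abs_of_nonneg (loc_bw_nonneg _ _), abs_of_pos hR0] at e4
    have e5 : R / (8 * Y) * |A| ≤ ‖DP (Ico t (t + R)) a k‖ + 2 * (δ * R / Y) := by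
      have : 1 / (8 * (Y : ℝ)) * (R * |A|) ≤ bw Y t * (R * |A|) := by gcongr
      have e6 : 1 / (8 * (Y : ℝ)) * (R * |A|) = R / (8 * Y) * |A| := by ring
      have e7 : (R : ℝ) * (2 * (δ / Y)) = 2 * (δ * R / Y) := by ring
      linarith
    rw [← sq_abs A, ← mul_pow]
    have e6 := pow_le_pow_left₀ (by positivity) e5 2
    nlinarith [sq_nonneg (‖DP (Ico t (t + R)) a k‖ - 2 * (δ * R / Y))]
  have hs := sum_le_sum hk
  rw [sum_const, sum_add_distrib, sum_const, nsmul_eq_mul, nsmul_eq_mul, hcard, ← mul_sum] at hs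
  have hE : ∑ k ∈ FK k0, ‖DP (Ico t (t + R)) a k‖ ^ 2 ≤ 2 * En K (Ico t (t + R)) a := by
    unfold En
    rw [mul_sum]
    have hsub : FK k0 ⊆ FK K := fun k hk => mem_FK.2 (by linarith [mem_FK.1 hk])
    refine le_trans (sum_le_sum fun k hk => ?_) (sum_le_sum_of_subset_of_nonneg hsub ?_)
    · have : |(k : ℝ)| / K ≤ 1 / 2 := by
        rw [div_le_iff₀ hK0]
        linarith [mem_FK.1 hk]
      nlinarith [sq_nonneg ‖DP (Ico t (t + R)) a k‖]
    · intro k hk _
      have : |(k : ℝ)| / K ≤ 1 := by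
        rw [div_le_one hK0]
        exact (mem_FK.1 hk).le
      have : 0 ≤ 1 - |(k : ℝ)| / K := by linarith
      positivity
  have hE0 := En_nonneg K (Ico t (t + R)) a
  set E := En K (Ico t (t + R)) a
  set c0 : ℝ := 2 * k0 - 1
  have hc0 : 0 < c0 := by linarith
  have f1 : c0 * ((R / (8 * Y)) ^ 2 * (A ^ 2 - 512 * δ ^ 2)) ≤ 4 * E := by
    have : (R / (8 * Y)) ^ 2 * (512 * δ ^ 2) = 8 * (δ * R / Y) ^ 2 := by field_simp; ring
    rw [mul_sub, this, mul_sub]
    linarith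
  by_cases hneg : A ^ 2 ≤ 512 * δ ^ 2
  · have : 0 ≤ 512 * Y / (δ * R) * E := by positivity
    linarith
  have hp : 0 ≤ A ^ 2 - 512 * δ ^ 2 := by linarith
  have f2 : δ * Y / R * ((R / (8 * Y)) ^ 2 * (A ^ 2 - 512 * δ ^ 2)) ≤ 4 * E :=
    le_trans (mul_le_mul_of_nonneg_right k3 (by positivity)) f1
  have f3 : A ^ 2 - 512 * δ ^ 2 = 64 * Y / (δ * R) *
      (δ * Y / R * ((R / (8 * Y)) ^ 2 * (A ^ 2 - 512 * δ ^ 2))) := by
    field_simp
    ring
  have f4 : 64 * Y / (δ * R) * (δ * Y / R * ((R / (8 * Y)) ^ 2 * (A ^ 2 - 512 * δ ^ 2))) ≤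
      64 * Y / (δ * R) * (4 * E) := by gcongr
  have f5 : 64 * Y / (δ * R) * (4 * E) ≤ 512 * Y / (δ * R) * E := by
    have : 0 ≤ Y / (δ * R) * E := by positivity
    have e1 : 64 * Y / (δ * R) * (4 * E) = 256 * (Y / (δ * R) * E) := by ring
    have e2 : 512 * Y / (δ * R) * E = 512 * (Y / (δ * R) * E) := by ring
    linarith
  linarith

theorem short_mean {M : (ℕ → ℝ) →ₗ[ℝ] ℝ} (hM : IsM M) {f : ℕ → ℤ} (hf : CM f) (hP : ¬ Pret f)
    {q : ℕ} (hq : 0 < q) (c : ZMod q) {ε : ℝ} (hε : 0 < ε) : ∀ᶠ R : ℕ in atTop,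
      M (fun t => Ces (fun j => (gc f q c (t + j) : ℝ)) R ^ 2) ≤ ε := by
  set g := gc f q c with hg
  have hb : Bdd g := gc_bdd hf q c
  have hx : ∀ n, |(g n : ℝ)| ≤ 1 := fun n => by exact_mod_cast hb n
  obtain ⟨δ, hδ, hδ1, hδε⟩ : ∃ δ : ℝ, 0 < δ ∧ δ ≤ 1 ∧ 512 * δ ^ 2 ≤ ε / 2 := by
    refine ⟨min 1 (ε / 1024), by positivity, min_le_left _ _, ?_⟩
    have h1 : min 1 (ε / 1024) ≤ 1 := min_le_left _ _
    have h2 : min 1 (ε / 1024) ≤ ε / 1024 := min_le_right _ _
    have h3 : 0 < min 1 (ε / 1024) := by positivity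
    nlinarith
  set η := ε * δ / 3072 with hη
  have hη0 : 0 < η := by positivity
  obtain ⟨c0, hc0, hR⟩ := rich_ap q hq
  have hTw : Tw (fun p => if f p = 1 then -1 else 1) (P1 q) g g := by
    refine ⟨fun p => by dsimp only; split_ifs <;> simp, fun p m hp hp1 => ?_⟩
    have := gc_mul hf c (Nat.coprime_one_left q) hp1 m
    rw [Nat.cast_one, one_mul] at this
    rw [hg, this]
    rcases hf.sgn p hp.ne_zero with h | h <;> simp [h]
  obtain ⟨h, T₀, hh, Y₀, hY₀⟩ := mr_t _ _ g c0 hb hTw hc0 hR hη0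
  set C1 := 2 * h * Real.pi ^ 2 * Real.exp 1 ^ 5 with hC1
  have hC10 : 0 < C1 := by positivity
  obtain ⟨R', hR'⟩ := exists_nat_ge (max 1 (2 * C1 / η))
  have hR'1 : (1 : ℝ) ≤ R' := (le_max_left _ _).trans hR'
  have hR'2 : 2 * C1 / η ≤ R' := (le_max_right _ _).trans hR'
  filter_upwards [(tendsto_natCast_atTop_atTop (R := ℝ)).eventually_ge_atTop
    (max (4 * h) ((2 * R' + 1) * C1 / η))] with R hR0
  have hR1 : 4 * h ≤ R := (le_max_left _ _).trans hR0
  have hR2 : (2 * R' + 1) * C1 / η ≤ R := (le_max_right _ _).trans hR0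
  have hR3 : (0 : ℝ) < R := by linarith
  have hR4 : 1 ≤ R := by exact_mod_cast (show (1 : ℝ) ≤ R by linarith)
  set φ : ℕ → ℝ := fun t => Ces (fun j => (g (t + j) : ℝ)) R ^ 2 with hφ
  have bφ : Bd φ := Bd.sq ⟨1, fun t => abs_Ces_le (fun _ => hx _) R⟩
  have bτ : ∀ k, Bd (fun n : ℕ => ‖tau g k (Real.log n)‖ ^ 2) := fun k =>
    Bd.sq ⟨5, fun n => by rw [abs_norm]; exact tau_norm hb k _⟩
  have e1 : M φ = M (fun Y => 2 * Ces φ (2 * Y) - Ces φ Y) := by
    rw [IsM.sub, IsM.mul, hM.ces bφ (by norm_num), hM.ces_one bφ]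
    ring
  have e2 : M (fun Y : ℕ => ε + 512 / δ * ∑ k ∈ FK T₀, ‖tau g k (Real.log Y)‖ ^ 2) = ε := by
    rw [IsM.add, IsM.mul, IsM.sum, hM.const, sum_eq_zero fun k _ => smallK hM hf hP hq c k]
    simp
  rw [e1, ← e2]
  refine hM.mono_ev (((Bd.const 2).mul (bφ.ces.comp _)).sub bφ.ces)
    ((Bd.const ε).add ((Bd.const _).mul (Bd.sum _ fun k _ => bτ k))) ?_
  filter_upwards [(tendsto_natCast_atTop_atTop (R := ℝ)).eventually_ge_atTop
    (max (max Y₀ (2 * h)) (max (3 * R) (2 * R / δ)))] with Y hY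
  have y1 : Y₀ ≤ Y := ((le_max_left _ _).trans (le_max_left _ _)).trans hY
  have y2 : 2 * h ≤ Y := ((le_max_right _ _).trans (le_max_left _ _)).trans hY
  have y3 : 3 * (R : ℝ) ≤ Y := ((le_max_left _ _).trans (le_max_right _ _)).trans hY
  have y4 : 2 * R / δ ≤ Y := ((le_max_right _ _).trans (le_max_right _ _)).trans hY
  have hY0 : (0 : ℝ) < Y := by linarith
  rw [div_le_iff₀ hδ] at y4
  set K := ⌊(Y : ℝ) / h⌋₊ with hK
  have hK1 : 2 * (δ * Y / R) ≤ K := by
    have h1 := Nat.lt_floor_add_one ((Y : ℝ) / h)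
    rw [← hK] at h1
    have h2 : 2 ≤ (Y : ℝ) / h := by rw [le_div_iff₀ (by linarith)]; exact y2
    have h3 : δ * Y / R ≤ 1 * Y / (4 * h) := by gcongr
    have h4 : 1 * (Y : ℝ) / (4 * h) = Y / h / 4 := by field_simp
    linarith
  set a : ℕ → ℂ := fun n => (((g n : ℝ) * bw Y n : ℝ) : ℂ) with ha
  have u1 := loc_upper hh y2 hR4 (R' := R') (by exact_mod_cast hR'1) y3 (fun n => g n) hx
  have u2 : En K (WN Y) a ≤ η + ∑ k ∈ FK T₀, ‖tau g k (Real.log Y)‖ ^ 2 := by
    refine (En_le _ _ _).trans ?_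
    simp only [tau_eq g _ hY0]
    refine le_trans (le_of_eq (sum_congr rfl fun k _ => ?_)) (hY₀ Y y1)
    simp only [GGg, ha]
    push_cast
    rfl
  have u3 : C1 * ((2 * R' + 1) / R + 2 / R') ≤ 2 * η := by
    rw [div_le_iff₀ hη0] at hR'2 hR2
    have h1 : C1 * ((2 * R' + 1) / R) ≤ η := by
      rw [← mul_div_assoc, div_le_iff₀ hR3]; linarith
    have h2 : C1 * (2 / R') ≤ η := by
      rw [← mul_div_assoc, div_le_iff₀ (by linarith)]; linarith
    linarith
  have hN : 2 * Y + R ≤ ⌊Real.exp 1 * Y⌋₊ := by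
    refine Nat.le_floor ?_
    push_cast
    nlinarith [Real.exp_one_gt_d9]
  have hY1 : 1 ≤ Y := by exact_mod_cast hY0
  have u4 : ∑ t ∈ Ico Y (2 * Y), En K (Ico t (t + R)) a ≤ ∑ t ∈ range (⌊Real.exp 1 * Y⌋₊ + 1),
      En K ((WN Y).filter (fun m => t ≤ m ∧ m < t + R)) a := by
    refine le_trans (le_of_eq (sum_congr rfl fun t ht => ?_))
      (sum_le_sum_of_subset_of_nonneg (fun t ht => ?_) fun _ _ _ => En_nonneg _ _ _)
    · congr 1
      ext m
      rw [mem_Ico] at ht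
      simp only [WN, mem_filter, mem_Icc, mem_Ico]
      omega
    · rw [mem_Ico] at ht
      rw [mem_range]
      omega
  have u5 : ∑ t ∈ Ico Y (2 * Y), φ t ≤ ∑ t ∈ Ico Y (2 * Y), (512 * δ ^ 2 +
      512 * Y / (δ * R) * En K (Ico t (t + R)) a) := sum_le_sum fun t ht =>
    loc_lower' hδ hR4 (by linarith) hK1 (mem_Ico.1 ht).1 (mem_Ico.1 ht).2.le (fun n => g n) hx
  rw [sum_add_distrib, sum_const, Nat.card_Ico, nsmul_eq_mul, ← mul_sum,
    show 2 * Y - Y = Y by omega] at u5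
  have e3 : 2 * Ces φ (2 * Y) - Ces φ Y = (∑ t ∈ Ico Y (2 * Y), φ t) / Y := by
    rw [sum_Ico_eq_sub _ (by omega)]
    unfold Ces
    push_cast
    field_simp
  rw [e3, div_le_iff₀ hY0]
  set S := ∑ k ∈ FK T₀, ‖tau g k (Real.log Y)‖ ^ 2
  set E := ∑ t ∈ Ico Y (2 * Y), En K (Ico t (t + R)) a
  have u6 : 1 / (R : ℝ) * E ≤ 3 * η + S := by
    have : 1 / (R : ℝ) * E ≤ _ := mul_le_mul_of_nonneg_left u4 (by positivity)
    linarith
  have u7 : 512 * Y / (δ * R) * E = Y * (512 / δ * (1 / (R : ℝ) * E)) := by field_simp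
  have u8 : 512 / δ * (1 / (R : ℝ) * E) ≤ 512 / δ * (3 * η + S) := by gcongr
  have u9 : 512 / δ * (3 * η + S) = ε / 2 + 512 / δ * S := by
    rw [hη]; field_simp; ring
  rw [u7] at u5
  rw [u9] at u8
  nlinarith

end Pool.Agent.H266Z.Leh
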