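import Mathlib

/-! Three shifted squares in a finite field with at least eleven elements. -/

set_option autoImplicit false

namespace Pool.Agent.H266Z.Leh

open Finset

variable {F : Type} [Field F] [Fintype F] [DecidableEq F]

theorem q_shift (hF : ringChar F ≠ 2) (x : F) : ∑ r : F, quadraticChar F (r + x) = 0 := by
  have := quadraticChar_sum_zero hF
  rw [← this]
  exact Fintype.sum_equiv (Equiv.addRight x) _ _ (fun _ => rfl)

theorem q_two0 (hF : ringChar F ≠ 2) {d : F} (hd : d ≠ 0) :
    ∑ r : F, quadraticChar F r * quadraticChar F (r + d) = -1 := by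
  have h1 : ∀ r : F, quadraticChar F r * quadraticChar F (r + d) =
      quadraticChar F (d * r⁻¹ + 1) - if r = 0 then 1 else 0 := by
    intro r
    by_cases hr : r = 0
    · subst hr; simp
    · rw [if_neg hr, sub_zero]
      have e : r + d = r * (d * r⁻¹ + 1) := by field_simp; ring
      rw [e, map_mul, ← mul_assoc, ← sq, quadraticChar_sq_one hr, one_mul]
  rw [Finset.sum_congr rfl fun r _ => h1 r, Finset.sum_sub_distrib]
  have h2 : ∑ r : F, quadraticChar F (d * r⁻¹ + 1) = ∑ r : F, quadraticChar F (r + 1) :=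
    Fintype.sum_equiv ((Equiv.inv F).trans (Equiv.mulLeft₀ d hd)) _ _ (fun _ => rfl)
  rw [h2, q_shift hF]
  simp

theorem q_two (hF : ringChar F ≠ 2) (x y : F) :
    ∑ r : F, quadraticChar F (r + x) * quadraticChar F (r + y) =
      (if x = y then (Fintype.card F : ℤ) else 0) - 1 := by
  split_ifs with h
  · subst h
    have h1 : ∀ r : F, quadraticChar F (r + x) * quadraticChar F (r + x) =
        1 - if r = -x then 1 else 0 := by
      intro r
      by_cases hr : r = -x
      · subst hr; simp
      · rw [if_neg hr, ← sq, quadraticChar_sq_one (by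
          intro h; exact hr (eq_neg_of_add_eq_zero_left h))]; simp
    rw [Finset.sum_congr rfl fun r _ => h1 r, Finset.sum_sub_distrib]
    simp
  · have h2 := q_two0 hF (d := y - x) (sub_ne_zero.2 (Ne.symm h))
    rw [zero_sub, ← h2]
    refine Fintype.sum_equiv (Equiv.addRight x) _ _ (fun r => ?_)
    simp only [Equiv.coe_addRight]
    congr 2
    ring

/-- the cubic sums -/
def qT (a t : F) : ℤ := ∑ r : F, quadraticChar F r * quadraticChar F (r + a) * quadraticChar F (r + t)

theorem q_abs (x : F) : (quadraticChar F x) ^ 2 ≤ 1 := by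
  by_cases h : x = 0
  · subst h; simp
  · rw [quadraticChar_sq_one h]

theorem q_moment (hF : ringChar F ≠ 2) {a : F} (ha : a ≠ 0) :
    ∑ t : F, qT a t ^ 2 ≤ (Fintype.card F : ℤ) * (Fintype.card F - 2) - 1 := by
  set u : F → ℤ := fun r => quadraticChar F r * quadraticChar F (r + a) with hu
  have h1 : ∑ t : F, qT a t ^ 2 = ∑ x : F, ∑ y : F, u x * u y *
      ∑ t : F, quadraticChar F (t + x) * quadraticChar F (t + y) := by
    have h5 : ∀ t : F, qT a t ^ 2 = ∑ x : F, ∑ y : F, u x * u y *
        (quadraticChar F (t + x) * quadraticChar F (t + y)) := by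
      intro t
      unfold qT
      rw [sq, Finset.sum_mul_sum]
      refine Finset.sum_congr rfl fun x _ => Finset.sum_congr rfl fun y _ => ?_
      rw [hu, add_comm t x, add_comm t y]
      ring
    rw [Finset.sum_congr rfl fun t _ => h5 t, Finset.sum_comm]
    refine Finset.sum_congr rfl fun x _ => ?_
    rw [Finset.sum_comm]
    refine Finset.sum_congr rfl fun y _ => ?_
    rw [Finset.mul_sum]
  have h2 : ∑ x : F, u x = -1 := q_two0 hF ha
  have h3 : ∑ x : F, u x * u x = Fintype.card F - 2 := by
    have h4 : ∀ x : F, u x * u x = 1 - (if x = 0 then 1 else 0) - if x = -a then 1 else 0 := by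
      intro x
      by_cases h0 : x = 0
      · subst h0
        have : (0 : F) ≠ -a := by intro h; exact ha (neg_eq_zero.1 h.symm)
        simp [hu, this]
      · by_cases h5 : x = -a
        · subst h5; simp [hu, h0]
        · have h6 : x + a ≠ 0 := fun h => h5 (eq_neg_of_add_eq_zero_left h)
          have h7 := quadraticChar_sq_one h0
          have h8 := quadraticChar_sq_one h6
          rw [if_neg h0, if_neg h5, hu]
          calc _ = quadraticChar F x ^ 2 * quadraticChar F (x + a) ^ 2 := by ring
            _ = _ := by rw [h7, h8]; simp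
    rw [Finset.sum_congr rfl fun x _ => h4 x, Finset.sum_sub_distrib, Finset.sum_sub_distrib]
    simp; ring
  rw [h1]
  simp only [q_two hF, mul_sub, mul_one, Finset.sum_sub_distrib, mul_ite, mul_zero,
    Finset.sum_ite_eq, Finset.mem_univ, if_true]
  rw [← Finset.sum_mul, h3, ← Finset.sum_mul_sum, h2]
  nlinarith

theorem q_symm (a t : F) : qT a (a - t) ^ 2 = qT a t ^ 2 := by
  have h : qT a (a - t) = quadraticChar F (-1) * qT a t := by
    unfold qT
    rw [Finset.mul_sum]
    refine Fintype.sum_equiv ((Equiv.neg F).trans (Equiv.addRight (-a))) _ _ (fun r => ?_)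
    simp only [Equiv.trans_apply, Equiv.neg_apply, Equiv.coe_addRight]
    have e1 : -r + -a = -1 * (r + a) := by ring
    have e2 : -r + -a + a = -1 * r := by ring
    have e3 : -r + -a + t = -1 * (r + (a - t)) := by ring
    rw [e3, e2, e1, map_mul, map_mul, map_mul]
    have h1 : quadraticChar F (-1) ^ 2 = 1 := quadraticChar_sq_one (by simp)
    calc _ = (quadraticChar F (-1) ^ 2) ^ 2 * (quadraticChar F r * quadraticChar F (r + a) *
          quadraticChar F (r + (a - t))) := by rw [h1]; ring
      _ = _ := by ring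
  have h1 : quadraticChar F (-1) ^ 2 = 1 := quadraticChar_sq_one (by simp)
  rw [h, mul_pow, h1, one_mul]

theorem q_bound (hF : ringChar F ≠ 2) (h11 : 11 ≤ Fintype.card F) {a b : F} (ha : a ≠ 0)
    (hab : b ≠ a - b) : qT a b ≠ 3 - Fintype.card F := by
  intro h
  have h1 := q_moment hF ha
  have h2 : ∑ t ∈ ({b, a - b} : Finset F), qT a t ^ 2 ≤ ∑ t : F, qT a t ^ 2 :=
    Finset.sum_le_sum_of_subset_of_nonneg (Finset.subset_univ _) fun _ _ _ => sq_nonneg _
  rw [Finset.sum_pair hab, q_symm, h] at h2
  have h3 : (11 : ℤ) ≤ Fintype.card F := by exact_mod_cast h11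
  nlinarith

theorem q_nonsq {x : F} (h : ¬ IsSquare x) : 1 + quadraticChar F x = 0 := by
  rw [quadraticChar_neg_one_iff_not_isSquare.2 h]; simp

theorem q_triple (hF : ringChar F ≠ 2) (h3 : (3 : F) ≠ 0) (h11 : 11 ≤ Fintype.card F) {a b : F}
    (ha : a ≠ 0) (hb : b ≠ 0) (hab : a ≠ b) :
    ∃ x : F, IsSquare x ∧ IsSquare (x + a) ∧ IsSquare (x + b) := by
  by_contra hcon
  have h0 : ∑ r : F, (1 + quadraticChar F r) * (1 + quadraticChar F (r + a)) *
      (1 + quadraticChar F (r + b)) = 0 := by
    refine Finset.sum_eq_zero fun r _ => ?_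
    by_cases h1 : IsSquare r
    · by_cases h2 : IsSquare (r + a)
      · have h4 : ¬ IsSquare (r + b) := fun h => hcon ⟨r, h1, h2, h⟩
        rw [q_nonsq h4]; simp
      · rw [q_nonsq h2]; simp
    · rw [q_nonsq h1]; simp
  have e : ∀ r : F, (1 + quadraticChar F r) * (1 + quadraticChar F (r + a)) *
      (1 + quadraticChar F (r + b)) = 1 + quadraticChar F r + quadraticChar F (r + a) +
      quadraticChar F (r + b) + quadraticChar F r * quadraticChar F (r + a) +
      quadraticChar F r * quadraticChar F (r + b) +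
      quadraticChar F (r + a) * quadraticChar F (r + b) +
      quadraticChar F r * quadraticChar F (r + a) * quadraticChar F (r + b) := by
    intro r; ring
  rw [Finset.sum_congr rfl fun r _ => e r] at h0
  simp only [Finset.sum_add_distrib, quadraticChar_sum_zero hF, q_shift hF, q_two0 hF ha,
    q_two0 hF hb, q_two hF, if_neg hab] at h0
  have hT : qT a b = 3 - Fintype.card F := by
    unfold qT
    rw [Finset.sum_const, Finset.card_univ, nsmul_eq_mul, mul_one] at h0
    linarith
  have hT' : qT b a = 3 - Fintype.card F := by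
    rw [← hT]
    unfold qT
    exact Finset.sum_congr rfl fun r _ => by ring
  by_cases h5 : b = a - b
  · by_cases h6 : a = b - a
    · apply h3
      have : (3 : F) * a = 0 := by linear_combination 2 * h6 + h5
      exact (mul_eq_zero.1 this).resolve_right ha
    · exact q_bound hF h11 hb h6 hT'
  · exact q_bound hF h11 ha h5 hT

theorem q_pair (hF : ringChar F ≠ 2) (h11 : 11 ≤ Fintype.card F) (d : F) :
    ∃ x : F, x ≠ 0 ∧ x + d ≠ 0 ∧ IsSquare x ∧ IsSquare (x + d) := by
  by_cases hd : d = 0
  · exact ⟨1, one_ne_zero, by simp [hd], IsSquare.one, by simp [hd]⟩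
  by_contra hcon
  have h0 : ∑ r : F, (1 + quadraticChar F r) * (1 + quadraticChar F (r + d)) ≤
      ∑ r : F, ((if r = 0 then (2 : ℤ) else 0) + if r = -d then 2 else 0) := by
    refine Finset.sum_le_sum fun r _ => ?_
    have hb : ∀ x : F, quadraticChar F x ≤ 1 := fun x => by nlinarith [q_abs x]
    by_cases h1 : r = 0
    · subst h1
      have := hb (0 + d)
      simp only [if_true, MulChar.map_zero]
      split_ifs <;> linarith
    · by_cases h2 : r = -d
      · subst h2
        have := hb (-d)
        simp only [if_true, neg_add_cancel, MulChar.map_zero, if_neg h1]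
        linarith
      · rw [if_neg h1, if_neg h2]
        have h3 : r + d ≠ 0 := fun h => h2 (eq_neg_of_add_eq_zero_left h)
        by_cases h4 : IsSquare r
        · have h5 : ¬ IsSquare (r + d) := fun h => hcon ⟨r, h1, h3, h4, h⟩
          rw [q_nonsq h5]; simp
        · rw [q_nonsq h4]; simp
  have e : ∀ r : F, (1 + quadraticChar F r) * (1 + quadraticChar F (r + d)) =
      1 + quadraticChar F r + quadraticChar F (r + d) +
      quadraticChar F r * quadraticChar F (r + d) := by
    intro r; ring
  rw [Finset.sum_congr rfl fun r _ => e r] at h0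
  simp only [Finset.sum_add_distrib, quadraticChar_sum_zero hF, q_shift hF, q_two0 hF hd] at h0
  simp at h0
  have h3 : (11 : ℤ) ≤ Fintype.card F := by exact_mod_cast h11
  linarith

/-- at most one of the three is zero -/
def AtMost (x a b : F) : Prop :=
  ¬ (x = 0 ∧ x + a = 0) ∧ ¬ (x = 0 ∧ x + b = 0) ∧ ¬ (x + a = 0 ∧ x + b = 0)

theorem q_main (hF : ringChar F ≠ 2) (h3 : (3 : F) ≠ 0) (h11 : 11 ≤ Fintype.card F) (a b : F) :
    ∃ x : F, IsSquare x ∧ IsSquare (x + a) ∧ IsSquare (x + b) ∧ AtMost x a b := by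
  by_cases ha : a = 0
  · obtain ⟨x, h1, h2, h4, h5⟩ := q_pair hF h11 b
    exact ⟨x, h4, by simpa [ha] using h4, h5, fun h => h1 h.1, fun h => h1 h.1, fun h => h2 h.2⟩
  by_cases hb : b = 0
  · obtain ⟨x, h1, h2, h4, h5⟩ := q_pair hF h11 a
    exact ⟨x, h4, h5, by simpa [hb] using h4, fun h => h1 h.1, fun h => h1 h.1, fun h => h2 h.1⟩
  by_cases hab : a = b
  · obtain ⟨x, h1, h2, h4, h5⟩ := q_pair hF h11 a
    exact ⟨x, h4, h5, hab ▸ h5, fun h => h1 h.1, fun h => h1 h.1, fun h => h2 h.1⟩
  obtain ⟨x, h1, h2, h4⟩ := q_triple hF h3 h11 ha hb hab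
  refine ⟨x, h1, h2, h4, ?_, ?_, ?_⟩
  · rintro ⟨h5, h6⟩; rw [h5, zero_add] at h6; exact ha h6
  · rintro ⟨h5, h6⟩; rw [h5, zero_add] at h6; exact hb h6
  · rintro ⟨h5, h6⟩; exact hab (by linear_combination h5 - h6)

end Pool.Agent.H266Z.Leh
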