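import Pool.Agent.H266Z.Leh.Basic
import Pool.Agent.H266Z.Leh.Quad

/-! The local analysis at one prime. -/

set_option autoImplicit false

namespace Pool.Agent.H266Z.Leh

open Finset

theorem triv_odd {φ : ℕ → ℤ} (hφ : CM φ) {p K : ℕ} (hp : p.Prime) (hp2 : p ≠ 2)
    (ht : Triv φ (p ^ K)) : Triv φ p := by
  intro w hw h
  have h1 : (p : ℤ) ∣ (w : ℤ) - 1 := by
    have := (Nat.modEq_iff_dvd.1 h.symm)
    exact_mod_cast this
  have h2 := dvd_sub_pow_of_dvd_sub h1 K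
  have h3 : w ^ p ^ K ≡ 1 [MOD p ^ K] := by
    apply Nat.ModEq.symm
    rw [Nat.modEq_iff_dvd]
    push_cast
    rw [one_pow] at h2
    exact (pow_dvd_pow _ (Nat.le_succ K)).trans h2
  have h4 := ht _ (pow_ne_zero _ hw) h3
  rw [hφ.pow] at h4
  have hodd : Odd (p ^ K) := (hp.odd_of_ne_two hp2).pow
  rcases hφ.sgn w hw with h5 | h5
  · exact h5
  · rw [h5, hodd.neg_one_pow] at h4
    exact absurd h4 (by norm_num)

theorem triv_two_step {φ : ℕ → ℤ} (hφ : CM φ) (j : ℕ) (ht : Triv φ (2 ^ (j + 4))) :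
    Triv φ (2 ^ (j + 3)) := by
  intro w hw h
  obtain ⟨t, rfl⟩ : ∃ t, w = 1 + 2 ^ (j + 3) * t := by
    have h1 : 1 ≤ w := Nat.pos_of_ne_zero hw
    obtain ⟨t, ht⟩ := (Nat.modEq_iff_dvd' h1).1 h.symm
    exact ⟨t, by omega⟩
  rcases Nat.even_or_odd' t with ⟨s, rfl | rfl⟩
  · apply ht _ hw
    apply Nat.ModEq.symm
    rw [Nat.modEq_iff_dvd' (by omega)]
    exact ⟨s, by rw [Nat.add_sub_cancel_left]; ring⟩
  · have hy : (1 + 2 ^ (j + 2) : ℕ) ≠ 0 := by positivity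
    have h1 := ht ((1 + 2 ^ (j + 3) * (2 * s + 1)) * ((1 + 2 ^ (j + 2)) * (1 + 2 ^ (j + 2))))
      (by positivity) (by
        apply Nat.ModEq.symm
        rw [Nat.modEq_iff_dvd]
        push_cast
        exact ⟨s + 1 + 2 ^ j + 2 ^ (j + 2) * (2 * s + 1) + 2 ^ (2 * j + 3) * (2 * s + 1), by ring⟩)
    rw [hφ.mul, hφ.mul, hφ.sq hy, mul_one] at h1
    exact h1

theorem triv_mono {φ : ℕ → ℤ} {Q Q' : ℕ} (h : Q ∣ Q') (ht : Triv φ Q) : Triv φ Q' :=
  fun w hw h1 => ht w hw (h1.of_dvd h)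

theorem triv_two {φ : ℕ → ℤ} (hφ : CM φ) {K : ℕ} (ht : Triv φ (2 ^ K)) : Triv φ 8 := by
  have h1 : ∀ j, Triv φ (2 ^ (j + 3)) → Triv φ 8 := by
    intro j
    induction j with
    | zero => intro h; simpa using h
    | succ j ih => intro h; exact ih (triv_two_step hφ j h)
  exact h1 K (triv_mono (pow_dvd_pow 2 (by omega)) ht)

/-! ### the prime two -/

def od2 (e3 e5 : Bool) (u : ℕ) : Bool :=
  if u % 8 = 1 then false else if u % 8 = 3 then e3 else if u % 8 = 5 then e5 else xor e3 e5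

def gd2 (e2 e3 e5 : Bool) (y : ℕ) : Bool :=
  if y % 2 = 1 then !(od2 e3 e5 y) else if y % 4 = 2 then !(xor e2 (od2 e3 e5 (y / 2)))
  else if y % 8 = 4 then !(od2 e3 e5 (y / 4)) else if y % 16 = 8 then !(xor e2 (od2 e3 e5 (y / 8)))
  else if y % 32 = 16 then !(od2 e3 e5 (y / 16)) else false

def chk2 (e2 e3 e5 : Bool) : Bool :=
  (List.range 128).all fun a => (List.range 128).all fun b =>
    (a % 4 == 0 && b % 4 == 0) || (List.range 128).any fun r =>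
      gd2 e2 e3 e5 r && gd2 e2 e3 e5 (r + a) && gd2 e2 e3 e5 (r + b)

theorem chk2_all : ∀ e2 e3 e5 : Bool, chk2 e2 e3 e5 = true := by decide +kernel

/-- sign of a flag -/
def sg (e : Bool) : ℤ := if e then -1 else 1

theorem sg_xor (x y : Bool) : sg (xor x y) = sg x * sg y := by cases x <;> cases y <;> simp [sg]

theorem sg_dec {φ : ℕ → ℤ} (hφ : CM φ) {n : ℕ} (hn : n ≠ 0) : φ n = sg (decide (φ n = -1)) := by
  rcases hφ.sgn n hn with h | h <;> simp [h, sg]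

theorem od2_val {φ : ℕ → ℤ} (hφ : CM φ) (ht : Triv φ 8) {u u' : ℕ} (hu : u % 2 = 1)
    (hu' : u % 8 = u' % 8) :
    φ u = sg (od2 (decide (φ 3 = -1)) (decide (φ 5 = -1)) u') := by
  have hu0 : u ≠ 0 := by omega
  unfold od2
  rw [← hu']
  split_ifs with h1 h3 h5
  · rw [ht u hu0 h1]; simp [sg]
  · rw [← sg_dec hφ (by norm_num)]
    exact hφ.congr (by norm_num) ht hu0 (by norm_num) (by norm_num) h3
  · rw [← sg_dec hφ (by norm_num)]
    exact hφ.congr (by norm_num) ht hu0 (by norm_num) (by norm_num) h5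
  · rw [sg_xor, ← sg_dec hφ (by norm_num), ← sg_dec hφ (by norm_num), ← hφ.mul]
    exact hφ.congr (by norm_num) ht hu0 (by norm_num) (by norm_num)
      (show u % 8 = 3 * 5 % 8 by omega)

theorem gd2_val {φ : ℕ → ℤ} (hφ : CM φ) (ht : Triv φ 8) {x y : ℕ} (hxy : x % 128 = y % 128)
    (h : gd2 (decide (φ 2 = -1)) (decide (φ 3 = -1)) (decide (φ 5 = -1)) y = true) :
    φ x = 1 := by
  have h2 : φ 2 * φ 2 = 1 := hφ.sq (by norm_num)
  have h2' := sg_dec hφ (n := 2) (by norm_num)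
  unfold gd2 at h
  split_ifs at h with h1 h3 h4 h5 h6
  · rw [od2_val hφ ht (u' := y) (by omega) (by omega)]
    simp only [Bool.not_eq_true'] at h
    rw [h]; simp [sg]
  · rw [show x = 2 * (x / 2) by omega, hφ.mul,
      od2_val hφ ht (u := x / 2) (u' := y / 2) (by omega) (by omega)]
    simp only [Bool.not_eq_true'] at h
    rw [h2', ← sg_xor, h]; simp [sg]
  · rw [show x = 2 * (2 * (x / 4)) by omega, hφ.mul, hφ.mul, ← mul_assoc, h2, one_mul,
      od2_val hφ ht (u := x / 4) (u' := y / 4) (by omega) (by omega)]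
    simp only [Bool.not_eq_true'] at h
    rw [h]; simp [sg]
  · rw [show x = 2 * (2 * (2 * (x / 8))) by omega, hφ.mul, hφ.mul, ← mul_assoc, h2, one_mul,
      hφ.mul, od2_val hφ ht (u := x / 8) (u' := y / 8) (by omega) (by omega)]
    simp only [Bool.not_eq_true'] at h
    rw [h2', ← sg_xor, h]; simp [sg]
  · rw [show x = 2 * (2 * (2 * (2 * (x / 16)))) by omega, hφ.mul, hφ.mul, ← mul_assoc, h2,
      one_mul, hφ.mul, hφ.mul, ← mul_assoc, h2, one_mul,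
      od2_val hφ ht (u := x / 16) (u' := y / 16) (by omega) (by omega)]
    simp only [Bool.not_eq_true'] at h
    rw [h]; simp [sg]

theorem local_two_aux {φ : ℕ → ℤ} (hφ : CM φ) (ht : Triv φ 8) (a b : ℕ)
    (hab : ¬ (a % 4 = 0 ∧ b % 4 = 0)) : Cls φ a b 128 := by
  have h := chk2_all (decide (φ 2 = -1)) (decide (φ 3 = -1)) (decide (φ 5 = -1))
  unfold chk2 at h
  rw [List.all_eq_true] at h
  have h1 := h (a % 128) (List.mem_range.2 (Nat.mod_lt _ (by norm_num)))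
  rw [List.all_eq_true] at h1
  have h2 := h1 (b % 128) (List.mem_range.2 (Nat.mod_lt _ (by norm_num)))
  rw [Bool.or_eq_true] at h2
  rcases h2 with h2 | h2
  · simp only [Bool.and_eq_true, beq_iff_eq] at h2
    exact absurd (by omega) hab
  · rw [List.any_eq_true] at h2
    obtain ⟨r0, _, h3⟩ := h2
    simp only [Bool.and_eq_true] at h3
    refine ⟨r0, fun r _ hr => ?_⟩
    have hr' : r % 128 = r0 % 128 := hr
    exact ⟨gd2_val hφ ht hr' h3.1.1, gd2_val hφ ht (by omega) h3.1.2,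
      gd2_val hφ ht (by omega) h3.2⟩

theorem local_two {φ : ℕ → ℤ} (hφ : CM φ) (ht : Triv φ 8) (a b : ℕ) :
    ∃ m : ℕ, Cls φ a b (2 ^ m) := by
  by_cases h8 : a % 8 = 0 ∧ b % 8 = 0
  · refine ⟨3, 1, fun r hr h => ?_⟩
    have h' : r % 8 = 1 := h
    exact ⟨ht r hr h', ht _ (by omega) (show (r + a) % 8 = 1 by omega),
      ht _ (by omega) (show (r + b) % 8 = 1 by omega)⟩
  by_cases h4 : a % 4 = 0 ∧ b % 4 = 0
  · obtain ⟨r0, hr0⟩ := local_two_aux hφ ht (a / 4) (b / 4) (by omega)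
    refine ⟨9, 4 * r0, fun r hr h => ?_⟩
    have h' : r % 512 = 4 * r0 % 512 := h
    obtain ⟨h1, h2, h3⟩ := hr0 (r / 4) (by omega) (show r / 4 % 128 = r0 % 128 by omega)
    have h22 : φ 2 * φ 2 = 1 := hφ.sq (by norm_num)
    have h44 : ∀ x, φ (4 * x) = φ x := fun x => by
      rw [show 4 * x = 2 * (2 * x) by ring, hφ.mul, hφ.mul, ← mul_assoc, h22, one_mul]
    refine ⟨?_, ?_, ?_⟩
    · rw [show r = 4 * (r / 4) by omega, h44, h1]
    · rw [show r + a = 4 * (r / 4 + a / 4) by omega, h44, h2]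
    · rw [show r + b = 4 * (r / 4 + b / 4) by omega, h44, h3]
  · exact ⟨7, local_two_aux hφ ht a b h4⟩

/-! ### the prime three -/

def gd3 (e3 e2 : Bool) (y : ℕ) : Bool :=
  if y % 3 = 1 then true else if y % 3 = 2 then !e2 else if y % 9 = 3 then !e3
  else if y % 9 = 6 then !(xor e3 e2) else if y % 27 = 9 then true
  else if y % 27 = 18 then !e2 else false

def chk3 (e3 e2 : Bool) : Bool :=
  (List.range 27).all fun a => (List.range 27).all fun b =>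
    (a % 3 == 1 && b % 3 == 2) || (a % 3 == 2 && b % 3 == 1) || (List.range 27).any fun r =>
      gd3 e3 e2 r && gd3 e3 e2 (r + a) && gd3 e3 e2 (r + b)

theorem chk3_all : ∀ e3 e2 : Bool, chk3 e3 e2 = true := by decide +kernel

theorem gd3_val {φ : ℕ → ℤ} (hφ : CM φ) (ht : Triv φ 3) {x y : ℕ} (hxy : x % 27 = y % 27)
    (h : gd3 (decide (φ 3 = -1)) (decide (φ 2 = -1)) y = true) : φ x = 1 := by
  have h3 : φ 3 * φ 3 = 1 := hφ.sq (by norm_num)
  have h3' := sg_dec hφ (n := 3) (by norm_num)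
  have h2' := sg_dec hφ (n := 2) (by norm_num)
  have k1 : ∀ u, u % 3 = 1 → φ u = 1 := fun u hu => ht u (by omega) hu
  have k2 : ∀ u, u % 3 = 2 → φ u = φ 2 := fun u hu =>
    hφ.congr (by norm_num) ht (by omega) (by norm_num) (by norm_num) hu
  unfold gd3 at h
  split_ifs at h with h1 h2 h4 h5 h6 h7
  · exact k1 x (by omega)
  · simp only [Bool.not_eq_true'] at h
    rw [k2 x (by omega), h2', h]; simp [sg]
  · simp only [Bool.not_eq_true'] at h
    rw [show x = 3 * (x / 3) by omega, hφ.mul, k1 (x / 3) (by omega), h3', h]; simp [sg]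
  · simp only [Bool.not_eq_true'] at h
    rw [show x = 3 * (x / 3) by omega, hφ.mul, k2 (x / 3) (by omega), h3', h2', ← sg_xor, h]
    simp [sg]
  · rw [show x = 3 * (3 * (x / 9)) by omega, hφ.mul, hφ.mul, ← mul_assoc, h3, one_mul,
      k1 (x / 9) (by omega)]
  · simp only [Bool.not_eq_true'] at h
    rw [show x = 3 * (3 * (x / 9)) by omega, hφ.mul, hφ.mul, ← mul_assoc, h3, one_mul,
      k2 (x / 9) (by omega), h2', h]; simp [sg]

theorem local_three {φ : ℕ → ℤ} (hφ : CM φ) (ht : Triv φ 3) (a b : ℕ) (hab : ¬ Exc a b) :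
    Cls φ a b (3 ^ 3) := by
  have h := chk3_all (decide (φ 3 = -1)) (decide (φ 2 = -1))
  unfold chk3 at h
  rw [List.all_eq_true] at h
  have h1 := h (a % 27) (List.mem_range.2 (Nat.mod_lt _ (by norm_num)))
  rw [List.all_eq_true] at h1
  have h2 := h1 (b % 27) (List.mem_range.2 (Nat.mod_lt _ (by norm_num)))
  rw [Bool.or_eq_true, Bool.or_eq_true] at h2
  rcases h2 with (h2 | h2) | h2
  · simp only [Bool.and_eq_true, beq_iff_eq] at h2
    refine absurd (Or.inl ?_) hab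
    rw [show a % 3 = 1 by omega, show b % 3 = 2 by omega]
  · simp only [Bool.and_eq_true, beq_iff_eq] at h2
    refine absurd (Or.inl ?_) hab
    rw [show a % 3 = 2 by omega, show b % 3 = 1 by omega]
    decide
  · rw [List.any_eq_true] at h2
    obtain ⟨r0, _, h3⟩ := h2
    simp only [Bool.and_eq_true] at h3
    refine ⟨r0, fun r _ hr => ?_⟩
    have hr' : r % 27 = r0 % 27 := hr
    exact ⟨gd3_val hφ ht hr' h3.1.1, gd3_val hφ ht (by omega) h3.1.2,
      gd3_val hφ ht (by omega) h3.2⟩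

/-! ### the primes from five on -/

theorem val_unit {φ : ℕ → ℤ} (hφ : CM φ) {p : ℕ} [hp : Fact p.Prime] (ht : Triv φ p) {x : ℕ}
    (h0 : (x : ZMod p) ≠ 0) (hs : IsSquare (x : ZMod p)) : φ x = 1 := by
  obtain ⟨y, hy⟩ := hs
  have hy0 : y ≠ 0 := by rintro rfl; exact h0 (by simpa using hy)
  have hv : y.val ≠ 0 := by rwa [ne_eq, ZMod.val_eq_zero]
  have hx : x ≠ 0 := by rintro rfl; exact h0 (by simp)
  have hc : Nat.Coprime (y.val * y.val) p := by
    have : Nat.Coprime y.val p := by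
      rw [Nat.coprime_comm, Nat.Prime.coprime_iff_not_dvd hp.out]
      intro hd
      exact hv (Nat.eq_zero_of_dvd_of_lt hd (ZMod.val_lt y))
    exact Nat.Coprime.mul_left this this
  have h1 : x ≡ y.val * y.val [MOD p] := by
    rw [← ZMod.natCast_eq_natCast_iff]
    push_cast
    rw [ZMod.natCast_zmod_val]
    exact hy
  rw [hφ.congr hp.out.pos ht hx (mul_ne_zero hv hv) hc h1, hφ.mul, hφ.sq hv]

theorem val_sq {φ : ℕ → ℤ} (hφ : CM φ) {p : ℕ} (hp : p.Prime) (ht : Triv φ p) {x : ℕ}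
    (h : x ≡ p ^ 2 [MOD p ^ 3]) : φ x = 1 := by
  have hlt : p ^ 2 < p ^ 3 := Nat.pow_lt_pow_right hp.one_lt (by norm_num)
  have h1 : x % p ^ 3 = p ^ 2 := by rw [h, Nat.mod_eq_of_lt hlt]
  have h2 : x = p * p * (1 + p * (x / p ^ 3)) := by
    have := Nat.mod_add_div x (p ^ 3)
    rw [h1] at this
    rw [← this, Nat.add_mul_div_left _ _ (by have := hp.pos; positivity), Nat.div_eq_of_lt hlt]
    ring
  rw [h2, hφ.mul, hφ.mul, hφ.sq hp.ne_zero, one_mul]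
  refine ht _ (by positivity) ?_
  unfold Nat.ModEq
  rw [Nat.add_mul_mod_self_left]

theorem local_of_sq {φ : ℕ → ℤ} (hφ : CM φ) {p : ℕ} [hp : Fact p.Prime] (ht : Triv φ p) (a b : ℕ)
    (x : ZMod p) (h0 : IsSquare x) (ha : IsSquare (x + a)) (hb : IsSquare (x + b))
    (hm : AtMost x a b) : Cls φ a b (p ^ 3) := by
  have hpd : p ∣ p ^ 3 := dvd_pow_self p (by norm_num)
  have key : ∀ s r : ℕ, x + s = 0 → r ≡ p ^ 2 + (p ^ 3 - 1) * s [MOD p ^ 3] →
      (r : ZMod p) = x ∧ φ (r + s) = 1 := by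
    intro s r hs hr
    have h3 : 1 ≤ p ^ 3 := Nat.one_le_pow _ _ hp.out.pos
    have h4 : r + s ≡ p ^ 2 [MOD p ^ 3] := by
      have h5 : p ^ 2 + (p ^ 3 - 1) * s + s = p ^ 2 + p ^ 3 * s := by
        obtain ⟨t, ht⟩ := Nat.exists_eq_add_of_le h3
        rw [ht, Nat.add_sub_cancel_left]; ring
      refine (hr.add_right s).trans ?_
      rw [h5]
      unfold Nat.ModEq
      rw [Nat.add_mul_mod_self_left]
    refine ⟨?_, val_sq hφ hp.out ht h4⟩
    have h6 := (ZMod.natCast_eq_natCast_iff _ _ _).2 (h4.of_dvd hpd)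
    push_cast at h6
    rw [ZMod.natCast_self] at h6
    linear_combination h6 - hs
  have un : ∀ r s : ℕ, (r : ZMod p) = x → x + s ≠ 0 → IsSquare (x + s) → φ (r + s) = 1 := by
    intro r s hr h1 h2
    refine val_unit hφ ht ?_ ?_ <;> push_cast <;> rw [hr] <;> assumption
  have un0 : ∀ r : ℕ, (r : ZMod p) = x → x ≠ 0 → φ r = 1 := fun r hr h1 =>
    un r 0 hr (by simpa using h1) (by simpa using h0)
  obtain ⟨m1, m2, m3⟩ := hm
  by_cases c0 : x = 0
  · refine ⟨p ^ 2 + (p ^ 3 - 1) * 0, fun r _ hr => ?_⟩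
    obtain ⟨k1, k2⟩ := key 0 r (by simpa using c0) hr
    exact ⟨k2, un r a k1 (fun h => m1 ⟨c0, h⟩) ha, un r b k1 (fun h => m2 ⟨c0, h⟩) hb⟩
  by_cases ca : x + a = 0
  · refine ⟨p ^ 2 + (p ^ 3 - 1) * a, fun r _ hr => ?_⟩
    obtain ⟨k1, k2⟩ := key a r ca hr
    exact ⟨un0 r k1 c0, k2, un r b k1 (fun h => m3 ⟨ca, h⟩) hb⟩
  by_cases cb : x + b = 0
  · refine ⟨p ^ 2 + (p ^ 3 - 1) * b, fun r _ hr => ?_⟩
    obtain ⟨k1, k2⟩ := key b r cb hr
    exact ⟨un0 r k1 c0, un r a k1 ca ha, k2⟩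
  · refine ⟨x.val, fun r _ hr => ?_⟩
    have k1 : (r : ZMod p) = x := by
      rw [(ZMod.natCast_eq_natCast_iff _ _ _).2 (hr.of_dvd hpd), ZMod.natCast_zmod_val]
    exact ⟨un0 r k1 c0, un r a k1 ca ha, un r b k1 cb hb⟩

theorem five_sq : ∀ a b : Fin 5,
    ({a.val, b.val} : Finset ℕ) ∉ ({{1, 3}, {2, 3}, {2, 4}} : Finset (Finset ℕ)) →
    ∃ x : ZMod 5, (∃ y, x = y * y) ∧ (∃ z, x + (a.val : ZMod 5) = z * z) ∧ (∃ t, x + (b.val : ZMod 5) = t * t) ∧
      ¬ (x = 0 ∧ x + (a.val : ZMod 5) = 0) ∧ ¬ (x = 0 ∧ x + (b.val : ZMod 5) = 0) ∧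
      ¬ (x + (a.val : ZMod 5) = 0 ∧ x + (b.val : ZMod 5) = 0) := by
  intro a b
  fin_cases a <;> fin_cases b <;> first | (intro h; exact absurd (by decide) h) | (intro _; decide +kernel)

theorem seven_sq : ∀ a b : Fin 7,
    ({a.val, b.val} : Finset ℕ) ∉ ({{1, 5}, {2, 3}, {4, 6}} : Finset (Finset ℕ)) →
    ∃ x : ZMod 7, (∃ y, x = y * y) ∧ (∃ z, x + (a.val : ZMod 7) = z * z) ∧ (∃ t, x + (b.val : ZMod 7) = t * t) ∧
      ¬ (x = 0 ∧ x + (a.val : ZMod 7) = 0) ∧ ¬ (x = 0 ∧ x + (b.val : ZMod 7) = 0) ∧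
      ¬ (x + (a.val : ZMod 7) = 0 ∧ x + (b.val : ZMod 7) = 0) := by
  intro a b
  fin_cases a <;> fin_cases b <;> first | (intro h; exact absurd (by decide) h) | (intro _; decide +kernel)

theorem local_all {φ : ℕ → ℤ} (hφ : CM φ) {p K : ℕ} (hp : p.Prime) (ht : Triv φ (p ^ K))
    (a b : ℕ) (hab : ¬ Exc a b) : ∃ m : ℕ, Cls φ a b (p ^ m) := by
  by_cases h2 : p = 2
  · subst h2; exact local_two hφ (triv_two hφ ht) a b
  have ht1 := triv_odd hφ hp h2 ht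
  by_cases h3 : p = 3
  · subst h3; exact ⟨3, local_three hφ ht1 a b hab⟩
  haveI : Fact p.Prime := ⟨hp⟩
  by_cases h5 : p = 5
  · subst h5
    obtain ⟨x, ⟨y, k1⟩, ⟨z, k2⟩, ⟨t, k3⟩, k4⟩ := five_sq ⟨a % 5, Nat.mod_lt _ (by norm_num)⟩
      ⟨b % 5, Nat.mod_lt _ (by norm_num)⟩ (fun h => hab (Or.inr (Or.inl h)))
    simp only [ZMod.natCast_mod] at k2 k3 k4
    exact ⟨3, local_of_sq hφ ht1 a b x ⟨y, k1⟩ ⟨z, k2⟩ ⟨t, k3⟩ k4⟩
  by_cases h7 : p = 7
  · subst h7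
    obtain ⟨x, ⟨y, k1⟩, ⟨z, k2⟩, ⟨t, k3⟩, k4⟩ := seven_sq ⟨a % 7, Nat.mod_lt _ (by norm_num)⟩
      ⟨b % 7, Nat.mod_lt _ (by norm_num)⟩ (fun h => hab (Or.inr (Or.inr h)))
    simp only [ZMod.natCast_mod] at k2 k3 k4
    exact ⟨3, local_of_sq hφ ht1 a b x ⟨y, k1⟩ ⟨z, k2⟩ ⟨t, k3⟩ k4⟩
  have h11 : 11 ≤ p := by
    by_contra hlt
    have h := hp.two_le
    have : p ≤ 10 := by omega
    interval_cases p <;> first | exact absurd rfl h2 | exact absurd rfl h3 | exact absurd rfl h5 | exact absurd rfl h7 | exact absurd hp (by norm_num)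
  have hc : ringChar (ZMod p) ≠ 2 := by rw [ZMod.ringChar_zmod_n]; exact h2
  have h30 : (3 : ZMod p) ≠ 0 := by
    intro h
    have h' : ((3 : ℕ) : ZMod p) = 0 := by exact_mod_cast h
    rw [ZMod.natCast_eq_zero_iff] at h'
    have := Nat.le_of_dvd (by norm_num) h'
    omega
  obtain ⟨x, k1, k2, k3, k4⟩ := q_main hc h30 (by rw [ZMod.card]; exact h11) (a : ZMod p) b
  exact ⟨3, local_of_sq hφ ht1 a b x k1 k2 k3 k4⟩

end Pool.Agent.H266Z.Leh
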