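import Pool.Agent.H266Z.Leh.Local
import Pool.Agent.H266Z.Leh.Hil

/-! The pretentious case. -/

set_option autoImplicit false

namespace Pool.Agent.H266Z.Leh

open Finset Filter Topology

theorem triv_of {F G : ℕ → ℤ} (hF : CM F) (hG : CM G) {Q₁ Q₂ : ℕ} (h1 : 0 < Q₁) (h2 : 0 < Q₂)
    (hc : Nat.Coprime Q₁ Q₂) (ht : Triv F (Q₁ * Q₂)) (A : ℕ → ℕ)
    (hA : ∀ w, A w ≠ 0 ∧ A w ≡ w [MOD Q₁] ∧ A w ≡ 1 [MOD Q₂])
    (hGA : ∀ l, l.Prime → ¬ l ∣ Q₁ → G l = F (A l)) : Triv G Q₁ := by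
  have hcop : ∀ w, Nat.Coprime w Q₁ → Nat.Coprime (A w) (Q₁ * Q₂) := fun w hw =>
    Nat.Coprime.mul_right (by rw [Nat.Coprime, (hA w).2.1.gcd_eq]; exact hw)
      (by rw [Nat.Coprime, (hA w).2.2.gcd_eq]; simp)
  have h0 : ∀ w, w ≡ 1 [MOD Q₁] → F (A w) = 1 := fun w hw =>
    ht _ (hA w).1 ((Nat.modEq_and_modEq_iff_modEq_mul hc).1 ⟨(hA w).2.1.trans hw, (hA w).2.2⟩)
  have key := mul_ext (f := G) (g := fun w => F (A w)) (fun n => Nat.Coprime n Q₁)
    (fun p n _ _ h => h.coprime_mul_left) (by rw [hG.one, h0 1 rfl]) (fun p n hp _ h ih => by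
      have c1 : Nat.Coprime p Q₁ := h.coprime_mul_right
      have c2 : Nat.Coprime n Q₁ := h.coprime_mul_left
      rw [hG.mul, ih, hGA p hp ((Nat.Prime.coprime_iff_not_dvd hp).1 c1), ← hF.mul]
      refine hF.congr (Nat.mul_pos h1 h2) ht (mul_ne_zero (hA p).1 (hA n).1) (hA _).1 (hcop _ h)
        ((Nat.modEq_and_modEq_iff_modEq_mul hc).1 ⟨?_, ?_⟩)
      · exact ((hA p).2.1.mul (hA n).2.1).trans (hA _).2.1.symm
      · exact ((hA p).2.2.mul (hA n).2.2).trans (hA _).2.2.symm)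
  intro w hw0 hw
  rw [key w hw0 (by rw [Nat.Coprime, hw.gcd_eq]; simp), h0 w hw]

theorem exists_A {Q₁ Q₂ : ℕ} (h1 : 0 < Q₁) (h2 : 0 < Q₂) (hc : Nat.Coprime Q₁ Q₂) :
    ∃ A : ℕ → ℕ, ∀ w, A w ≠ 0 ∧ A w ≡ w [MOD Q₁] ∧ A w ≡ 1 [MOD Q₂] := by
  refine ⟨fun w => Nat.chineseRemainder hc w 1 + Q₁ * Q₂, fun w => ⟨?_, ?_, ?_⟩⟩
  · exact (Nat.add_pos_right _ (Nat.mul_pos h1 h2)).ne'
  · exact (Nat.add_mul_mod_self_left _ _ _).trans (Nat.chineseRemainder hc w 1).2.1
  · exact (Nat.add_mul_mod_self_right _ _ _).trans (Nat.chineseRemainder hc w 1).2.2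

theorem global_cls {a b : ℕ} (hab : ¬ Exc a b) (Q₀ : ℕ) : 0 < Q₀ → ∀ F : ℕ → ℤ, CM F → Triv F Q₀ →
    ∃ Q, 0 < Q ∧ (∀ p, p.Prime → p ∣ Q → p ∣ Q₀) ∧ Cls F a b Q := by
  induction Q₀ using Nat.recOnPosPrimePosCoprime with
  | prime_pow p n hp hn =>
    intro _ F hF ht
    obtain ⟨m, hm⟩ := local_all hF hp ht a b hab
    exact ⟨p ^ m, pow_pos hp.pos _, fun l hl h =>
      (hl.dvd_of_dvd_pow h).trans (dvd_pow_self p hn.ne'), hm⟩
  | zero => intro h; exact absurd h (lt_irrefl 0)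
  | one =>
    intro _ F _ ht
    exact ⟨1, one_pos, fun _ _ h => h, 0, fun r hr _ => ⟨ht _ hr (Nat.modEq_one),
      ht _ (by omega) Nat.modEq_one, ht _ (by omega) Nat.modEq_one⟩⟩
  | coprime Q₁ Q₂ g1 g2 hc ih1 ih2 =>
    intro _ F hF ht
    have h1 : 0 < Q₁ := by omega
    have h2 : 0 < Q₂ := by omega
    obtain ⟨A, hA⟩ := exists_A h1 h2 hc
    obtain ⟨B, hB⟩ := exists_A h2 h1 hc.symm
    let F₁ := cm (fun l => if l ∣ Q₁ then F l * F (B l) else F (A l))
    have c1 : CM F₁ := cm_CM fun l hl => by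
      split_ifs
      · rw [← hF.mul]; exact hF.sgn _ (mul_ne_zero hl.ne_zero (hB l).1)
      · exact hF.sgn _ (hA l).1
    have c2 : CM (fun n => F n * F₁ n) := hF.mul' c1
    have t1 : Triv F₁ Q₁ := triv_of hF c1 h1 h2 hc ht A hA fun l hl hd => by
      simp only [F₁, cm_prime _ hl, if_neg hd]
    have t2 : Triv (fun n => F n * F₁ n) Q₂ := triv_of hF c2 h2 h1 hc.symm (by rwa [mul_comm]) B hB
      fun l hl hd => by
        simp only [F₁, cm_prime _ hl]
        split_ifs with hd1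
        · rw [← mul_assoc, hF.sq hl.ne_zero, one_mul]
        · have e : F (A l * B l) = F l := by
            refine hF.congr (Nat.mul_pos h1 h2) ht (mul_ne_zero (hA l).1 (hB l).1) hl.ne_zero
              (Nat.Coprime.mul_right ((Nat.Prime.coprime_iff_not_dvd hl).2 hd1)
                ((Nat.Prime.coprime_iff_not_dvd hl).2 hd))
              ((Nat.modEq_and_modEq_iff_modEq_mul hc).1 ⟨?_, ?_⟩)
            · simpa using (hA l).2.1.mul (hB l).2.2
            · simpa using (hA l).2.2.mul (hB l).2.1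
          rw [← e, hF.mul]
          linear_combination F (B l) * hF.sq (hA l).1
    obtain ⟨R₁, p1, d1, r₁, k1⟩ := ih1 h1 _ c1 t1
    obtain ⟨R₂, p2, d2, r₂, k2⟩ := ih2 h2 _ c2 t2
    have hR : Nat.Coprime R₁ R₂ := Nat.coprime_of_dvd fun l hl e1 e2 =>
      hl.one_lt.ne' (Nat.eq_one_of_dvd_coprimes hc (d1 l hl e1) (d2 l hl e2))
    refine ⟨R₁ * R₂, Nat.mul_pos p1 p2, fun l hl h => ?_, Nat.chineseRemainder hR r₁ r₂,
      fun r hr hm => ?_⟩
    · rcases (Nat.Prime.dvd_mul hl).1 h with h | h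
      · exact (d1 l hl h).mul_right _
      · exact (d2 l hl h).mul_left _
    · obtain ⟨m1, m2⟩ := (Nat.modEq_and_modEq_iff_modEq_mul hR).2 hm
      obtain ⟨u1, u2, u3⟩ := k1 r hr (m1.trans (Nat.chineseRemainder hR r₁ r₂).2.1)
      obtain ⟨v1, v2, v3⟩ := k2 r hr (m2.trans (Nat.chineseRemainder hR r₁ r₂).2.2)
      simp only [u1, u2, u3, mul_one] at v1 v2 v3
      exact ⟨v1, v2, v3⟩

theorem count_ap {p Q : ℕ} (hp : p.Prime) (hQ : ¬ p ∣ Q) (c T : ℕ) :
    (((range T).filter (fun t => p ∣ c + Q * t)).card : ℝ) ≤ T * (1 / p) + 1 := by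
  have h : ((range T).filter (fun t => p ∣ c + Q * t)).card ≤ (range (T / p + 1)).card := by
    refine card_le_card_of_injOn (fun t => t / p) (fun t ht => ?_) fun t ht t' ht' e => ?_
    · have := mem_range.1 (mem_filter.1 (mem_coe.1 ht)).1
      exact mem_coe.2 (mem_range.2 (Nat.lt_succ_of_le (Nat.div_le_div_right this.le)))
    · have d1 := (mem_filter.1 (mem_coe.1 ht)).2
      have d2 := (mem_filter.1 (mem_coe.1 ht')).2
      have d3 : c + Q * t ≡ c + Q * t' [MOD p] :=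
        ((Nat.modEq_zero_iff_dvd).2 d1).trans ((Nat.modEq_zero_iff_dvd).2 d2).symm
      have d4 : t ≡ t' [MOD p] := (Nat.ModEq.add_left_cancel' c d3).cancel_left_of_coprime
        ((Nat.Prime.coprime_iff_not_dvd hp).2 hQ)
      have d5 : t / p = t' / p := e
      rw [← Nat.div_add_mod t p, ← Nat.div_add_mod t' p, d5, d4]
  rw [card_range] at h
  have h2 : ((T / p : ℕ) : ℝ) ≤ T / p := Nat.cast_div_le
  have h3 : (((range T).filter (fun t => p ∣ c + Q * t)).card : ℝ) ≤ (T / p : ℕ) + 1 := by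
    exact_mod_cast h
  rw [mul_one_div]
  linarith

theorem tail_small {b : ℕ → ℝ} (hb : Summable b) {ε : ℝ} (hε : 0 < ε) :
    ∃ z₀ : ℕ, ∀ S : Finset ℕ, (∀ p ∈ S, z₀ < p) → ∑ p ∈ S, b p ≤ ε := by
  obtain ⟨s, hs⟩ := summable_iff_vanishing_norm.1 hb ε hε
  refine ⟨s.sup id, fun S hS => (le_abs_self _).trans (hs S ?_).le⟩
  rw [disjoint_left]
  intro p hp hp'
  exact absurd (le_sup (f := id) hp') (not_le.2 (hS p hp))

theorem pattern_of_pret {f : ℕ → ℤ} (hf : CM f) (hP : Pret f) {a b : ℕ} (hab : ¬ Exc a b) :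
    ∃ r, r ≠ 0 ∧ f r = 1 ∧ f (r + a) = 1 ∧ f (r + b) = 1 := by
  classical
  obtain ⟨q, ψ, hq, s1, s2, s3, hsum⟩ := hP
  obtain ⟨z₀, hz₀⟩ := tail_small hsum (ε := 1 / 12) (by norm_num)
  set z := max z₀ q with hz
  let F := cm (fun l => if l ≤ z then f l else ψ l)
  have cF : CM F := cm_CM fun l hl => by
    split_ifs
    · exact hf.sgn _ hl.ne_zero
    · exact s1 l
  have hfac : 0 < z.factorial := Nat.factorial_pos z
  have hqz : q ∣ z.factorial := Nat.dvd_factorial hq (le_max_right _ _)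
  have tF : Triv F z.factorial := by
    have key := mul_ext (f := F) (g := ψ) (fun n => Nat.Coprime n z.factorial)
      (fun p n _ _ h => h.coprime_mul_left) (by rw [cF.one, s3 1 rfl]) (fun p n hp _ h ih => by
        have c1 : Nat.Coprime p z.factorial := h.coprime_mul_right
        have c2 : Nat.Coprime n z.factorial := h.coprime_mul_left
        have c3 : ¬ p ≤ z := fun hle =>
          (Nat.Prime.coprime_iff_not_dvd hp).1 c1 (Nat.dvd_factorial hp.pos hle)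
        rw [cF.mul, ih, s2 _ _ (c1.coprime_dvd_right hqz) (c2.coprime_dvd_right hqz)]
        simp only [F, cm_prime _ hp, if_neg c3])
    intro w hw0 hw
    rw [key w hw0 (by rw [Nat.Coprime, hw.gcd_eq]; simp), s3 w (hw.of_dvd hqz)]
  obtain ⟨Q, hQ, hQd, r₀, hcls⟩ := global_cls hab _ hfac F cF tF
  set L := r₀ + Q + Q + a + b with hL
  have hL0 : (0 : ℝ) < L := by exact_mod_cast (show 0 < L by omega)
  obtain ⟨z', hz'⟩ := tail_small hsum (ε := 1 / (12 * L)) (by positivity)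
  set T := 12 * z' + 13 with hT
  by_contra hcon
  push Not at hcon
  set E := (range (L * T + 1)).filter (fun p => p.Prime ∧ f p ≠ ψ p ∧ z < p) with hE
  have hbad : ∀ t ∈ range T, (1 : ℝ) ≤ ∑ p ∈ E, ((if p ∣ r₀ + Q + Q * t then 1 else 0) +
      (if p ∣ r₀ + Q + a + Q * t then 1 else 0) + (if p ∣ r₀ + Q + b + Q * t then 1 else 0)) := by
    intro t ht
    by_contra hlt
    have n0 : ∀ p ∈ E, (0 : ℝ) ≤ (if p ∣ r₀ + Q + Q * t then 1 else 0) +
        (if p ∣ r₀ + Q + a + Q * t then 1 else 0) + (if p ∣ r₀ + Q + b + Q * t then 1 else 0) :=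
      fun p _ => by split_ifs <;> norm_num
    have n1 : ∀ p ∈ E, ¬ p ∣ r₀ + Q + Q * t ∧ ¬ p ∣ r₀ + Q + a + Q * t ∧
        ¬ p ∣ r₀ + Q + b + Q * t := by
      intro p hp
      have := (single_le_sum n0 hp).trans_lt (not_le.1 hlt)
      split_ifs at this <;> first | tauto | (exfalso; linarith)
    have ht' := mem_range.1 ht
    have hQt : Q * t ≤ Q * T := Nat.mul_le_mul_left _ ht'.le
    have hLT : r₀ + Q + a + b + Q * T ≤ L * T := by
      have : r₀ + Q + a + b ≤ (r₀ + Q + a + b) * T := Nat.le_mul_of_pos_right _ (by omega)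
      calc _ ≤ (r₀ + Q + a + b) * T + Q * T := by omega
        _ ≤ (r₀ + Q + a + b) * T + Q * T := le_rfl
        _ = L * T := by rw [hL]; ring
    have n2 : ∀ n, n ≠ 0 → n ≤ L * T → (∀ p ∈ E, ¬ p ∣ n) → f n = F n := by
      intro n hn hnL h
      refine hf.ext cF hn fun p hp hd => ?_
      simp only [F, cm_prime _ hp]
      split_ifs with hpz
      · rfl
      · by_contra hne
        exact h p (mem_filter.2 ⟨mem_range.2 (Nat.lt_succ_of_le ((Nat.le_of_dvd
          (Nat.pos_of_ne_zero hn) hd).trans hnL)), hp, hne, not_le.1 hpz⟩) hd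
    obtain ⟨u1, u2, u3⟩ := hcls (r₀ + Q + Q * t) (by omega) (by
      rw [show r₀ + Q + Q * t = r₀ + Q * (1 + t) by ring]
      exact Nat.add_mul_mod_self_left _ _ _)
    refine hcon (r₀ + Q + Q * t) (by omega) ?_ ?_ ?_
    · rw [n2 _ (by omega) (by omega) fun p hp => (n1 p hp).1, u1]
    · rw [n2 _ (by omega) (by omega) fun p hp => by
        rw [add_right_comm]; exact (n1 p hp).2.1, u2]
    · rw [n2 _ (by omega) (by omega) fun p hp => by
        rw [add_right_comm]; exact (n1 p hp).2.2, u3]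
  have h1 := sum_le_sum hbad
  rw [sum_const, card_range, nsmul_eq_mul, mul_one, sum_comm] at h1
  have h2 : ∀ p ∈ E, ∑ t ∈ range T, ((if p ∣ r₀ + Q + Q * t then (1 : ℝ) else 0) +
      (if p ∣ r₀ + Q + a + Q * t then 1 else 0) + (if p ∣ r₀ + Q + b + Q * t then 1 else 0)) ≤
      3 * (T * (1 / p) + 1) := by
    intro p hp
    obtain ⟨-, p1, -, p3⟩ := mem_filter.1 hp
    have hd : ¬ p ∣ Q := fun h => absurd ((Nat.Prime.dvd_factorial p1).1 (hQd p p1 h)) (not_le.2 p3)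
    rw [sum_add_distrib, sum_add_distrib, sum_boole, sum_boole, sum_boole]
    linarith [count_ap p1 hd (r₀ + Q) T, count_ap p1 hd (r₀ + Q + a) T,
      count_ap p1 hd (r₀ + Q + b) T]
  have h3 := h1.trans (sum_le_sum h2)
  rw [← mul_sum, sum_add_distrib, ← mul_sum, sum_const, nsmul_eq_mul, mul_one] at h3
  have hb : ∀ S ⊆ E, ∑ p ∈ S, 1 / (p : ℝ) =
      ∑ p ∈ S, if p.Prime ∧ f p ≠ ψ p then 1 / (p : ℝ) else 0 := fun S hS =>
    sum_congr rfl fun p hp => by
      obtain ⟨-, p1, p2, -⟩ := mem_filter.1 (hS hp)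
      rw [if_pos ⟨p1, p2⟩]
  have h4 : ∑ p ∈ E, 1 / (p : ℝ) ≤ 1 / 12 := by
    rw [hb E subset_rfl]
    exact hz₀ E fun p hp => (le_max_left _ _).trans_lt (mem_filter.1 hp).2.2.2
  have h5 : ∑ p ∈ E.filter (fun p => z' < p), 1 / (p : ℝ) ≤ 1 / (12 * L) := by
    rw [hb _ (filter_subset _ _)]
    exact hz' _ fun p hp => (mem_filter.1 hp).2
  have hT0 : (0 : ℝ) < T := by exact_mod_cast (show 0 < T by omega)
  have h6 : ((E.filter (fun p => z' < p)).card : ℝ) * (1 / (L * T)) ≤ 1 / (12 * L) := by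
    rw [← nsmul_eq_mul]
    refine (card_nsmul_le_sum _ _ _ fun p hp => ?_).trans h5
    obtain ⟨p0, p1, -⟩ := mem_filter.1 (mem_filter.1 hp).1
    refine one_div_le_one_div_of_le (by exact_mod_cast p1.pos) ?_
    exact_mod_cast Nat.lt_succ_iff.1 (mem_range.1 p0)
  have h7 : ((E.filter (fun p => z' < p)).card : ℝ) ≤ T / 12 := by
    rw [mul_one_div, div_le_div_iff₀ (by positivity) (by positivity)] at h6
    rw [le_div_iff₀ (by norm_num)]
    refine le_of_mul_le_mul_right ?_ hL0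
    linarith
  have h8 : E.card ≤ (E.filter (fun p => z' < p)).card + (z' + 1) := by
    rw [← card_filter_add_card_filter_not (s := E) (fun p => z' < p)]
    refine Nat.add_le_add_left ((card_le_card (t := range (z' + 1)) fun p hp => ?_).trans
      (card_range _).le) _
    have := (mem_filter.1 hp).2
    rw [mem_range]
    omega
  have h9 : (E.card : ℝ) ≤ (E.filter (fun p => z' < p)).card + (z' + 1) := by exact_mod_cast h8
  have h10 : (T : ℝ) = 12 * z' + 13 := by rw [hT]; push_cast; ring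
  have h11 := mul_le_mul_of_nonneg_left h4 hT0.le
  linarith

end Pool.Agent.H266Z.Leh
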