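import Pool.Agent.H266Z.Leh.Spec
import Pool.Agent.H266Z.Leh.Pret

/-! Rigidity, compactness and the main theorem. -/

set_option autoImplicit false

namespace Pool.Agent.H266Z.Leh

open Finset Filter Topology

theorem one_mul_one {M : (ℕ → ℝ) →ₗ[ℝ] ℝ} (hM : IsM M) {u v : ℕ → ℝ} (hu : ∀ n, |u n| = 1)
    (hv : ∀ n, |v n| = 1) (h1 : M u = 1) (h2 : M v = 1) : M (fun n => u n * v n) = 1 := by
  have b1 : Bd u := ⟨1, fun n => (hu n).le⟩
  have b2 : Bd v := ⟨1, fun n => (hv n).le⟩
  refine le_antisymm (hM.le_ev (b1.mul b2) (Eventually.of_forall fun n => ?_)) ?_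
  · exact (le_abs_self _).trans (by rw [abs_mul, hu, hv, mul_one])
  · have := hM.mono ((b1.add b2).sub (Bd.const 1)) (b1.mul b2) fun n => by
      have a1 := (abs_le.1 (hu n).le).2
      have a2 := (abs_le.1 (hv n).le).2
      nlinarith
    rw [IsM.sub, IsM.add, hM.const, h1, h2] at this
    linarith

theorem pattern_of_not_pret {f : ℕ → ℤ} (hf : CM f) (hP : ¬ Pret f) {a b : ℕ} (ha : 0 < a)
    (hab : a < b) : ∃ r, r ≠ 0 ∧ f r = 1 ∧ f (r + a) = 1 ∧ f (r + b) = 1 := by
  obtain ⟨M, hM⟩ := exists_mean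
  by_contra hcon
  have b0 : Bd (fun n => (f n : ℝ)) := ⟨1, hf.abs_le'⟩
  have m1 : ∀ j, M (fun n => (f (n + j) : ℝ)) = 0 := fun j => by
    rw [hM.shift b0 j, mean_zero hM hf hP]
  have m2 : ∀ j j' : ℕ, j ≠ j' → M (fun n => (f (n + j) : ℝ) * f (n + j')) = 0 := fun j j' h => by
    rw [← cor_eq hM hf, cor, cor_zero hM hf hP (by omega)]
  let F : ℕ → ℕ → ℝ := fun j n => -(f (n + (j + 1)) : ℝ)
  have hF : ∀ j n, F j n = 1 ∨ F j n = -1 := fun j n => by
    rcases hf.sgn (n + (j + 1)) (by omega) with h | h <;> simp [F, h]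
  have hFa : ∀ j n, |F j n| = 1 := fun j n => by rcases hF j n with h | h <;> simp [h]
  have hFs : ∀ j n, F j n * F j n = 1 := fun j n => by rcases hF j n with h | h <;> simp [h]
  have base : ∀ j, M (fun n => F j n * F (j + a) n * F (j + b) n) = 1 := by
    intro j
    have e : (fun n => F j n * F (j + a) n * F (j + b) n) = fun n => 1 + (f (n + (j + 1)) : ℝ) +
        f (n + (j + a + 1)) + f (n + (j + b + 1)) + (f (n + (j + 1)) : ℝ) * f (n + (j + a + 1)) +
        (f (n + (j + 1)) : ℝ) * f (n + (j + b + 1)) +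
        (f (n + (j + a + 1)) : ℝ) * f (n + (j + b + 1)) := by
      ext n
      have h0 : ¬ (f (n + (j + 1)) = 1 ∧ f (n + (j + a + 1)) = 1 ∧ f (n + (j + b + 1)) = 1) := by
        rintro ⟨h1, h2, h3⟩
        exact hcon ⟨n + (j + 1), by omega, h1, by rw [← h2]; congr 1; omega,
          by rw [← h3]; congr 1; omega⟩
      simp only [F]
      rcases hf.sgn (n + (j + 1)) (by omega) with h1 | h1 <;>
        rcases hf.sgn (n + (j + a + 1)) (by omega) with h2 | h2 <;>
        rcases hf.sgn (n + (j + b + 1)) (by omega) with h3 | h3 <;>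
        first
          | (rw [h1, h2, h3]; norm_num; done)
          | exact (h0 ⟨h1, h2, h3⟩).elim
    rw [e]
    simp only [IsM.add, hM.one, m1]
    rw [m2 _ _ (by omega), m2 _ _ (by omega), m2 _ _ (by omega)]
    norm_num
  let P : (Fin b → ℕ) → ℕ → ℝ := fun e n => ∏ i : Fin b, F i n ^ e i
  have hPa : ∀ e n, |P e n| = 1 := fun e n => by simp [P, abs_prod, abs_pow, hFa]
  have hPs : ∀ e n, P e n * P e n = 1 := fun e n => by
    rw [← abs_mul_abs_self, hPa, mul_one]
  have rep : ∀ j, ∃ e, M (fun n => F j n * P e n) = 1 := by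
    intro j
    induction j using Nat.strong_induction_on with
    | _ j ih =>
      by_cases hj : j < b
      · refine ⟨Pi.single ⟨j, hj⟩ 1, ?_⟩
        rw [← hM.one]
        congr 1
        ext n
        have : P (Pi.single ⟨j, hj⟩ 1) n = F j n := by
          simp only [P]
          rw [prod_eq_single ⟨j, hj⟩]
          · simp
          · intro i _ hi
            simp [Pi.single_eq_of_ne hi]
          · simp
        rw [this, hFs]
      · obtain ⟨j', rfl⟩ := Nat.exists_eq_add_of_le' (not_lt.1 hj)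
        obtain ⟨e₁, h1⟩ := ih j' (by omega)
        obtain ⟨e₂, h2⟩ := ih (j' + a) (by omega)
        refine ⟨e₁ + e₂, ?_⟩
        have h3 := one_mul_one hM (fun n => by simp [abs_mul, hFa, hPa])
          (fun n => by simp [abs_mul, hFa]) (one_mul_one hM (fun n => by simp [abs_mul, hFa, hPa])
            (fun n => by simp [abs_mul, hFa, hPa]) h1 h2) (base j')
        rw [← h3]
        congr 1
        ext n
        have : P (e₁ + e₂) n = P e₁ n * P e₂ n := by
          simp only [P, Pi.add_apply, pow_add, prod_mul_distrib]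
        rw [this]
        linear_combination (-(F (j' + b) n * P e₁ n * P e₂ n)) * hFs j' n -
          (F (j' + b) n * P e₁ n * P e₂ n * (F j' n * F j' n)) * hFs (j' + a) n
  choose e he using rep
  obtain ⟨j, j', hne, heq⟩ := Finite.exists_ne_map_eq_of_infinite
    (fun j (i : Fin b) => (⟨e j i % 2, Nat.mod_lt _ two_pos⟩ : Fin 2))
  have hPe : P (e j) = P (e j') := by
    ext n
    refine prod_congr rfl fun i _ => ?_
    have h1 : e j i % 2 = e j' i % 2 := congrArg Fin.val (congrFun heq i)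
    have h2 : F i n ^ 2 = 1 := by rw [pow_two, hFs]
    rw [pow_eq_pow_mod _ h2, h1, ← pow_eq_pow_mod _ h2]
  have h3 := one_mul_one hM (fun n => by simp [abs_mul, hFa, hPa])
    (fun n => by simp [abs_mul, hFa, hPa]) (he j) (he j')
  have h4 : (fun n => F j n * P (e j) n * (F j' n * P (e j') n)) =
      fun n => (f (n + (j + 1)) : ℝ) * f (n + (j' + 1)) := by
    ext n
    rw [hPe]
    simp only [F]
    linear_combination ((f (n + (j + 1)) : ℝ) * f (n + (j' + 1))) * hPs (e j') n
  rw [h4, m2 _ _ (by omega)] at h3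
  exact zero_ne_one h3

theorem pattern {f : ℕ → ℤ} (hf : CM f) {a b : ℕ} (ha : 0 < a) (hab : a < b) (hE : ¬ Exc a b) :
    ∃ r, r ≠ 0 ∧ f r = 1 ∧ f (r + a) = 1 ∧ f (r + b) = 1 := by
  by_cases hP : Pret f
  · exact pattern_of_pret hf hP hE
  · exact pattern_of_not_pret hf hP ha hab

theorem qr_of_jacobi {p : ℕ} (hp : p.Prime) {r : ℤ} (h : jacobiSym r p = 1) :
    ¬ (p : ℤ) ∣ r ∧ ∃ x : ℤ, r ≡ x ^ 2 [ZMOD p] := by
  haveI : Fact p.Prime := ⟨hp⟩
  constructor
  · intro hd
    have : jacobiSym r p = 0 := jacobiSym.eq_zero_iff.2 ⟨hp.ne_zero, fun h1 => by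
      have := Int.dvd_coe_gcd hd (dvd_refl (p : ℤ))
      rw [h1] at this
      exact hp.one_lt.ne' (Nat.dvd_one.1 (by exact_mod_cast this))⟩
    omega
  · obtain ⟨y, hy⟩ := ZMod.isSquare_of_jacobiSym_eq_one h
    refine ⟨y.val, (ZMod.intCast_eq_intCast_iff _ _ _).1 ?_⟩
    rw [hy]
    push_cast
    rw [ZMod.natCast_zmod_val, pow_two]

theorem lehmer {a b : ℕ} (ha : 0 < a) (hab : a < b) (hE : ¬ Exc a b) :
    ∃ N p₀ : ℕ, ∀ p : ℕ, p.Prime → p₀ < p → ∃ r : ℕ, 1 ≤ r ∧ r ≤ N ∧ jacobiSym r p = 1 ∧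
      jacobiSym (r + a : ℕ) p = 1 ∧ jacobiSym (r + b : ℕ) p = 1 := by
  classical
  by_contra hcon
  push Not at hcon
  choose P hP1 hP2 hP3 using fun N => hcon N N
  let U : Ultrafilter ℕ := hyperfilter ℕ
  have hU : (U : Filter ℕ) ≤ atTop := by
    rw [← Nat.cofinite_eq_atTop]; exact hyperfilter_le_cofinite
  let f : ℕ → ℤ := fun n => if n = 0 then 0 else
    if ∀ᶠ N in (U : Filter ℕ), jacobiSym n (P N) = 1 then 1 else -1
  have key : ∀ n : ℕ, ∀ᶠ N in (U : Filter ℕ), jacobiSym n (P N) = f n := by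
    intro n
    by_cases hn : n = 0
    · subst hn
      exact Eventually.of_forall fun N => by
        simpa [f] using jacobiSym.zero_left (hP1 N).one_lt
    simp only [f, if_neg hn]
    split_ifs with h
    · exact h
    · filter_upwards [Ultrafilter.eventually_not.2 h, hU (eventually_ge_atTop n)] with N h1 h2
      refine (jacobiSym.eq_one_or_neg_one ?_).resolve_left h1
      rw [Int.gcd_natCast_natCast]
      exact ((Nat.Prime.coprime_iff_not_dvd (hP1 N)).2 fun hd => absurd
        (Nat.le_of_dvd (Nat.pos_of_ne_zero hn) hd) (not_le.2 (lt_of_le_of_lt h2 (hP2 N)))).symm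
  have hf : CM f :=
    { zero := if_pos rfl
      mul := fun m n => by
        obtain ⟨N, h1, h2, h3⟩ := ((key (m * n)).and ((key m).and (key n))).exists
        rw [← h1, ← h2, ← h3, Nat.cast_mul, jacobiSym.mul_left]
      sgn := fun n hn => by
        simp only [f, if_neg hn]
        split_ifs <;> simp }
  obtain ⟨r, r0, r1, r2, r3⟩ := pattern hf ha hab hE
  obtain ⟨N, h0, h1, h2, h3⟩ := ((show ∀ᶠ N in (U : Filter ℕ), r ≤ N from
    hU (eventually_ge_atTop r)).and ((key r).and ((key (r + a)).and (key (r + b))))).exists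
  exact hP3 N r (by omega) h0 (h1.trans r1) (h2.trans r2) (h3.trans r3)

end Pool.Agent.H266Z.Leh
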