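import Mathlib

/-! A logarithmic mean on bounded sequences. -/

set_option autoImplicit false

namespace Pool.Agent.H266Z.Leh

open Finset Filter Topology

/-- bounded -/
def Bd (φ : ℕ → ℝ) : Prop := ∃ B : ℝ, ∀ n, |φ n| ≤ B

theorem Bd.of_le {φ : ℕ → ℝ} (B : ℝ) (h : ∀ n, |φ n| ≤ B) : Bd φ := ⟨B, h⟩

theorem Bd.const (c : ℝ) : Bd (fun _ => c) := ⟨|c|, fun _ => le_rfl⟩

theorem Bd.add {φ ψ : ℕ → ℝ} (h : Bd φ) (h' : Bd ψ) : Bd (fun n => φ n + ψ n) := by
  obtain ⟨B, h⟩ := h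
  obtain ⟨B', h'⟩ := h'
  exact ⟨B + B', fun n => (abs_add_le _ _).trans (add_le_add (h n) (h' n))⟩

theorem Bd.mul {φ ψ : ℕ → ℝ} (h : Bd φ) (h' : Bd ψ) : Bd (fun n => φ n * ψ n) := by
  obtain ⟨B, h⟩ := h
  obtain ⟨B', h'⟩ := h'
  exact ⟨B * B', fun n => by
    rw [abs_mul]
    exact mul_le_mul (h n) (h' n) (abs_nonneg _) ((abs_nonneg _).trans (h n))⟩

theorem Bd.sub {φ ψ : ℕ → ℝ} (h : Bd φ) (h' : Bd ψ) : Bd (fun n => φ n - ψ n) := by
  obtain ⟨B, h⟩ := h
  obtain ⟨B', h'⟩ := h'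
  exact ⟨B + B', fun n => (abs_sub _ _).trans (add_le_add (h n) (h' n))⟩

theorem Bd.sum {ι : Type*} (s : Finset ι) {φ : ι → ℕ → ℝ} (h : ∀ i ∈ s, Bd (φ i)) :
    Bd (fun n => ∑ i ∈ s, φ i n) := by
  classical
  induction s using Finset.induction_on with
  | empty => simpa using Bd.const 0
  | insert a s ha ih =>
    simp only [sum_insert ha]
    exact (h a (mem_insert_self _ _)).add (ih fun i hi => h i (mem_insert_of_mem hi))

theorem Bd.comp {φ : ℕ → ℝ} (h : Bd φ) (g : ℕ → ℕ) : Bd (fun n => φ (g n)) := by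
  obtain ⟨B, h⟩ := h
  exact ⟨B, fun n => h _⟩

theorem Bd.sq {φ : ℕ → ℝ} (h : Bd φ) : Bd (fun n => φ n ^ 2) := by
  simpa only [pow_two] using h.mul h

/-- logarithmic sum -/
noncomputable def LS (φ : ℕ → ℝ) (N : ℕ) : ℝ := ∑ n ∈ Icc 1 N, φ n / n

theorem LS_succ (φ : ℕ → ℝ) (N : ℕ) : LS φ (N + 1) = LS φ N + φ (N + 1) / (N + 1 : ℕ) := by
  unfold LS
  rw [sum_Icc_succ_top (by omega)]

theorem LS_zero (φ : ℕ → ℝ) : LS φ 0 = 0 := by simp [LS]

/-- the properties of a logarithmic mean -/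
structure IsM (M : (ℕ → ℝ) →ₗ[ℝ] ℝ) : Prop where
  pos : ∀ φ, Bd φ → (∀ n, 0 ≤ φ n) → 0 ≤ M φ
  one : M (fun _ => 1) = 1
  null : ∀ φ, Bd φ → (∃ C, ∀ N, |LS φ N| ≤ C) → M φ = 0

theorem LS_one_tendsto : Tendsto (LS (fun _ => 1)) atTop atTop := by
  have h := Real.tendsto_sum_range_one_div_nat_succ_atTop
  refine h.congr fun N => ?_
  induction N with
  | zero => simp [LS_zero]
  | succ N ih => rw [sum_range_succ, LS_succ, ih]; push_cast; rfl

theorem LS_one_nonneg (N : ℕ) : 0 ≤ LS (fun _ => 1) N :=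
  sum_nonneg fun _ _ => by positivity

theorem abs_LS_le {φ : ℕ → ℝ} {B : ℝ} (h : ∀ n, |φ n| ≤ B) (N : ℕ) :
    |LS φ N| ≤ B * LS (fun _ => 1) N := by
  unfold LS
  rw [mul_sum]
  refine (abs_sum_le_sum_abs _ _).trans (sum_le_sum fun n _ => ?_)
  rw [abs_div, Nat.abs_cast, mul_one_div]
  exact div_le_div_of_nonneg_right (h n) (by positivity)

theorem exists_mean : ∃ M : (ℕ → ℝ) →ₗ[ℝ] ℝ, IsM M := by
  let U : Ultrafilter ℕ := hyperfilter ℕ
  have hU : (U : Filter ℕ) ≤ atTop := by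
    rw [← Nat.cofinite_eq_atTop]; exact hyperfilter_le_cofinite
  let A : (ℕ → ℝ) → ℕ → ℝ := fun φ N => LS φ N / LS (fun _ => 1) N
  have hex : ∀ φ, Bd φ → ∃ z, Tendsto (A φ) U (𝓝 z) := by
    rintro φ ⟨B, hB⟩
    have hB0 : 0 ≤ B := (abs_nonneg _).trans (hB 0)
    have hm : ∀ N, A φ N ∈ Set.Icc (-B) B := by
      intro N
      rw [Set.mem_Icc, ← abs_le, abs_div, abs_of_nonneg (LS_one_nonneg N)]
      exact div_le_of_le_mul₀ (LS_one_nonneg N) hB0 (abs_LS_le hB N)
    obtain ⟨z, -, hz⟩ := (isCompact_Icc (a := -B) (b := B)).ultrafilter_le_nhds (U.map (A φ))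
      (by
        rw [le_principal_iff, Ultrafilter.coe_map, Filter.mem_map]
        exact univ_mem' hm)
    exact ⟨z, hz⟩
  let S : Submodule ℝ (ℕ → ℝ) :=
    { carrier := {φ | Bd φ}
      add_mem' := fun h h' => Bd.add h h'
      zero_mem' := Bd.const 0
      smul_mem' := fun c _ h => Bd.mul (Bd.const c) h }
  let M0 : S →ₗ[ℝ] ℝ :=
    { toFun := fun φ => (hex φ.1 φ.2).choose
      map_add' := fun φ ψ => by
        refine tendsto_nhds_unique (hex _ (φ + ψ).2).choose_spec ?_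
        refine ((hex _ φ.2).choose_spec.add (hex _ ψ.2).choose_spec).congr fun N => ?_
        simp only [A, LS, Submodule.coe_add, Pi.add_apply, add_div, sum_add_distrib]
      map_smul' := fun c φ => by
        refine tendsto_nhds_unique (hex _ (c • φ).2).choose_spec ?_
        refine ((hex _ φ.2).choose_spec.const_mul c).congr fun N => ?_
        simp only [A, LS, Submodule.coe_smul, Pi.smul_apply, smul_eq_mul, mul_div_assoc, ← mul_sum] }
  obtain ⟨M, hM⟩ := M0.exists_extend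
  have key : ∀ φ, Bd φ → Tendsto (A φ) U (𝓝 (M φ)) := by
    intro φ h
    have : M φ = M0 ⟨φ, h⟩ := by rw [← hM]; rfl
    rw [this]
    exact (hex φ h).choose_spec
  refine ⟨M, fun φ h h0 => ?_, ?_, fun φ h ⟨C, hC⟩ => ?_⟩
  · exact ge_of_tendsto' (key φ h) fun N =>
      div_nonneg (sum_nonneg fun n _ => div_nonneg (h0 n) (by positivity)) (LS_one_nonneg N)
  · refine tendsto_nhds_unique (key _ (Bd.const 1)) (Tendsto.mono_left ?_ hU)
    refine tendsto_const_nhds.congr' ?_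
    filter_upwards [LS_one_tendsto.eventually_gt_atTop 0] with N hN
    exact (div_self hN.ne').symm
  · refine tendsto_nhds_unique (key _ h) (Tendsto.mono_left ?_ hU)
    refine squeeze_zero_norm (fun N => ?_) (tendsto_const_nhds (x := C).div_atTop LS_one_tendsto)
    rw [Real.norm_eq_abs, abs_div, abs_of_nonneg (LS_one_nonneg N)]
    exact div_le_div_of_nonneg_right (hC N) (LS_one_nonneg N)

namespace IsM

variable {M : (ℕ → ℝ) →ₗ[ℝ] ℝ}

theorem add (M : (ℕ → ℝ) →ₗ[ℝ] ℝ) (φ ψ : ℕ → ℝ) : M (fun n => φ n + ψ n) = M φ + M ψ :=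
  map_add M φ ψ

theorem sub (M : (ℕ → ℝ) →ₗ[ℝ] ℝ) (φ ψ : ℕ → ℝ) : M (fun n => φ n - ψ n) = M φ - M ψ :=
  map_sub M φ ψ

theorem mul (M : (ℕ → ℝ) →ₗ[ℝ] ℝ) (c : ℝ) (φ : ℕ → ℝ) : M (fun n => c * φ n) = c * M φ :=
  map_smul M c φ

theorem sum (M : (ℕ → ℝ) →ₗ[ℝ] ℝ) {ι : Type*} (s : Finset ι) (φ : ι → ℕ → ℝ) :
    M (fun n => ∑ i ∈ s, φ i n) = ∑ i ∈ s, M (φ i) := by
  rw [← map_sum]
  congr 1
  ext n
  simp

theorem const (h : IsM M) (c : ℝ) : M (fun _ => c) = c := by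
  have := mul M c (fun _ => 1)
  simpa [h.one] using this

theorem eq_of (h : IsM M) {φ ψ : ℕ → ℝ} (h1 : Bd φ) (h2 : Bd ψ) (C : ℝ)
    (hC : ∀ N, |LS φ N - LS ψ N| ≤ C) : M φ = M ψ := by
  have := h.null _ (h1.sub h2) ⟨C, fun N => by
    have := hC N
    simpa only [LS, sub_div, sum_sub_distrib] using this⟩
  rw [sub] at this
  linarith

theorem pos_ev (h : IsM M) {φ : ℕ → ℝ} (h1 : Bd φ) (h0 : ∀ᶠ n in atTop, 0 ≤ φ n) : 0 ≤ M φ := by
  obtain ⟨n0, h0⟩ := eventually_atTop.1 h0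
  obtain ⟨B, hB⟩ := h1
  have hB0 : 0 ≤ B := (abs_nonneg _).trans (hB 0)
  have b1 : Bd (fun n => if n0 ≤ n then φ n else 0) := ⟨B, fun n => by
    dsimp only
    split_ifs
    · exact hB n
    · simpa using hB0⟩
  have e : M φ = M (fun n => if n0 ≤ n then φ n else 0) := by
    refine h.eq_of ⟨B, hB⟩ b1 (B * n0) fun N => ?_
    unfold LS
    rw [← sum_sub_distrib]
    refine (abs_sum_le_sum_abs _ _).trans ?_
    have : ∀ n ∈ Icc 1 N, |φ n / n - (if n0 ≤ n then φ n else 0) / n| ≤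
        if n < n0 then B else 0 := by
      intro n hn
      have h1 : (1 : ℝ) ≤ n := by exact_mod_cast (mem_Icc.1 hn).1
      by_cases hh : n0 ≤ n
      · simp [hh, not_lt.2 hh]
      · rw [if_neg hh, if_pos (not_le.1 hh), zero_div, sub_zero, abs_div, Nat.abs_cast]
        exact (div_le_self (abs_nonneg _) h1).trans (hB n)
    refine (sum_le_sum this).trans ?_
    rw [← sum_filter, sum_const, nsmul_eq_mul, mul_comm]
    refine mul_le_mul_of_nonneg_left ?_ hB0
    have : ((Icc 1 N).filter (fun n => n < n0)).card ≤ n0 := by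
      refine (card_le_card (t := range n0) fun n hn => ?_).trans (card_range n0).le
      exact mem_range.2 (mem_filter.1 hn).2
    exact_mod_cast this
  rw [e]
  refine h.pos _ b1 fun n => ?_
  split_ifs with hh
  · exact h0 n hh
  · exact le_rfl

theorem mono_ev (h : IsM M) {φ ψ : ℕ → ℝ} (h1 : Bd φ) (h2 : Bd ψ)
    (h0 : ∀ᶠ n in atTop, φ n ≤ ψ n) : M φ ≤ M ψ := by
  have := h.pos_ev (h2.sub h1) (h0.mono fun n hn => sub_nonneg.2 hn)
  rw [sub] at this
  linarith

theorem mono (h : IsM M) {φ ψ : ℕ → ℝ} (h1 : Bd φ) (h2 : Bd ψ)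
    (h0 : ∀ n, φ n ≤ ψ n) : M φ ≤ M ψ := h.mono_ev h1 h2 (Eventually.of_forall h0)

theorem abs_le_ev (h : IsM M) {φ : ℕ → ℝ} (h1 : Bd φ) {B : ℝ}
    (h0 : ∀ᶠ n in atTop, |φ n| ≤ B) : |M φ| ≤ B := by
  rw [abs_le]
  constructor
  · have := h.mono_ev (Bd.const (-B)) h1 (h0.mono fun n hn => (abs_le.1 hn).1)
    rwa [h.const] at this
  · have := h.mono_ev h1 (Bd.const B) (h0.mono fun n hn => (abs_le.1 hn).2)
    rwa [h.const] at this

theorem le_ev (h : IsM M) {φ : ℕ → ℝ} (h1 : Bd φ) {B : ℝ}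
    (h0 : ∀ᶠ n in atTop, φ n ≤ B) : M φ ≤ B := by
  have := h.mono_ev h1 (Bd.const B) h0
  rwa [h.const] at this

theorem congr_lim (h : IsM M) {φ ψ : ℕ → ℝ} (h1 : Bd φ) (h2 : Bd ψ)
    (h0 : Tendsto (fun n => φ n - ψ n) atTop (𝓝 0)) : M φ = M ψ := by
  have key : ∀ ε > 0, |M φ - M ψ| ≤ ε := by
    intro ε hε
    rw [← sub]
    refine h.abs_le_ev (h1.sub h2) ?_
    have := (Metric.tendsto_nhds.1 h0) ε hε
    exact this.mono fun n hn => by
      rw [Real.dist_eq, sub_zero] at hn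
      exact hn.le
  have := le_of_forall_pos_le_add (a := |M φ - M ψ|) (b := 0) fun ε hε => by
    simpa using key ε hε
  have h3 := abs_nonpos_iff.1 this
  linarith

theorem congr_ev (h : IsM M) {φ ψ : ℕ → ℝ} (h1 : Bd φ) (h2 : Bd ψ)
    (h0 : ∀ᶠ n in atTop, φ n = ψ n) : M φ = M ψ :=
  le_antisymm (h.mono_ev h1 h2 (h0.mono fun _ hn => hn.le))
    (h.mono_ev h2 h1 (h0.mono fun _ hn => hn.ge))

theorem shift_one (h : IsM M) {φ : ℕ → ℝ} (h1 : Bd φ) : M (fun n => φ (n + 1)) = M φ := by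
  obtain ⟨B, hB⟩ := h1
  have hB0 : 0 ≤ B := (abs_nonneg _).trans (hB 0)
  have key : ∀ N : ℕ, |LS (fun n => φ (n + 1)) N - LS φ N - (φ (N + 1) / (N + 1) - φ 1)| ≤
      B * (1 - 1 / (N + 1)) := by
    intro N
    induction N with
    | zero => simp [LS_zero]
    | succ N ih =>
      rw [LS_succ, LS_succ]
      push_cast
      have hN : (0 : ℝ) < N + 1 := by positivity
      have e : LS (fun n => φ (n + 1)) N + φ (N + 1 + 1) / (N + 1) -
          (LS φ N + φ (N + 1) / (N + 1)) - (φ (N + 1 + 1) / (N + 1 + 1) - φ 1) =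
          (LS (fun n => φ (n + 1)) N - LS φ N - (φ (N + 1) / (N + 1) - φ 1)) +
          φ (N + 1 + 1) * (1 / (N + 1) - 1 / (N + 1 + 1)) := by ring
      rw [e]
      refine (abs_add_le _ _).trans ?_
      have h0 : (0 : ℝ) ≤ 1 / (N + 1) - 1 / (N + 1 + 1) := by
        rw [sub_nonneg]; exact one_div_le_one_div_of_le hN (by linarith)
      rw [abs_mul, abs_of_nonneg h0]
      have := mul_le_mul_of_nonneg_right (hB (N + 1 + 1)) h0
      linarith
  refine h.eq_of ⟨B, fun n => hB _⟩ ⟨B, hB⟩ (3 * B) fun N => ?_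
  have h2 := key N
  have hN : (1 : ℝ) ≤ N + 1 := by linarith [Nat.cast_nonneg (α := ℝ) N]
  have h3 : |φ (N + 1) / (N + 1)| ≤ B := by
    rw [abs_div, abs_of_pos (by linarith : (0 : ℝ) < N + 1)]
    exact (div_le_self (abs_nonneg _) hN).trans (hB _)
  have h4 := hB 1
  have h5 : B * (1 - 1 / (N + 1)) ≤ B := by
    have : (0 : ℝ) ≤ B * (1 / (N + 1)) := by positivity
    linarith
  rw [abs_le] at h2 h3 h4 ⊢
  constructor <;> linarith [h2.1, h2.2, h3.1, h3.2, h4.1, h4.2]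

theorem shift (h : IsM M) {φ : ℕ → ℝ} (h1 : Bd φ) (j : ℕ) : M (fun n => φ (n + j)) = M φ := by
  induction j with
  | zero => rfl
  | succ j ih =>
    rw [← ih, ← h.shift_one (h1.comp (fun n => n + j))]
    congr 1
    ext n
    rw [add_assoc, add_comm 1 j]

end IsM

/-- Cesaro mean -/
noncomputable def Ces (φ : ℕ → ℝ) (X : ℕ) : ℝ := (∑ m ∈ range X, φ m) / X

theorem abs_Ces_le {φ : ℕ → ℝ} {B : ℝ} (h : ∀ n, |φ n| ≤ B) (X : ℕ) : |Ces φ X| ≤ B := by
  have hB0 : 0 ≤ B := (abs_nonneg _).trans (h 0)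
  unfold Ces
  rw [abs_div, Nat.abs_cast]
  refine div_le_of_le_mul₀ (by positivity) hB0 ?_
  refine (abs_sum_le_sum_abs _ _).trans ((sum_le_sum fun n _ => h n).trans ?_)
  simp [mul_comm]

theorem Bd.ces {φ : ℕ → ℝ} (h : Bd φ) : Bd (Ces φ) := by
  obtain ⟨B, h⟩ := h
  exact ⟨B, abs_Ces_le h⟩

/-- block average -/
noncomputable def Blk (d : ℕ) (φ : ℕ → ℝ) (t : ℕ) : ℝ := (∑ r ∈ range d, φ (d * t + r)) / d

theorem Bd.blk {φ : ℕ → ℝ} (h : Bd φ) (d : ℕ) : Bd (Blk d φ) := by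
  obtain ⟨B, h⟩ := h
  exact ⟨B, fun t => abs_Ces_le (φ := fun r => φ (d * t + r)) (fun n => h _) d⟩

theorem ces_blk (d : ℕ) (φ : ℕ → ℝ) (t : ℕ) : Ces (Blk d φ) t = Ces φ (d * t) := by
  unfold Ces Blk
  have : ∑ m ∈ range (d * t), φ m = ∑ s ∈ range t, ∑ r ∈ range d, φ (d * s + r) := by
    induction t with
    | zero => simp
    | succ t ih => rw [sum_range_succ, ← ih, mul_add, mul_one, sum_range_add]
  rw [this, ← sum_div, div_div]
  push_cast
  rfl

namespace IsM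

variable {M : (ℕ → ℝ) →ₗ[ℝ] ℝ}

theorem ces_one (h : IsM M) {φ : ℕ → ℝ} (h1 : Bd φ) : M (Ces φ) = M φ := by
  rw [← h.shift_one h1.ces]
  obtain ⟨B, hB⟩ := h1
  have key : ∀ N : ℕ, LS φ N - LS (fun n => Ces φ (n + 1)) N = Ces φ (N + 1) - Ces φ 1 := by
    intro N
    induction N with
    | zero => simp [LS_zero]
    | succ N ih =>
      rw [LS_succ, LS_succ]
      have e : Ces φ (N + 1 + 1) * (N + 1 + 1) = Ces φ (N + 1) * (N + 1) + φ (N + 1) := by
        unfold Ces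
        rw [sum_range_succ _ (N + 1)]
        push_cast
        field_simp
      push_cast
      have hN : (N : ℝ) + 1 ≠ 0 := by positivity
      have : φ (N + 1) / (N + 1) - Ces φ (N + 1 + 1) / (N + 1) =
          Ces φ (N + 1 + 1) - Ces φ (N + 1) := by
        field_simp
        linarith
      linarith
  symm
  refine h.eq_of ⟨B, hB⟩ ⟨B, fun n => abs_Ces_le hB _⟩ (2 * B) fun N => ?_
  rw [key]
  have h2 := abs_Ces_le hB (N + 1)
  have h3 := abs_Ces_le hB 1
  linarith [abs_sub (Ces φ (N + 1)) (Ces φ 1)]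

theorem blk (h : IsM M) {φ : ℕ → ℝ} (h1 : Bd φ) {d : ℕ} (hd : 0 < d) : M (Blk d φ) = M φ := by
  have hb := h1.blk d
  obtain ⟨B, hB⟩ := h1
  have hB0 : 0 ≤ B := (abs_nonneg _).trans (hB 0)
  have hd' : (0 : ℝ) < d := by exact_mod_cast hd
  have key : ∀ N : ℕ, |LS (Blk d φ) N - ∑ m ∈ Ico d (d * (N + 1)), φ m / m| ≤
      2 * B * (1 - 1 / (N + 1)) := by
    intro N
    induction N with
    | zero => simp [LS_zero]
    | succ N ih =>
      have hN : (0 : ℝ) < N + 1 := by positivity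
      rw [LS_succ, ← sum_Ico_consecutive _ (m := d) (n := d * (N + 1)) (k := d * (N + 1 + 1))
        (Nat.le_mul_of_pos_right _ (by omega)) (Nat.mul_le_mul_left _ (by omega)),
        sum_Ico_eq_sum_range _ (d * (N + 1)), show d * (N + 1 + 1) - d * (N + 1) = d by
          rw [mul_add d (N + 1) 1]; omega]
      have e : |Blk d φ (N + 1) / (N + 1 : ℕ) -
          ∑ r ∈ range d, φ (d * (N + 1) + r) / (d * (N + 1) + r : ℕ)| ≤
          2 * B * (1 / (N + 1) - 1 / (N + 1 + 1)) := by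
        unfold Blk
        rw [div_div, sum_div, ← sum_sub_distrib]
        refine (abs_sum_le_sum_abs _ _).trans ?_
        have : ∀ r ∈ range d, |φ (d * (N + 1) + r) / (d * (N + 1 : ℕ)) -
            φ (d * (N + 1) + r) / (d * (N + 1) + r : ℕ)| ≤ B / (d * (N + 1) ^ 2) := by
          intro r hr
          have hr' : (r : ℝ) ≤ d := by exact_mod_cast (mem_range.1 hr).le
          have hr0 : (0 : ℝ) ≤ r := by positivity
          push_cast
          have e2 : φ (d * (N + 1) + r) / (d * (N + 1)) - φ (d * (N + 1) + r) / (d * (N + 1) + r) =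
              φ (d * (N + 1) + r) * (r / (d * (N + 1) * (d * (N + 1) + r))) := by
            field_simp
            ring
          rw [e2, abs_mul, abs_of_nonneg (by positivity : (0 : ℝ) ≤ r / _), div_eq_mul_one_div B]
          refine mul_le_mul (hB _) ?_ (by positivity) hB0
          rw [div_le_div_iff₀ (by positivity) (by positivity)]
          have : (0 : ℝ) ≤ d * (N + 1) * r := by positivity
          have : r * (d * (N + 1) ^ 2) ≤ d * (d * ((N : ℝ) + 1) ^ 2) := by gcongr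
          nlinarith
        refine (sum_le_sum this).trans ?_
        rw [sum_const, card_range, nsmul_eq_mul]
        have e3 : (d : ℝ) * (B / (d * (N + 1) ^ 2)) = B * (1 / (N + 1) ^ 2) := by field_simp
        have e4 : 2 * B * (1 / ((N : ℝ) + 1) - 1 / (N + 1 + 1)) =
            B * (2 / ((N + 1) * (N + 1 + 1))) := by field_simp; ring
        rw [e3, e4]
        refine mul_le_mul_of_nonneg_left ?_ hB0
        rw [div_le_div_iff₀ (by positivity) (by positivity)]
        nlinarith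
      push_cast at e ⊢
      rw [abs_le] at e ih ⊢
      constructor <;> linarith [e.1, e.2, ih.1, ih.2]
  have tl : ∀ a b : ℕ, 1 ≤ a → |∑ m ∈ Ico a b, φ m / m| ≤ B * (b / a) := by
    intro a b ha
    have ha' : (0 : ℝ) < a := by exact_mod_cast ha
    refine (abs_sum_le_sum_abs _ _).trans ?_
    have : ∀ m ∈ Ico a b, |φ m / m| ≤ B / a := by
      intro m hm
      have : (a : ℝ) ≤ m := by exact_mod_cast (mem_Ico.1 hm).1
      rw [abs_div, Nat.abs_cast]
      exact div_le_div₀ hB0 (hB m) ha' this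
    refine (sum_le_sum this).trans ?_
    rw [sum_const, Nat.card_Ico, nsmul_eq_mul]
    have : ((b - a : ℕ) : ℝ) ≤ b := by exact_mod_cast Nat.sub_le b a
    calc _ ≤ (b : ℝ) * (B / a) := by gcongr
      _ = _ := by ring
  refine h.eq_of hb ⟨B, hB⟩ (2 * B + B * d + B * d) fun N => ?_
  have h2 := key N
  have h3 := tl 1 d le_rfl
  have h4 := tl (N + 1) (d * (N + 1)) (by omega)
  have e1 : LS φ N + ∑ m ∈ Ico (N + 1) (d * (N + 1)), φ m / m =
      ∑ m ∈ Ico 1 d, φ m / m + ∑ m ∈ Ico d (d * (N + 1)), φ m / m := by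
    rw [sum_Ico_consecutive _ hd (Nat.le_mul_of_pos_right _ (by omega)),
      ← sum_Ico_consecutive _ (m := 1) (n := N + 1) (by omega) (Nat.le_mul_of_pos_left _ hd)]
    rfl
  have e2 : ((d * (N + 1) : ℕ) : ℝ) / (N + 1 : ℕ) = d := by
    push_cast
    field_simp
  rw [e2] at h4
  simp only [Nat.cast_one, div_one] at h3
  have h5 : (0 : ℝ) ≤ 2 * B * (1 / (N + 1)) := by positivity
  rw [abs_le] at h2 h3 h4 ⊢
  constructor <;> linarith [h2.1, h2.2, h3.1, h3.2, h4.1, h4.2]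

theorem ces (h : IsM M) {φ : ℕ → ℝ} (h1 : Bd φ) {d : ℕ} (hd : 0 < d) :
    M (fun t => Ces φ (d * t)) = M φ := by
  rw [← h.blk h1 hd, ← h.ces_one (h1.blk d)]
  congr 1
  ext t
  rw [ces_blk]

/-- invariance under dilation for Lipschitz functions of the logarithm -/
theorem dil (h : IsM M) {φ : ℝ → ℝ} {B L : ℝ} (hB : ∀ u, |φ u| ≤ B)
    (hL : ∀ u v, |φ u - φ v| ≤ L * |u - v|) {d : ℕ} (hd : 0 < d) :
    M (fun n => φ (Real.log n - Real.log d)) = M (fun n => φ (Real.log n)) := by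
  have b1 : Bd (fun n : ℕ => φ (Real.log n - Real.log d)) := ⟨B, fun n => hB _⟩
  have hL0 : 0 ≤ L := by
    have := hL 1 0
    simp only [sub_zero, abs_one, mul_one] at this
    exact (abs_nonneg _).trans this
  have hd' : (0 : ℝ) < d := by exact_mod_cast hd
  rw [← h.blk b1 hd]
  refine h.congr_lim (b1.blk d) ⟨B, fun n => hB _⟩ ?_
  refine squeeze_zero_norm' ?_ (tendsto_const_div_atTop_nhds_zero_nat L)
  filter_upwards [eventually_gt_atTop 0] with t ht
  have ht' : (0 : ℝ) < t := by exact_mod_cast ht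
  have e : Blk d (fun n : ℕ => φ (Real.log n - Real.log d)) t - φ (Real.log t) =
      (∑ r ∈ range d, (φ (Real.log (d * t + r : ℕ) - Real.log d) - φ (Real.log t))) / d := by
    unfold Blk
    rw [sum_sub_distrib, sum_const, card_range, nsmul_eq_mul]
    field_simp
  rw [e, Real.norm_eq_abs, abs_div, Nat.abs_cast, div_le_iff₀ hd']
  refine (abs_sum_le_sum_abs _ _).trans ?_
  have : ∀ r ∈ range d, |φ (Real.log (d * t + r : ℕ) - Real.log d) - φ (Real.log t)| ≤ L / t := by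
    intro r hr
    have hr' : (r : ℝ) ≤ d := by exact_mod_cast (mem_range.1 hr).le
    have hr0 : (0 : ℝ) ≤ r := by positivity
    refine (hL _ _).trans ?_
    rw [div_eq_mul_one_div]
    refine mul_le_mul_of_nonneg_left ?_ hL0
    have e2 : Real.log (d * t + r : ℕ) - Real.log d - Real.log t =
        Real.log (1 + r / (d * t)) := by
      rw [sub_sub, ← Real.log_mul hd'.ne' ht'.ne', ← Real.log_div (by push_cast; positivity)
        (by positivity)]
      congr 1
      push_cast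
      field_simp
    have h0 : (0 : ℝ) ≤ r / (d * t) := by positivity
    rw [e2, abs_of_nonneg (Real.log_nonneg (by linarith))]
    have h1 := Real.log_le_sub_one_of_pos (x := 1 + r / (d * t)) (by positivity)
    have h2 : (r : ℝ) / (d * t) ≤ 1 / t := by
      rw [div_le_div_iff₀ (by positivity) ht']
      nlinarith
    linarith
  refine (sum_le_sum this).trans ?_
  rw [sum_const, card_range, nsmul_eq_mul, mul_comm]

end IsM

end Pool.Agent.H266Z.Leh
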