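import Pool.Agent.H266Z.Leh.Hil
import Pool.Agent.H266Z.Leh.Basic
import Pool.Agent.H376R2.MR.Tent
import Pool.Agent.H376R2.MR.Tk
import Pool.Agent.H376R2.MR.Smoo

/-! Mean-square Halasz theorem for bounded frequencies. -/

set_option autoImplicit false

namespace Pool.Agent.H266Z.Leh

open Finset Filter Topology Pool.Agent.H376R2.MR Pool.Agent.H970R2.X BL

/-- smoothed twisted sum at scale `e^u` -/
noncomputable def tau (g : ℕ → ℤ) (k : ℤ) (u : ℝ) : ℂ :=
  ∑' n : ℕ, (g n : ℂ) * tnt_g k (Real.log n - u) / n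

/-- window -/
noncomputable def Iw (u : ℝ) : Finset ℕ :=
  Icc ⌈Real.exp u / Real.exp 2⌉₊ ⌊Real.exp 2 * Real.exp u⌋₊

theorem mem_Iw {u : ℝ} {n : ℕ} (hn : n ≠ 0) (h : |Real.log n - u| < 1) : n ∈ Iw u := by
  have hn' : (0 : ℝ) < n := by positivity
  rw [abs_lt] at h
  rw [Iw, mem_Icc, Nat.ceil_le, Nat.le_floor_iff (by positivity), ← Real.exp_sub, ← Real.exp_add,
    ← Real.le_log_iff_exp_le hn', ← Real.log_le_iff_le_exp hn']
  constructor <;> linarith [h.1, h.2]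

theorem tsum_eq_Iw (a : ℕ → ℂ) (k : ℤ) (u : ℝ) (s : Finset ℕ) (hs : Iw u ⊆ s) :
    ∑' n : ℕ, a n * tnt_g k (Real.log n - u) / n =
      ∑ n ∈ s, a n * tnt_g k (Real.log n - u) / n := by
  refine tsum_eq_sum fun n hn => ?_
  by_cases h0 : n = 0
  · simp [h0]
  · rw [tnt_g_zero k (not_lt.1 fun h => hn (hs (mem_Iw h0 h)))]
    simp

theorem sum_Iw (u : ℝ) : ∑ n ∈ Iw u, 1 / (n : ℝ) ≤ 5 := by
  have h := smoo_real (x := Real.exp u / Real.exp 2) (y := Real.exp 2 * Real.exp u)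
    (by positivity) (by
      rw [← Real.exp_sub, ← Real.exp_add]
      exact Real.exp_le_exp.2 (by linarith)) (Iw u) (fun n hn => by
      rw [Iw, mem_Icc, Nat.ceil_le, Nat.le_floor_iff (by positivity)] at hn
      refine ⟨?_, hn⟩
      have : (0 : ℝ) < n := lt_of_lt_of_le (by positivity) hn.1
      exact_mod_cast this)
  rw [← Real.exp_sub, ← Real.exp_add, ← Real.exp_sub, Real.log_exp] at h
  linarith

theorem bdd_norm {g : ℕ → ℤ} (hg : Bdd g) (n : ℕ) : ‖(g n : ℂ)‖ ≤ 1 := by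
  rw [Complex.norm_intCast]
  exact_mod_cast hg n

theorem tau_norm {g : ℕ → ℤ} (hg : Bdd g) (k : ℤ) (u : ℝ) : ‖tau g k u‖ ≤ 5 := by
  rw [tau, tsum_eq_Iw _ k u _ subset_rfl]
  refine (norm_sum_le _ _).trans ((sum_le_sum fun n _ => ?_).trans (sum_Iw u))
  rw [norm_div, norm_mul, Complex.norm_natCast]
  exact div_le_div_of_nonneg_right
    (mul_le_one₀ (bdd_norm hg n) (norm_nonneg _) (tnt_g_norm _ _)) (by positivity)

theorem tau_lip {g : ℕ → ℤ} (hg : Bdd g) (k : ℤ) (u v : ℝ) :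
    ‖tau g k u - tau g k v‖ ≤ 10 * (1 + |(k : ℝ)|) * |u - v| := by
  rw [tau, tau, tsum_eq_Iw _ k u _ (subset_union_left (s₂ := Iw v)),
    tsum_eq_Iw _ k v _ (subset_union_right (s₁ := Iw u)), ← sum_sub_distrib]
  refine (norm_sum_le _ _).trans ?_
  have h1 : ∀ n ∈ Iw u ∪ Iw v, ‖(g n : ℂ) * tnt_g k (Real.log n - u) / n -
      (g n : ℂ) * tnt_g k (Real.log n - v) / n‖ ≤ (1 + |(k : ℝ)|) * |u - v| * (1 / (n : ℝ)) := by
    intro n _
    rw [← sub_div, ← mul_sub, norm_div, norm_mul, Complex.norm_natCast, mul_one_div]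
    refine div_le_div_of_nonneg_right ?_ (by positivity)
    have h2 := tnt_g_lip k (Real.log n - u) (Real.log n - v)
    rw [show Real.log n - u - (Real.log n - v) = -(u - v) by ring, abs_neg] at h2
    exact (mul_le_of_le_one_left (norm_nonneg _) (bdd_norm hg n)).trans h2
  refine (sum_le_sum h1).trans ?_
  rw [← mul_sum]
  have h2 : ∑ n ∈ Iw u ∪ Iw v, 1 / (n : ℝ) ≤ 10 := by
    have := sum_union_inter (s₁ := Iw u) (s₂ := Iw v) (f := fun n : ℕ => 1 / (n : ℝ))
    have h3 : 0 ≤ ∑ n ∈ Iw u ∩ Iw v, 1 / (n : ℝ) := sum_nonneg fun _ _ => by positivity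
    linarith [sum_Iw u, sum_Iw v]
  calc _ ≤ (1 + |(k : ℝ)|) * |u - v| * 10 := by gcongr
    _ = _ := by ring

theorem tau_eq (g : ℕ → ℤ) (k : ℤ) {Y : ℝ} (hY : 0 < Y) :
    ‖tau g k (Real.log Y)‖ = ‖GGg g Y k‖ := by
  have e : tau g k (Real.log Y) = GGg g Y k * ch k (-Real.log Y) := by
    rw [tau, GGg, DP, sum_mul, tsum_eq_sum (s := WN Y)]
    · refine sum_congr rfl fun n _ => ?_
      rw [tnt_g, bw, sub_eq_add_neg (Real.log n) (Real.log Y), tnt_ch_add]
      push_cast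
      ring
    · intro n hn
      by_cases h0 : n = 0
      · simp [h0]
      · have hn' : (0 : ℝ) < n := by positivity
        rw [tnt_g_zero k]
        · simp
        · by_contra hc
          apply hn
          rw [WN, mem_Icc, Nat.le_floor_iff (by positivity)]
          refine ⟨by omega, ?_⟩
          rw [← Real.log_le_log_iff hn' (by positivity),
            Real.log_mul (by positivity) hY.ne', Real.log_exp]
          linarith [(abs_lt.1 (not_le.1 hc)).2]
  rw [e, norm_mul, tnt_ch_norm, mul_one]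

theorem tau_tk : ∃ C : ℝ, ∀ (g g' : ℕ → ℤ) (e : ℕ → ℤ) (k : ℤ) (S : Finset ℕ), Bdd g' →
    (∀ p ∈ S, p.Prime ∧ ∀ m, g' (p * m) = e p * g m) → 1 ≤ ∑ p ∈ S, 1 / (p : ℝ) →
    ∀ᶠ n : ℕ in atTop, ‖((∑ p ∈ S, 1 / (p : ℝ) : ℝ) : ℂ) * tau g' k (Real.log n) -
      ∑ p ∈ S, (((e p : ℝ) / p : ℝ) : ℂ) * tau g k (Real.log n - Real.log p)‖ ≤
      C * Real.sqrt (∑ p ∈ S, 1 / (p : ℝ)) := by
  obtain ⟨C, hC0, hC⟩ := tk
  refine ⟨(C + 5) / 2, fun g g' e k S hg hS hW => ?_⟩
  set W := ∑ p ∈ S, 1 / (p : ℝ) with hWd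
  filter_upwards [eventually_ge_atTop ((S.sup id) ^ 4 + 1)] with N hN
  have hN0 : (0 : ℝ) < N := by exact_mod_cast (show 0 < N by omega)
  have h1 := hC S (S.sup id : ℕ) N (fun p hp => ⟨(hS p hp).1, by
    exact_mod_cast le_sup (f := id) hp⟩) hW (by exact_mod_cast (show (S.sup id) ^ 4 ≤ N by omega))
  have hI : Iw (Real.log N) = Icc ⌈(N : ℝ) / Real.exp 2⌉₊ ⌊Real.exp 2 * N⌋₊ := by
    rw [Iw, Real.exp_log hN0]
  rw [← hI, ← hWd] at h1
  set u := Real.log N
  have e1 : ∀ p ∈ S, (((e p : ℝ) / p : ℝ) : ℂ) * tau g k (u - Real.log p) =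
      ∑ n ∈ Iw u, (if p ∣ n then (g' n : ℂ) else 0) * tnt_g k (Real.log n - u) / n := by
    intro p hp
    have hp0 := (hS p hp).1.pos
    have hp' : (0 : ℝ) < p := by exact_mod_cast hp0
    rw [← tsum_eq_Iw _ k u _ subset_rfl, tau, ← tsum_mul_left, eq_comm,
      ← Function.Injective.tsum_eq (g := fun m => p * m) (mul_right_injective₀ hp0.ne'), eq_comm]
    · refine tsum_congr fun m => ?_
      by_cases hm : m = 0
      · simp [hm]
      · have hm' : (0 : ℝ) < m := by positivity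
        rw [if_pos (dvd_mul_right p m), (hS p hp).2, Nat.cast_mul,
          Real.log_mul hp'.ne' hm'.ne']
        rw [show Real.log p + Real.log m - u = Real.log m - (u - Real.log p) by ring]
        push_cast
        ring
    · intro n hn
      by_cases hd : p ∣ n
      · obtain ⟨m, rfl⟩ := hd
        exact ⟨m, rfl⟩
      · simp [hd] at hn
  rw [sum_congr rfl e1, sum_comm, tau, tsum_eq_Iw _ k u _ subset_rfl, mul_sum, ← sum_sub_distrib]
  refine (norm_sum_le _ _).trans ?_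
  have hs : 0 < Real.sqrt W := Real.sqrt_pos.2 (by linarith)
  have hss : Real.sqrt W * Real.sqrt W = W := Real.mul_self_sqrt (by linarith)
  have h2 : ∀ n ∈ Iw u, ‖(W : ℂ) * ((g' n : ℂ) * tnt_g k (Real.log n - u) / n) -
      ∑ p ∈ S, (if p ∣ n then (g' n : ℂ) else 0) * tnt_g k (Real.log n - u) / n‖ ≤
      1 / (2 * Real.sqrt W) * ((((S.filter (fun p => p ∣ n)).card : ℝ) - W) ^ 2 / n) +
        Real.sqrt W / 2 * (1 / (n : ℝ)) := by
    intro n _
    have e2 : (W : ℂ) * ((g' n : ℂ) * tnt_g k (Real.log n - u) / n) -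
        ∑ p ∈ S, (if p ∣ n then (g' n : ℂ) else 0) * tnt_g k (Real.log n - u) / n =
        ((W - (S.filter (fun p => p ∣ n)).card : ℝ) : ℂ) *
          ((g' n : ℂ) * tnt_g k (Real.log n - u)) / n := by
      rw [← sum_div, ← sum_mul, ← sum_filter, sum_const, nsmul_eq_mul]
      push_cast
      ring
    rw [e2, norm_div, norm_mul, Complex.norm_natCast, Complex.norm_real, Real.norm_eq_abs,
      ← mul_div_assoc, mul_one_div (Real.sqrt W / 2), ← add_div]
    refine div_le_div_of_nonneg_right ?_ (by positivity)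
    have h3 : ‖(g' n : ℂ) * tnt_g k (Real.log n - u)‖ ≤ 1 := by
      rw [norm_mul]
      exact mul_le_one₀ (bdd_norm hg n) (norm_nonneg _) (tnt_g_norm _ _)
    refine (mul_le_of_le_one_right (abs_nonneg _) h3).trans ?_
    rw [abs_sub_comm, ← sq_abs]
    set x := |((S.filter (fun p => p ∣ n)).card : ℝ) - W|
    rw [← sub_nonneg]
    have : 1 / (2 * Real.sqrt W) * x ^ 2 + Real.sqrt W / 2 - x =
        (x - Real.sqrt W) ^ 2 / (2 * Real.sqrt W) := by
      field_simp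
      ring
    rw [this]
    positivity
  refine (sum_le_sum h2).trans ?_
  rw [sum_add_distrib, ← mul_sum, ← mul_sum]
  have h3 : 1 / (2 * Real.sqrt W) * ∑ n ∈ Iw u,
      (((S.filter (fun p => p ∣ n)).card : ℝ) - W) ^ 2 / n ≤ 1 / (2 * Real.sqrt W) * (C * W) := by
    gcongr
  have h4 : 1 / (2 * Real.sqrt W) * (C * W) = C / 2 * Real.sqrt W := by
    rw [eq_comm]
    field_simp
    rw [pow_two, hss]
  have h5 : Real.sqrt W / 2 * ∑ n ∈ Iw u, 1 / (n : ℝ) ≤ Real.sqrt W / 2 * 5 := by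
    gcongr
    exact sum_Iw u
  linarith

/-- restriction to a residue class -/
def gc (f : ℕ → ℤ) (q : ℕ) (c : ZMod q) (n : ℕ) : ℤ := if (n : ZMod q) = c then f n else 0

theorem gc_bdd {f : ℕ → ℤ} (hf : CM f) (q : ℕ) (c : ZMod q) : Bdd (gc f q c) := fun n => by
  unfold gc
  split_ifs
  · exact hf.abs_le n
  · simp

theorem gc_mul {f : ℕ → ℤ} (hf : CM f) {q : ℕ} (c : ZMod q) {p r : ℕ} (hr : Nat.Coprime r q)
    (hp : p ≡ r [MOD q]) (m : ℕ) : gc f q (r * c) (p * m) = f p * gc f q c m := by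
  unfold gc
  have e : (p : ZMod q) = r := (ZMod.natCast_eq_natCast_iff _ _ _).2 hp
  have hu : IsUnit (r : ZMod q) := (ZMod.isUnit_iff_coprime r q).2 hr
  rw [Nat.cast_mul, e, hf.mul]
  simp only [hu.mul_right_inj]
  split_ifs <;> simp

/-- real or imaginary part -/
def ri (b : Bool) (z : ℂ) : ℝ := if b then z.re else z.im

theorem ri_le (b : Bool) (z : ℂ) : |ri b z| ≤ ‖z‖ := by
  cases b
  · exact Complex.abs_im_le_norm z
  · exact Complex.abs_re_le_norm z

theorem ri_sub (b : Bool) (z w : ℂ) : ri b (z - w) = ri b z - ri b w := by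
  cases b <;> simp [ri]

theorem ri_mul (b : Bool) (x : ℝ) (z : ℂ) : ri b (x * z) = x * ri b z := by
  cases b <;> simp [ri]

theorem ri_sum (b : Bool) (S : Finset ℕ) (z : ℕ → ℂ) :
    ri b (∑ p ∈ S, z p) = ∑ p ∈ S, ri b (z p) := by
  cases b <;> simp [ri]

theorem smallK {M : (ℕ → ℝ) →ₗ[ℝ] ℝ} (h : IsM M) {f : ℕ → ℤ} (hf : CM f) (hP : ¬ Pret f)
    {q : ℕ} (hq : 0 < q) (c : ZMod q) (k : ℤ) :
    M (fun n => ‖tau (gc f q c) k (Real.log n)‖ ^ 2) = 0 := by
  haveI : NeZero q := ⟨hq.ne'⟩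
  let T : BL (ZMod q × Bool) :=
    { f := fun i u => ri i.2 (tau (gc f q i.1) k u)
      bl := ⟨5, 10 * (1 + |(k : ℝ)|), fun i u => (ri_le _ _).trans (tau_norm (gc_bdd hf q _) k u),
        fun i u v => by
          rw [← ri_sub]
          exact (ri_le _ _).trans (tau_lip (gc_bdd hf q _) k u v)⟩ }
  let σ : ℕ → ZMod q × Bool → ZMod q × Bool := fun r i => (r * i.1, i.2)
  have hT : TKr q f σ T := by
    obtain ⟨C, hC⟩ := tau_tk
    refine ⟨C, fun r S hr hS hW => ?_⟩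
    rw [eventually_all]
    intro i
    filter_upwards [hC (gc f q i.1) (gc f q (r * i.1)) f k S (gc_bdd hf q _)
      (fun p hp => ⟨(hS p hp).1, gc_mul hf _ hr (hS p hp).2⟩) hW] with n hn
    refine le_trans (le_of_eq ?_) ((ri_le i.2 _).trans hn)
    rw [ri_sub, ri_mul, ri_sum]
    simp only [ri_mul]
    rfl
  have hN : ¬ 0 < IP M T T := fun hN => hP <| pret_of_pos h hq
    (fun p hp => hf.sgn p hp.ne_zero) hT (by ext <;> simp [σ])
    (fun r s => by ext <;> simp [σ, mul_assoc])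
    (fun r s hrs => by simp only [σ, (ZMod.natCast_eq_natCast_iff _ _ _).2 hrs])
    (fun r hr => by
      have hu : IsUnit (r : ZMod q) := (ZMod.isUnit_iff_coprime r q).2 hr
      refine (Finite.injective_iff_bijective).1 fun i j hij => ?_
      simp only [σ, Prod.mk.injEq, hu.mul_right_inj] at hij
      exact Prod.ext hij.1 hij.2) hN
  have b1 : Bd (fun n : ℕ => ‖tau (gc f q c) k (Real.log n)‖ ^ 2) :=
    Bd.sq ⟨5, fun n => by rw [abs_norm]; exact tau_norm (gc_bdd hf q _) k _⟩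
  refine le_antisymm (le_trans ?_ (not_lt.1 hN)) (h.pos _ b1 fun _ => sq_nonneg _)
  refine h.mono b1 (bdIP T T) fun n => ?_
  rw [Fintype.sum_prod_type]
  refine le_trans (le_of_eq ?_) (single_le_sum (f := fun c' => ∑ b : Bool,
    T.f (c', b) (Real.log n) * T.f (c', b) (Real.log n))
    (fun _ _ => sum_nonneg fun _ _ => mul_self_nonneg _) (mem_univ c))
  rw [Complex.sq_norm, Complex.normSq_apply]
  simp [T, ri]

end Pool.Agent.H266Z.Leh
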