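import Pool.Agent.H266Z.Leh.Loc
import Pool.Agent.H266Z.Leh.Ent
import Pool.Agent.Helper602.MK.J1a
import Pool.Agent.Helper602.MK.J1b
import Pool.Agent.Helper602.MK.J1c
import Pool.Agent.Helper602.MK.J2
import Pool.Agent.Helper602.MK.J3
import Pool.Agent.Helper602.MK.J4a
import Pool.Agent.Helper602.MK.J4b
import Pool.Agent.Helper602.MK.J4c

/-! Vanishing of the two-point logarithmic correlations. -/

set_option autoImplicit false

namespace Pool.Agent.H266Z.Leh

open Finset Filter Topology Pool.Agent.Helper602.MK Pool.Agent.H905Z.Scales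

theorem j1 : J1Stmt := N_J1c.J1c (N_J1b.J1b N_J1a.J1a)

theorem j4 : J4Stmt := N_J4c.J4c j1 N_J2.J2 (N_J4b.J4b j1 N_J2.J2 (N_J4a.J4a N_J3.J3))

/-- `cos(2πx)` -/
noncomputable def cs (x : ℝ) : ℝ := Real.cos (2 * Real.pi * x)

theorem ee_re (x : ℝ) : (ee x).re = cs x := by
  have : ee x = Complex.exp (((2 * Real.pi * x : ℝ) : ℂ) * Complex.I) := by
    unfold ee; push_cast; rfl
  rw [this, Complex.exp_ofReal_mul_I_re, cs]

theorem ee_add' (x y : ℝ) : ee (x + y) = ee x * ee y := by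
  unfold ee
  rw [← Complex.exp_add]; push_cast; ring_nf

theorem orth (L : ℕ) (m : ℤ) (hm : |m| < L) (β : ℝ) :
    ∑ t ∈ range L, cs (m * (t / L) + β) = if m = 0 then L * cs β else 0 := by
  split_ifs with h
  · simp [h]
  have hL : (0 : ℝ) < L := by
    have : (0 : ℤ) < L := (abs_nonneg _).trans_lt hm
    exact_mod_cast this
  have e1 : ∀ t : ℕ, ee (m * (t / L)) = ee (m / L) ^ t := by
    intro t
    unfold ee
    rw [← Complex.exp_nat_mul]
    congr 1
    push_cast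
    ring
  have h1 : ee (m / L) ≠ 1 := by
    unfold ee
    rw [Ne, Complex.exp_eq_one_iff]
    rintro ⟨n, hn⟩
    have h2 : ((m / L : ℝ) : ℂ) = n := by
      have h3 : (2 * Real.pi * Complex.I : ℂ) ≠ 0 := Complex.two_pi_I_ne_zero
      apply mul_left_cancel₀ h3
      linear_combination hn
    have h4 : (m / L : ℝ) = n := by exact_mod_cast h2
    rw [div_eq_iff hL.ne'] at h4
    have h5 : m = n * L := by exact_mod_cast h4
    have h6 : n ≠ 0 := by rintro rfl; exact h (by simpa using h5)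
    have h7 : 1 ≤ |n| := Int.one_le_abs h6
    rw [h5, abs_mul, Nat.abs_cast] at hm
    have : (0 : ℤ) ≤ L := by positivity
    nlinarith
  have h2 : ee (m / L) ^ L = 1 := by
    rw [← e1, div_self hL.ne', mul_one]
    unfold ee
    rw [← Complex.exp_int_mul_two_pi_mul_I m]
    congr 1
    push_cast
    ring
  simp only [← ee_re, ee_add', e1]
  rw [← Complex.re_sum, ← sum_mul, geom_sum_eq h1, h2]
  simp

theorem cs_mul (x y : ℝ) : cs x * cs y = (cs (y + x) + cs (y - x)) / 2 := by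
  unfold cs
  rw [mul_add, mul_sub, Real.cos_add, Real.cos_sub]
  ring

theorem quad_cs (s : Finset ℕ) (x u : ℕ → ℝ) : ∑ j ∈ s, ∑ j' ∈ s, x j * x j' * cs (u j - u j') =
    (∑ j ∈ s, x j * Real.cos (2 * Real.pi * u j)) ^ 2 +
      (∑ j ∈ s, x j * Real.sin (2 * Real.pi * u j)) ^ 2 := by
  rw [pow_two, pow_two, sum_mul_sum, sum_mul_sum, ← sum_add_distrib]
  refine sum_congr rfl fun j _ => ?_
  rw [← sum_add_distrib]
  refine sum_congr rfl fun j' _ => ?_
  rw [cs, mul_sub, Real.cos_sub]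
  ring

/-- Fejer density -/
noncomputable def rho (c : ℤ → ℝ) (N : ℕ) (θ : ℝ) : ℝ :=
  ∑ j ∈ range N, ∑ j' ∈ range N, c ((j : ℤ) - j') * cs (((j : ℝ) - j') * θ)

/-- discrete pairing -/
noncomputable def Lam (c : ℤ → ℝ) (g : ℝ → ℝ) (N : ℕ) : ℝ :=
  (∑ t ∈ range (3 * N), rho c N (t / (3 * N : ℕ)) * g (t / (3 * N : ℕ))) / ((3 * N : ℕ) * N)

/-- spectral value -/
def TP (c : ℤ → ℝ) (g : ℝ → ℝ) (z : ℝ) : Prop := Tendsto (Lam c g) atTop (𝓝 z)

theorem TP.add {c : ℤ → ℝ} {g g' : ℝ → ℝ} {z z' : ℝ} (h : TP c g z) (h' : TP c g' z') :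
    TP c (fun θ => g θ + g' θ) (z + z') :=
  (Tendsto.add h h').congr fun N => by simp only [Lam, mul_add, sum_add_distrib, add_div]

theorem TP.mul {c : ℤ → ℝ} {g : ℝ → ℝ} {z : ℝ} (a : ℝ) (h : TP c g z) :
    TP c (fun θ => a * g θ) (a * z) :=
  (Tendsto.const_mul a h).congr fun N => by
    simp only [Lam, mul_left_comm _ a, ← mul_sum, mul_div_assoc]

theorem TP.sum {c : ℤ → ℝ} {ι : Type*} (s : Finset ι) {g : ι → ℝ → ℝ} {z : ι → ℝ}
    (h : ∀ i ∈ s, TP c (g i) (z i)) : TP c (fun θ => ∑ i ∈ s, g i θ) (∑ i ∈ s, z i) :=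
  (tendsto_finsetSum s h).congr fun N => by
    simp only [Lam, mul_sum, ← sum_div]
    rw [sum_comm]

theorem TP.le {c : ℤ → ℝ} (hc : ∀ N θ, 0 ≤ rho c N θ) {g g' : ℝ → ℝ} {z z' : ℝ} (h : TP c g z)
    (h' : TP c g' z') (hg : ∀ θ, 0 ≤ θ → θ ≤ 1 → g θ ≤ g' θ) : z ≤ z' := by
  refine le_of_tendsto_of_tendsto' h h' fun N => ?_
  refine div_le_div_of_nonneg_right (sum_le_sum fun t ht => ?_) (by positivity)
  refine mul_le_mul_of_nonneg_left (hg _ (by positivity) ?_) (hc _ _)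
  exact div_le_one_of_le₀ (by exact_mod_cast (mem_range.1 ht).le) (by positivity)

theorem cnt_diff (N : ℕ) (k : ℤ) :
    (N : ℝ) - |(k : ℝ)| ≤ ∑ j ∈ range N, ∑ j' ∈ range N, (if (j : ℤ) - j' = k then (1 : ℝ) else 0) ∧
    ∑ j ∈ range N, ∑ j' ∈ range N, (if (j : ℤ) - j' = k then (1 : ℝ) else 0) ≤ N := by
  have e : ∀ j ∈ range N, ∑ j' ∈ range N, (if (j : ℤ) - j' = k then (1 : ℝ) else 0) =
      if k ≤ j ∧ (j : ℤ) < N + k then 1 else 0 := by
    intro j _
    split_ifs with h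
    · rw [sum_eq_single (j - k).toNat]
      · rw [if_pos (by omega)]
      · intro b _ hb
        exact if_neg (by omega)
      · intro hb
        exact absurd (mem_range.2 (by omega)) hb
    · refine sum_eq_zero fun b hb => if_neg ?_
      have := mem_range.1 hb
      omega
  rw [sum_congr rfl e, sum_boole]
  have e2 : (range N).filter (fun j : ℕ => k ≤ j ∧ (j : ℤ) < N + k) =
      Ico k.toNat (N - (-k).toNat) := by
    ext j
    simp only [mem_filter, mem_range, mem_Ico]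
    omega
  rw [e2, Nat.card_Ico]
  constructor
  · have : (N : ℤ) - |k| ≤ (N - (-k).toNat - k.toNat : ℕ) := by
      rcases abs_cases k with h | h <;> omega
    exact_mod_cast this
  · exact_mod_cast (show N - (-k).toNat - k.toNat ≤ N by omega)

theorem cnt_lim (k : ℤ) : Tendsto (fun N : ℕ => (∑ j ∈ range N, ∑ j' ∈ range N,
    (if (j : ℤ) - j' = k then (1 : ℝ) else 0)) / N) atTop (𝓝 1) := by
  have h1 : Tendsto (fun N : ℕ => 1 - |(k : ℝ)| / N) atTop (𝓝 1) := by
    simpa using (tendsto_const_div_atTop_nhds_zero_nat |(k : ℝ)|).const_sub 1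
  refine tendsto_of_tendsto_of_tendsto_of_le_of_le' h1 tendsto_const_nhds ?_ ?_
  · filter_upwards [eventually_gt_atTop 0] with N hN
    have : (0 : ℝ) < N := by exact_mod_cast hN
    rw [le_div_iff₀ this, sub_mul, div_mul_cancel₀ _ this.ne', one_mul]
    exact (cnt_diff N k).1
  · exact Eventually.of_forall fun N => div_le_one_of_le₀ (cnt_diff N k).2 (by positivity)

theorem TP.base {c : ℤ → ℝ} (hc : ∀ k, c (-k) = c k) (k : ℤ) (β : ℝ) :
    TP c (fun θ => cs (k * θ + β)) (c k * cs β) := by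
  have h := (((cnt_lim k).add (cnt_lim (-k))).div_const 2).const_mul (c k * cs β)
  rw [show (1 + 1 : ℝ) / 2 = 1 by norm_num, mul_one] at h
  refine h.congr' ?_
  filter_upwards [eventually_gt_atTop k.natAbs] with N hN
  have hN0 : (0 : ℝ) < N := by exact_mod_cast (show 0 < N by omega)
  have e : ∑ t ∈ range (3 * N), rho c N (t / (3 * N : ℕ)) * cs (k * (t / (3 * N : ℕ)) + β) =
      ∑ j ∈ range N, ∑ j' ∈ range N, c k * cs β * (3 * N : ℕ) / 2 *
        ((if (j : ℤ) - j' = k then (1 : ℝ) else 0) + (if (j : ℤ) - j' = -k then (1 : ℝ) else 0)) := by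
    simp only [rho, sum_mul]
    rw [sum_comm]
    refine sum_congr rfl fun j hj => ?_
    rw [sum_comm]
    refine sum_congr rfl fun j' hj' => ?_
    have a1 := mem_range.1 hj
    have a2 := mem_range.1 hj'
    have o1 := orth (3 * N) (k + (j - j')) (by rw [abs_lt]; omega) β
    have o2 := orth (3 * N) (k - (j - j')) (by rw [abs_lt]; omega) β
    have a3 : ∀ t : ℕ, c ((j : ℤ) - j') * cs (((j : ℝ) - j') * (t / (3 * N : ℕ))) *
        cs (k * (t / (3 * N : ℕ)) + β) = c ((j : ℤ) - j') / 2 *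
        (cs ((k + (j - j') : ℤ) * (t / (3 * N : ℕ)) + β) +
          cs ((k - (j - j') : ℤ) * (t / (3 * N : ℕ)) + β)) := by
      intro t
      rw [mul_assoc, cs_mul]
      push_cast
      ring_nf
    simp only [a3]
    rw [← mul_sum, sum_add_distrib, o1, o2]
    by_cases b1 : (j : ℤ) - j' = k <;> by_cases b2 : (j : ℤ) - j' = -k
    · rw [if_pos (by omega), if_pos (by omega), if_pos b1, if_pos b2, b1]; ring
    · rw [if_neg (by omega), if_pos (by omega), if_pos b1, if_neg b2, b1]; ring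
    · rw [if_pos (by omega), if_neg (by omega), if_neg b1, if_pos b2, b2, hc]; ring
    · rw [if_neg (by omega), if_neg (by omega), if_neg b1, if_neg b2]; ring
  simp only [Lam]
  rw [e]
  simp only [← mul_sum, sum_add_distrib]
  push_cast
  field_simp

theorem minor_bound {η : ℝ} (hη : 0 < η) : ∃ Q : ℝ, 1 ≤ Q ∧ ∃ i₀ : ℕ, ∀ i₁, i₀ ≤ i₁ → ∀ α : ℝ,
    ¬ Major Q (2 ^ i₁) α → ∀ i, i₁ ≤ i → |∑ p ∈ prs i, cs (α * p)| ≤ 6 * η * 2 ^ i / (i + 1) := by
  obtain ⟨Q, hQ, N0, -, h⟩ := j4 η hη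
  refine ⟨Q, hQ, N0 + 1, fun i₁ hi₁ α hα i hi => ?_⟩
  have key : ∀ n, i₁ ≤ n → ‖∑ p ∈ (Icc 1 (2 ^ n)).filter Nat.Prime, ee (α * p)‖ ≤
      η * 2 ^ n * (3 / 2) / n := by
    intro n hn
    have h1 := h (2 ^ n) (le_trans (by omega) (Nat.lt_two_pow_self (n := n)).le) α (by
      rintro ⟨q, q1, q2, a, q3⟩
      refine hα ⟨q, q1, q2, a, q3.trans ?_⟩
      push_cast
      gcongr
      norm_num)
    refine h1.trans ?_
    have hn0 : (0 : ℝ) < n := by exact_mod_cast (show 0 < n by omega)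
    push_cast
    rw [Real.log_pow, div_le_div_iff₀ (by have := Real.log_two_gt_d9; positivity) hn0]
    have h2 : (1 : ℝ) ≤ 3 / 2 * Real.log 2 := by linarith [Real.log_two_gt_d9]
    have h3 : 0 ≤ η * 2 ^ n * n := by positivity
    nlinarith
  have e : ∑ p ∈ prs i, ee (α * p) = ∑ p ∈ (Icc 1 (2 ^ (i + 1))).filter Nat.Prime, ee (α * p) -
      ∑ p ∈ (Icc 1 (2 ^ i)).filter Nat.Prime, ee (α * p) := by
    rw [eq_sub_iff_add_eq, prs, sum_filter, sum_filter, sum_filter, add_comm]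
    exact sum_Ioc_consecutive _ (Nat.zero_le _) (Nat.pow_le_pow_right (by norm_num) (by omega))
  simp only [← ee_re]
  rw [← Complex.re_sum]
  refine (Complex.abs_re_le_norm _).trans ?_
  rw [e]
  refine (norm_sub_le _ _).trans ((add_le_add (key _ (by omega)) (key _ hi)).trans ?_)
  have hi1 : (1 : ℝ) ≤ i := by exact_mod_cast (show 1 ≤ i by omega)
  have h1 : η * 2 ^ i * (3 / 2) / i ≤ η * 2 ^ i * 3 / (i + 1) := by
    rw [div_le_div_iff₀ (by linarith) (by linarith)]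
    have h3 : 0 ≤ η * 2 ^ i := by positivity
    nlinarith
  push_cast
  have h2 : η * 2 ^ (i + 1) * (3 / 2) / (i + 1) = η * 2 ^ i * 3 / (i + 1) := by ring
  have h3 : 6 * η * 2 ^ i / (i + 1) = 2 * (η * 2 ^ i * 3 / (i + 1)) := by ring
  linarith

theorem harm_le (I : ℕ) : ∑ i ∈ range I, (if 2 ≤ i then 1 / ((i : ℝ) + 1) else 0) ≤
    2 * ∑ i ∈ range I, ((prs i).card : ℝ) / 2 ^ i := by
  have e : ∀ i, Nat.primeCounting (2 ^ (i + 1)) = Nat.primeCounting (2 ^ i) + (prs i).card := by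
    intro i
    have h1 : ∀ n, Nat.primeCounting n = ∑ p ∈ Ioc 0 n, if p.Prime then 1 else 0 := by
      intro n
      rw [sum_boole, Nat.primeCounting, Nat.primeCounting', Nat.count_eq_card_filter_range]
      congr 1
      ext p
      simp only [mem_filter, mem_range, mem_Ioc]
      constructor
      · rintro ⟨a, b⟩; exact ⟨⟨b.pos, by omega⟩, b⟩
      · rintro ⟨a, b⟩; exact ⟨by omega, b⟩
    rw [h1, h1, ← sum_Ioc_consecutive _ (Nat.zero_le (2 ^ i))
      (Nat.pow_le_pow_right (by norm_num) (by omega)), prs, card_filter]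
  have low : ∀ i : ℕ, 2 ≤ i → 1 / ((i : ℝ) + 1) ≤
      2 * (Nat.primeCounting (2 ^ (i + 1)) / 2 ^ (i + 1)) := by
    intro i hi
    have h1 := Chebyshev.pi_ge (2 ^ (i + 1))
    have hl := Real.log_two_gt_d9
    have h2 : 2 * (i + 2) ≤ 2 ^ (i + 1) := by
      clear h1
      induction i, hi using Nat.le_induction with
      | base => norm_num
      | succ n _ ih => rw [pow_succ]; omega
    have h2' : 2 * ((i : ℝ) + 2) ≤ 2 ^ (i + 1) := by exact_mod_cast h2
    have h3 : Real.log (2 ^ (i + 1) + 1) ≤ (i + 2) * Real.log 2 := by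
      have : Real.log (2 ^ (i + 2)) = (i + 2) * Real.log 2 := by
        rw [Real.log_pow]; push_cast; ring
      rw [← this]
      refine Real.log_le_log (by positivity) ?_
      rw [pow_succ 2 (i + 1)]
      have : (0 : ℝ) ≤ i := by positivity
      linarith
    push_cast at h1
    rw [Real.log_pow, div_le_iff₀ (by positivity)] at h1
    push_cast at h1
    rw [← mul_div_assoc, div_le_div_iff₀ (by positivity) (by positivity)]
    have h4 : (2 ^ (i + 1) / 2) * Real.log 2 ≤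
        (Nat.primeCounting (2 ^ (i + 1)) * (i + 1)) * Real.log 2 := by nlinarith
    have h5 := le_of_mul_le_mul_right h4 (by linarith)
    linarith
  have key : ∑ i ∈ range I, (if 2 ≤ i then 1 / ((i : ℝ) + 1) else 0) +
      2 * (Nat.primeCounting (2 ^ I) / 2 ^ I) ≤ 2 * ∑ i ∈ range I, ((prs i).card : ℝ) / 2 ^ i := by
    induction I with
    | zero => simp
    | succ I ih =>
      rw [sum_range_succ, sum_range_succ]
      have h1 : (if 2 ≤ I then 1 / ((I : ℝ) + 1) else 0) ≤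
          2 * (Nat.primeCounting (2 ^ (I + 1)) / 2 ^ (I + 1)) := by
        split_ifs with h
        · exact low I h
        · positivity
      have h2 : ((prs I).card : ℝ) / 2 ^ I = 2 * (Nat.primeCounting (2 ^ (I + 1)) / 2 ^ (I + 1)) -
          Nat.primeCounting (2 ^ I) / 2 ^ I := by
        rw [e]; push_cast; field_simp; ring
      linarith
  have : (0 : ℝ) ≤ 2 * (Nat.primeCounting (2 ^ I) / 2 ^ I) := by positivity
  linarith

/-- normalised Fejer kernel -/
noncomputable def Fe (J : ℕ) (x : ℝ) : ℝ :=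
  1 / (J : ℝ) ^ 2 * ∑ j ∈ range J, ∑ j' ∈ range J, cs (((j : ℝ) - j') * x)

theorem Fe_nonneg (J : ℕ) (x : ℝ) : 0 ≤ Fe J x := by
  have := quad_cs (range J) (fun _ => 1) (fun j => j * x)
  simp only [one_mul, ← sub_mul] at this
  rw [Fe, this]
  positivity

theorem Fe_ge {J : ℕ} (hJ : 0 < J) {x : ℝ} (hx : 7 * J * |x| ≤ 1) : 1 / 2 ≤ Fe J x := by
  have hJ' : (0 : ℝ) < J := by exact_mod_cast hJ
  have h1 : ∀ j ∈ range J, ∀ j' ∈ range J, (1 / 2 : ℝ) ≤ cs (((j : ℝ) - j') * x) := by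
    intro j hj j' hj'
    have a1 : (j : ℝ) ≤ J := by exact_mod_cast (mem_range.1 hj).le
    have a2 : (j' : ℝ) ≤ J := by exact_mod_cast (mem_range.1 hj').le
    have a3 : |(j : ℝ) - j'| ≤ J := by
      have : (0 : ℝ) ≤ j := by positivity
      have : (0 : ℝ) ≤ j' := by positivity
      rw [abs_le]; constructor <;> linarith
    have a4 : |2 * Real.pi * (((j : ℝ) - j') * x)| ≤ 1 := by
      rw [abs_mul, abs_mul _ x, abs_of_pos (by positivity : 0 < 2 * Real.pi)]
      calc _ ≤ 7 * (J * |x|) := by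
            gcongr
            linarith [Real.pi_lt_d2]
        _ ≤ 1 := by linarith
    have a5 := Real.one_sub_sq_div_two_le_cos (x := 2 * Real.pi * (((j : ℝ) - j') * x))
    have a6 := (sq_le_one_iff_abs_le_one _).2 a4
    unfold cs
    linarith
  have h2 := sum_le_sum fun j hj => sum_le_sum (h1 j hj)
  simp only [sum_const, card_range, nsmul_eq_mul] at h2
  rw [Fe, one_div_mul_eq_div, le_div_iff₀ (by positivity)]
  linarith

section

variable {M : (ℕ → ℝ) →ₗ[ℝ] ℝ} {f : ℕ → ℤ}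

/-- the correlation sequence -/
noncomputable def cor (M : (ℕ → ℝ) →ₗ[ℝ] ℝ) (f : ℕ → ℤ) (k : ℤ) : ℝ := M (pr2 f k.natAbs)

theorem cor_eq (hM : IsM M) (hf : CM f) (j j' : ℕ) :
    cor M f ((j : ℤ) - j') = M (fun n => (f (n + j) : ℝ) * f (n + j')) := by
  have b1 : ∀ k, Bd (pr2 f k) := fun k => ⟨1, abs_pr2 hf k⟩
  unfold cor
  rcases le_total j j' with h | h
  · obtain ⟨d, rfl⟩ := Nat.exists_eq_add_of_le h
    rw [show ((j : ℤ) - (j + d : ℕ)).natAbs = d by omega, ← hM.shift (b1 d) j]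
    simp only [pr2, add_assoc]
  · obtain ⟨d, rfl⟩ := Nat.exists_eq_add_of_le h
    rw [show (((j' + d : ℕ) : ℤ) - j').natAbs = d by omega, ← hM.shift (b1 d) j']
    simp only [pr2, add_assoc, mul_comm]

theorem rho_eq (hM : IsM M) (hf : CM f) (N : ℕ) (θ : ℝ) : rho (cor M f) N θ =
    M (fun n => (∑ j ∈ range N, (f (n + j) : ℝ) * Real.cos (2 * Real.pi * ((n + j : ℕ) * θ))) ^ 2 +
      (∑ j ∈ range N, (f (n + j) : ℝ) * Real.sin (2 * Real.pi * ((n + j : ℕ) * θ))) ^ 2) := by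
  simp only [rho, cor_eq hM hf, mul_comm (M _), ← IsM.mul, ← IsM.sum]
  congr 1
  ext n
  rw [← quad_cs (range N) (fun j => (f (n + j) : ℝ)) (fun j => (n + j : ℕ) * θ)]
  refine sum_congr rfl fun j _ => sum_congr rfl fun j' _ => ?_
  rw [mul_comm]
  congr 2
  push_cast
  ring

theorem bd_trig (hf : CM f) (N : ℕ) (φ : ℕ → ℝ) (hφ : ∀ n, |φ n| ≤ 1) :
    Bd (fun n => (∑ j ∈ range N, (f (n + j) : ℝ) * φ (n + j)) ^ 2) :=
  Bd.sq (Bd.sum _ fun j _ => Bd.mul ⟨1, fun _ => hf.abs_le' _⟩ ⟨1, fun _ => hφ _⟩)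

theorem rho_nonneg (hM : IsM M) (hf : CM f) (N : ℕ) (θ : ℝ) : 0 ≤ rho (cor M f) N θ := by
  rw [rho_eq hM hf]
  exact hM.pos _ ((bd_trig hf N (fun m => Real.cos (2 * Real.pi * (m * θ)))
    fun _ => Real.abs_cos_le_one _).add (bd_trig hf N (fun m => Real.sin (2 * Real.pi * (m * θ)))
    fun _ => Real.abs_sin_le_one _)) fun _ => by positivity

theorem per_small (hM : IsM M) (hf : CM f) (hP : ¬ Pret f) {q : ℕ} (hq : 0 < q) (φ : ℕ → ℝ)
    (hφ : ∀ n, |φ n| ≤ 1) (hper : ∀ n, φ (n % q) = φ n) {ε : ℝ} (hε : 0 < ε) :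
    ∀ᶠ J : ℕ in atTop, 1 / (J : ℝ) ^ 2 *
      M (fun n => (∑ j ∈ range J, (f (n + j) : ℝ) * φ (n + j)) ^ 2) ≤ ε := by
  haveI : NeZero q := ⟨hq.ne'⟩
  have hq' : (0 : ℝ) < q := by exact_mod_cast hq
  have h1 := (eventually_all (ι := ZMod q)).2 fun c =>
    short_mean hM hf hP hq c (ε := ε / q ^ 2) (by positivity)
  filter_upwards [h1] with J hJ
  have b1 : ∀ c : ZMod q, Bd (fun t => Ces (fun j => (gc f q c (t + j) : ℝ)) J ^ 2) := fun c =>
    Bd.sq ⟨1, fun t => abs_Ces_le (fun _ => by exact_mod_cast gc_bdd hf q c _) J⟩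
  have h2 : M (fun t => q * ∑ c : ZMod q, Ces (fun j => (gc f q c (t + j) : ℝ)) J ^ 2) ≤ ε := by
    rw [IsM.mul, IsM.sum]
    have := sum_le_sum fun c (_ : c ∈ (univ : Finset (ZMod q))) => hJ c
    rw [sum_const, card_univ, ZMod.card, nsmul_eq_mul] at this
    calc _ ≤ (q : ℝ) * (q * (ε / q ^ 2)) := by gcongr
      _ = ε := by field_simp
  rw [← IsM.mul]
  refine le_trans (hM.mono ((Bd.const _).mul (bd_trig hf J φ hφ))
    ((Bd.const _).mul (Bd.sum _ fun c _ => b1 c)) fun n => ?_) h2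
  have e : 1 / (J : ℝ) ^ 2 * (∑ j ∈ range J, (f (n + j) : ℝ) * φ (n + j)) ^ 2 =
      (∑ c : ZMod q, φ c.val * Ces (fun j => (gc f q c (n + j) : ℝ)) J) ^ 2 := by
    rw [one_div_mul_eq_div, ← div_pow]
    congr 1
    simp only [Ces, ← mul_div_assoc, ← sum_div, mul_sum]
    congr 1
    rw [sum_comm]
    refine sum_congr rfl fun j _ => ?_
    rw [sum_eq_single ((n + j : ℕ) : ZMod q)]
    · rw [ZMod.val_natCast, hper, gc, if_pos rfl, mul_comm]
    · intro c _ hc
      rw [gc, if_neg (Ne.symm hc)]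
      simp
    · simp
  rw [e]
  refine sq_sum_le_card_mul_sum_sq.trans ?_
  rw [card_univ, ZMod.card]
  refine mul_le_mul_of_nonneg_left (sum_le_sum fun c _ => ?_) hq'.le
  rw [mul_pow]
  exact mul_le_of_le_one_left (sq_nonneg _) ((sq_le_one_iff_abs_le_one _).2 (hφ _))

theorem rat_small (hM : IsM M) (hf : CM f) (hP : ¬ Pret f) {q : ℕ} (hq : 0 < q) (a : ℤ)
    {ε : ℝ} (hε : 0 < ε) : ∀ᶠ J : ℕ in atTop, 1 / (J : ℝ) ^ 2 * rho (cor M f) J (a / q) ≤ ε := by
  have hq' : (q : ℝ) ≠ 0 := by exact_mod_cast hq.ne'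
  have e : ∀ n : ℕ, 2 * Real.pi * (n * (a / q : ℝ)) =
      2 * Real.pi * ((n % q : ℕ) * (a / q : ℝ)) + ((n / q : ℕ) * a : ℤ) * (2 * Real.pi) := by
    intro n
    have : (n : ℝ) = (n % q : ℕ) + q * (n / q : ℕ) := by exact_mod_cast (Nat.mod_add_div n q).symm
    rw [Int.cast_mul, Int.cast_natCast]
    nth_rewrite 1 [this]
    field_simp
  filter_upwards [per_small hM hf hP hq (fun m => Real.cos (2 * Real.pi * (m * (a / q))))
    (fun _ => Real.abs_cos_le_one _) (fun n => by rw [e n, Real.cos_add_int_mul_two_pi])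
    (half_pos hε), per_small hM hf hP hq (fun m => Real.sin (2 * Real.pi * (m * (a / q))))
    (fun _ => Real.abs_sin_le_one _) (fun n => by rw [e n, Real.sin_add_int_mul_two_pi])
    (half_pos hε)] with J h1 h2
  rw [rho_eq hM hf, IsM.add, mul_add]
  linarith

theorem cor_neg (k : ℤ) : cor M f (-k) = cor M f k := by simp [cor]

theorem TP_Fe (J : ℕ) (θ₀ : ℝ) : TP (cor M f) (fun θ => Fe J (θ - θ₀))
    (1 / (J : ℝ) ^ 2 * rho (cor M f) J θ₀) := by
  refine TP.mul _ (TP.sum _ fun j _ => TP.sum _ fun j' _ => ?_)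
  have := TP.base (c := cor M f) cor_neg ((j : ℤ) - j') (-(((j : ℝ) - j') * θ₀))
  have e : cs (-(((j : ℝ) - j') * θ₀)) = cs (((j : ℝ) - j') * θ₀) := by
    unfold cs
    rw [mul_neg, Real.cos_neg]
  rw [e] at this
  convert this using 3
  push_cast; ring

theorem spec_bound (hM : IsM M) (hf : CM f) (hP : ¬ Pret f) {h : ℕ} (hh : 0 < h) {η : ℝ}
    (hη : 0 < η) : ∃ C : ℝ, ∀ (I : ℕ) (s : ℝ), |s| ≤ 1 →
      s * ∑ i ∈ range I, 1 / 2 ^ i * ∑ p ∈ prs i, M (pr2 f (p * h)) ≤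
        C + 14 * η * ∑ i ∈ range I, ((prs i).card : ℝ) / 2 ^ i := by
  obtain ⟨Q, hQ, i₀, hmin⟩ := minor_bound hη
  set Q' := ⌊Q⌋₊ with hQ'
  obtain ⟨Θ, hΘ⟩ : ∃ Θ : Finset (ℕ × ℤ),
    Θ = Icc 1 Q' ×ˢ Icc (-(Q' * h : ℤ)) (2 * (Q' * h)) := ⟨_, rfl⟩
  have hε : 0 < η / (Θ.card + 1) := by positivity
  obtain ⟨J, hJ1, hJ⟩ := ((eventually_gt_atTop 0).and ((eventually_all_finset Θ).2 fun x hx =>
    rat_small hM hf hP (q := x.1 * h)
      (Nat.mul_pos (mem_Icc.1 (mem_product.1 (hΘ ▸ hx)).1).1 hh) x.2 hε)).exists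
  obtain ⟨i₁, hi₁, hi₂⟩ := ((eventually_ge_atTop (max i₀ 2)).and
    ((tendsto_pow_atTop_atTop_of_one_lt (one_lt_two (α := ℝ))).eventually_ge_atTop
      (7 * J * Q))).exists
  have hJ' : (1 : ℝ) ≤ J := by exact_mod_cast hJ1
  have hh' : (1 : ℝ) ≤ h := by exact_mod_cast hh
  refine ⟨i₁, fun I s hs => ?_⟩
  obtain ⟨S, hS⟩ : ∃ S, S = ∑ i ∈ range I, ((prs i).card : ℝ) / 2 ^ i := ⟨_, rfl⟩
  rw [← hS]
  have hS0 : 0 ≤ S := hS ▸ sum_nonneg fun _ _ => by positivity
  have t1 : TP (cor M f) (fun θ => s * ∑ i ∈ range I, 1 / 2 ^ i * ∑ p ∈ prs i, cs (h * θ * p))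
      (s * ∑ i ∈ range I, 1 / 2 ^ i * ∑ p ∈ prs i, M (pr2 f (p * h))) := by
    refine TP.mul _ (TP.sum _ fun i _ => TP.mul _ (TP.sum _ fun p _ => ?_))
    have := TP.base (c := cor M f) cor_neg ((p * h : ℕ) : ℤ) 0
    convert this using 3
    · push_cast; ring
    · simp [cs, cor, Int.natAbs_mul]
  have c0 : cor M f 0 = 1 := by
    rw [← hM.one]
    refine hM.congr_ev ⟨1, abs_pr2 hf _⟩ (Bd.const 1) ?_
    filter_upwards [eventually_gt_atTop 0] with n hn
    have : (f n : ℝ) * f n = 1 := by exact_mod_cast hf.sq hn.ne'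
    simpa [pr2] using this
  have t0 : TP (cor M f) (fun _ => 1) 1 := by
    have := TP.base (c := cor M f) cor_neg 0 0
    simpa [cs, c0] using this
  have t2 := (TP.mul (i₁ + 12 * η * S) t0).add (TP.mul (2 * S) (TP.sum Θ fun x _ =>
    TP_Fe (M := M) (f := f) J (x.2 / (x.1 * h : ℕ))))
  have t3 := TP.le (rho_nonneg hM hf) t1 t2 fun θ h0 h1 => by
    have hF : 0 ≤ ∑ x ∈ Θ, Fe J (θ - x.2 / (x.1 * h : ℕ)) := sum_nonneg fun _ _ => Fe_nonneg _ _
    have triv : ∀ i, |1 / 2 ^ i * ∑ p ∈ prs i, cs (h * θ * p)| ≤ ((prs i).card : ℝ) / 2 ^ i := by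
      intro i
      rw [abs_mul, abs_of_pos (by positivity), one_div_mul_eq_div]
      gcongr
      refine (abs_sum_le_sum_abs _ _).trans ((sum_le_card_nsmul _ _ 1
        fun _ _ => Real.abs_cos_le_one _).trans (by simp))
    refine (le_abs_self _).trans ?_
    rw [abs_mul]
    refine (mul_le_of_le_one_left (abs_nonneg _) hs).trans ((abs_sum_le_sum_abs _ _).trans ?_)
    by_cases hmaj : Major Q (2 ^ i₁) (h * θ)
    · obtain ⟨q, q1, q2, a, q3⟩ := hmaj
      have q1' : (1 : ℝ) ≤ q := by exact_mod_cast q1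
      have q4 : q ≤ Q' := Nat.le_floor q2
      have q5 : |θ - a / (q * h : ℕ)| ≤ Q / 2 ^ i₁ := by
        have : θ - a / (q * h : ℕ) = (h * θ - a / q) / h := by push_cast; field_simp
        rw [this, abs_div, Nat.abs_cast]
        exact (div_le_self (abs_nonneg _) hh').trans q3
      have q6 : 7 * J * (Q / 2 ^ i₁) ≤ 1 := by
        rw [← mul_div_assoc, div_le_one (by positivity)]; exact hi₂
      have q7 : Q / 2 ^ i₁ ≤ 1 := by
        have : 0 ≤ Q / 2 ^ i₁ := by positivity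
        nlinarith
      have hm : (q, a) ∈ Θ := by
        rw [hΘ, mem_product, mem_Icc, mem_Icc]
        refine ⟨⟨q1, q4⟩, ?_⟩
        have r0 : (0 : ℝ) < (q * h : ℕ) := by push_cast; positivity
        have r1 : ((q * h : ℕ) : ℝ) ≤ Q' * h := by push_cast; gcongr
        have r2 := abs_le.1 (q5.trans q7)
        have r3 : -1 ≤ (a : ℝ) / (q * h : ℕ) := by linarith [r2.2]
        have r4 : (a : ℝ) / (q * h : ℕ) ≤ 2 := by linarith [r2.1]
        rw [le_div_iff₀ r0] at r3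
        rw [div_le_iff₀ r0] at r4
        constructor
        · have : -((Q' : ℝ) * h) ≤ a := by linarith
          exact_mod_cast this
        · have : (a : ℝ) ≤ 2 * (Q' * h) := by linarith
          exact_mod_cast this
      have q8 := (Fe_ge hJ1 (le_trans (by gcongr) q6)).trans
        (single_le_sum (f := fun x : ℕ × ℤ => Fe J (θ - x.2 / (x.1 * h : ℕ)))
          (fun _ _ => Fe_nonneg _ _) hm)
      refine (sum_le_sum fun i _ => triv i).trans ?_
      have z1 : (0 : ℝ) ≤ η * S := mul_nonneg hη.le hS0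
      have z2 : (0 : ℝ) ≤ i₁ := Nat.cast_nonneg _
      have z3 := mul_le_mul_of_nonneg_left q8 hS0
      rw [← hS]
      linarith
    · have u1 : ∀ i ∈ range I, |1 / 2 ^ i * ∑ p ∈ prs i, cs (h * θ * p)| ≤
          (if i < i₁ then 1 else 0) + 6 * η * (if 2 ≤ i then 1 / ((i : ℝ) + 1) else 0) := by
        intro i _
        by_cases hi : i < i₁
        · rw [if_pos hi]
          have a1 : ((prs i).card : ℝ) / 2 ^ i ≤ 1 :=
            div_le_one_of_le₀ (by exact_mod_cast card_prs_le i) (by positivity)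
          have a2 : 0 ≤ 6 * η * (if 2 ≤ i then 1 / ((i : ℝ) + 1) else 0) := by
            split_ifs <;> positivity
          linarith [triv i]
        · rw [if_neg hi, if_pos (by omega), zero_add, abs_mul, abs_of_pos (by positivity)]
          have := hmin i₁ (by omega) _ hmaj i (by omega)
          calc _ ≤ 1 / 2 ^ i * (6 * η * 2 ^ i / (i + 1)) := by gcongr
            _ = _ := by field_simp
      refine (sum_le_sum u1).trans ?_
      rw [sum_add_distrib, ← mul_sum, sum_boole]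
      have a1 : (((range I).filter (fun i => i < i₁)).card : ℝ) ≤ i₁ := by
        have : ((range I).filter (fun i => i < i₁)).card ≤ i₁ :=
          (card_le_card (t := range i₁) fun n hn => mem_range.2 (mem_filter.1 hn).2).trans
            (card_range i₁).le
        exact_mod_cast this
      have a2 := mul_le_mul_of_nonneg_left (harm_le I) (show 0 ≤ 6 * η by positivity)
      rw [← hS] at a2
      have a3 := mul_nonneg hS0 hF
      linarith
  refine t3.trans ?_
  have u1 : ∑ x ∈ Θ, 1 / (J : ℝ) ^ 2 * rho (cor M f) J (x.2 / (x.1 * h : ℕ)) ≤ η := by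
    refine (sum_le_card_nsmul _ _ _ hJ).trans ?_
    rw [nsmul_eq_mul, ← mul_div_assoc, div_le_iff₀ (by positivity)]
    linarith
  have z3 := mul_le_mul_of_nonneg_left u1 hS0
  linarith

/-- two-point logarithmic correlations vanish -/
theorem cor_zero (hM : IsM M) (hf : CM f) (hP : ¬ Pret f) {h : ℕ} (hh : 0 < h) :
    M (pr2 f h) = 0 := by
  have hS : Tendsto (fun I => ∑ i ∈ range I, ((prs i).card : ℝ) / 2 ^ i) atTop atTop :=
    (not_summable_iff_tendsto_nat_atTop_of_nonneg fun _ => by positivity).1 not_summable_prs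
  have key : ∀ s : ℝ, |s| ≤ 1 → ∀ η : ℝ, 0 < η → η ≤ 1 / 4 → s * M (pr2 f h) ≤ 31 * η := by
    intro s hs η hη hη1
    obtain ⟨C, hC⟩ := spec_bound hM hf hP hh hη
    obtain ⟨I, hI1, hI2⟩ := ((hS.eventually_gt_atTop 0).and
      (hS.eventually_ge_atTop ((2 * (h + 1) / η + C) / η))).exists
    have h1 := hC I s hs
    have h2 := ent_mean hM hf h I s hs η hη (by linarith)
    simp only [sum_sub_distrib, mul_sub, sum_const, nsmul_eq_mul, ← mul_assoc, ← sum_mul,
      one_div_mul_eq_div] at h1 h2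
    set S := ∑ i ∈ range I, ((prs i).card : ℝ) / 2 ^ i
    set T := ∑ i ∈ range I, (∑ p ∈ prs i, M (pr2 f (p * h))) / 2 ^ i
    rw [div_le_iff₀ hη] at hI2
    have h3 : s * S * M (pr2 f h) - s * T ≤ 2 * (h + 1) / η + 16 * η * S := by
      rw [← mul_le_mul_iff_right₀ hη]
      have : η * (2 * (h + 1) / η + 16 * η * S) = 2 * (h + 1) + 16 * η ^ 2 * S := by
        field_simp
      rw [this]
      linarith
    have h4 : S * (s * M (pr2 f h)) ≤ S * (31 * η) := by linarith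
    exact le_of_mul_le_mul_left h4 hI1
  have key2 : ∀ s : ℝ, |s| ≤ 1 → s * M (pr2 f h) ≤ 0 := fun s hs =>
    le_of_forall_pos_le_add fun ε hε => by
      have := key s hs (min (1 / 4) (ε / 31)) (by positivity) (min_le_left _ _)
      have := min_le_right (1 / 4) (ε / 31)
      linarith
  linarith [key2 1 (by simp), key2 (-1) (by simp)]

theorem mean_zero (hM : IsM M) (hf : CM f) (hP : ¬ Pret f) : M (fun n => (f n : ℝ)) = 0 := by
  have b : Bd (fun n => (f n : ℝ)) := ⟨1, hf.abs_le'⟩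
  have key : ∀ ε : ℝ, 0 < ε → M (fun n => (f n : ℝ)) ^ 2 ≤ ε := by
    intro ε hε
    obtain ⟨J, hJ1, hJ⟩ := ((eventually_gt_atTop 0).and (per_small hM hf hP one_pos (fun _ => 1)
      (by simp) (by simp) hε)).exists
    simp only [mul_one] at hJ
    have hJ' : (0 : ℝ) < J := by exact_mod_cast hJ1
    set m := M (fun n => (f n : ℝ))
    have b2 : Bd (fun n => ∑ j ∈ range J, (f (n + j) : ℝ)) := Bd.sum _ fun j _ => b.comp _
    have e : M (fun n => ∑ j ∈ range J, (f (n + j) : ℝ)) = J * m := by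
      rw [IsM.sum, sum_congr rfl fun j _ => hM.shift b j]
      simp [m]
    have h1 := hM.mono (((Bd.const (2 * (J * m))).mul b2).sub (Bd.const ((J * m) ^ 2))) b2.sq
      fun n => by nlinarith [sq_nonneg (∑ j ∈ range J, (f (n + j) : ℝ) - J * m)]
    rw [IsM.sub, IsM.mul, hM.const, e] at h1
    rw [one_div_mul_eq_div, div_le_iff₀ (by positivity)] at hJ
    have h2 : m ^ 2 * (J : ℝ) ^ 2 ≤ ε * J ^ 2 := by nlinarith
    exact le_of_mul_le_mul_right h2 (by positivity)
  have := le_of_forall_pos_le_add (a := M (fun n => (f n : ℝ)) ^ 2) (b := 0) fun ε hε => by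
    simpa using key ε hε
  exact pow_eq_zero_iff (two_ne_zero) |>.1 (le_antisymm this (sq_nonneg _))

end

end Pool.Agent.H266Z.Leh
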